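import Pool.Agent.MJL.St
import Pool.Agent.MJR.PhiM

/-!
# MJL, module Homm: homogeneity
-/

namespace Pool.Agent.MJL

open MvPolynomial Pool.Agent.MJR
open Pool.Agent.MJF (spl Stt inc cls)

noncomputable section

namespace Hom

variable {K : Type} [Field K]

/-! ### Multisets -/

/-- the product of the variables of the alphabet `a` -/
def ms (K : Type) [Field K] (a : Fin 3) (s : Multiset ℕ) : B3 K :=
  (s.map fun k => (X (a, k) : B3 K)).prod

theorem ms_cons (a : Fin 3) (k : ℕ) (s : Multiset ℕ) :
    ms K a (k ::ₘ s) = X (a, k) * ms K a s := by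
  unfold ms
  rw [Multiset.map_cons, Multiset.prod_cons]

theorem ms_add (a : Fin 3) (s t : Multiset ℕ) : ms K a (s + t) = ms K a s * ms K a t := by
  unfold ms
  rw [Multiset.map_add, Multiset.prod_add]

theorem pa_eq (a : Fin 3) {n : ℕ} (r : n.Partition) : (pa a r : B3 K) = ms K a r.parts := rfl

/-- a partition from a multiset -/
def pt (n : ℕ) (s : Multiset ℕ) (h : ∀ k ∈ s, 0 < k) (hs : s.sum = n) : n.Partition where
  parts := s
  parts_pos := fun {k} hk => h k hk
  parts_sum := hs

theorem ms_mem (n : ℕ) (s s' s'' : Multiset ℕ) (h : ∀ k ∈ s, 0 < k) (h' : ∀ k ∈ s', 0 < k)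
    (h'' : ∀ k ∈ s'', 0 < k) (hs : s.sum = n) (hs' : s'.sum = n) (hs'' : s''.sum = n) :
    ms K 0 s * ms K 1 s' * ms K 2 s'' ∈ H3 K n :=
  Submodule.subset_span ⟨(pt n s h hs, pt n s' h' hs', pt n s'' h'' hs''), rfl⟩

theorem one_mem3 : (1 : B3 K) ∈ H3 K 0 := by
  have h := ms_mem (K := K) 0 0 0 0 (by simp) (by simp) (by simp) rfl rfl rfl
  unfold ms at h
  simpa using h

theorem mul_mem3 {i j : ℕ} {f g : B3 K} (hf : f ∈ H3 K i) (hg : g ∈ H3 K j) :
    f * g ∈ H3 K (i + j) := by
  have h1 : f * g ∈ H3 K i * H3 K j := Submodule.mul_mem_mul hf hg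
  have h2 : H3 K i * H3 K j ≤ H3 K (i + j) := by
    unfold H3
    rw [Submodule.span_mul_span, Submodule.span_le]
    rintro _ ⟨_, ⟨⟨t, m, v⟩, rfl⟩, _, ⟨⟨t', m', v'⟩, rfl⟩, rfl⟩
    have h3 := ms_mem (K := K) (i + j) (t.parts + t'.parts) (m.parts + m'.parts)
      (v.parts + v'.parts)
      (fun k hk => (Multiset.mem_add.1 hk).elim (fun h => t.parts_pos h) fun h => t'.parts_pos h)
      (fun k hk => (Multiset.mem_add.1 hk).elim (fun h => m.parts_pos h) fun h => m'.parts_pos h)
      (fun k hk => (Multiset.mem_add.1 hk).elim (fun h => v.parts_pos h) fun h => v'.parts_pos h)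
      (by rw [Multiset.sum_add, t.parts_sum, t'.parts_sum])
      (by rw [Multiset.sum_add, m.parts_sum, m'.parts_sum])
      (by rw [Multiset.sum_add, v.parts_sum, v'.parts_sum])
    rw [ms_add, ms_add, ms_add] at h3
    have h4 : (pa 0 t * pa 1 m * pa 2 v : B3 K) * (pa 0 t' * pa 1 m' * pa 2 v') =
        ms K 0 t.parts * ms K 0 t'.parts * (ms K 1 m.parts * ms K 1 m'.parts) *
          (ms K 2 v.parts * ms K 2 v'.parts) := by
      rw [pa_eq, pa_eq, pa_eq, pa_eq, pa_eq, pa_eq]
      ring
    rw [← h4] at h3
    exact h3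
  exact h2 h1

theorem gen_mem {n : ℕ} (t m v : n.Partition) : (pa 0 t * pa 1 m * pa 2 v : B3 K) ∈ H3 K n :=
  Submodule.subset_span ⟨(t, m, v), rfl⟩

/-! ### The Jack side -/

theorem phi_mem (al : K) (J : (n : ℕ) → n.Partition → n.Partition → K) (n : ℕ) :
    PowerSeries.coeff n (phi al J) ∈ H3 K n := by
  unfold phi
  rw [PowerSeries.coeff_mk]
  refine Submodule.sum_mem _ fun l _ => ?_
  rw [← smul_eq_C_mul]
  refine Submodule.smul_mem _ _ ?_
  have h2 : Ja (J n) l 0 * Ja (J n) l 1 * Ja (J n) l 2 = ∑ r, ∑ r', ∑ r'',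
      C (J n l r * J n l r' * J n l r'') * (pa 0 r * pa 1 r' * pa 2 r'' : B3 K) := by
    unfold Ja
    rw [Finset.sum_mul_sum, Finset.sum_mul]
    refine Finset.sum_congr rfl fun r _ => ?_
    rw [Finset.sum_mul]
    refine Finset.sum_congr rfl fun r' _ => ?_
    rw [Finset.mul_sum]
    refine Finset.sum_congr rfl fun r'' _ => ?_
    rw [C_mul, C_mul]
    ring
  rw [h2]
  refine Submodule.sum_mem _ fun r _ => Submodule.sum_mem _ fun r' _ =>
    Submodule.sum_mem _ fun r'' _ => ?_
  rw [← smul_eq_C_mul]
  exact Submodule.smul_mem _ _ (gen_mem r r' r'')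

/-! ### The labelled process -/

/-- The states after `t` steps. -/
def Inv (t : ℕ) (S : Stt) : Prop :=
  (∀ x ∈ S.2.1, x < S.1.length) ∧ (∀ z ∈ S.2.2, ∀ x ∈ z, x < S.1.length) ∧ S.1.sum = t ∧
    (∀ x ∈ S.1, 0 < x) ∧ S.2.1.length + (S.2.2.map List.length).sum = t ∧
    ∀ z ∈ S.2.2, z ≠ []

theorem inc_length (s : List ℕ) (l : ℕ) : (inc s l).length = s.length := by
  unfold inc
  exact List.length_modify _ _ _

theorem inc_sum (s : List ℕ) (l : ℕ) (h : l < s.length) : (inc s l).sum = s.sum + 1 := by
  unfold inc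
  induction s generalizing l with
  | nil => exact absurd h (Nat.not_lt_zero _)
  | cons a s ih =>
    cases l with
    | zero =>
      rw [List.modify_zero_cons, List.sum_cons, List.sum_cons]
      omega
    | succ l =>
      rw [List.modify_succ_cons, List.sum_cons, List.sum_cons,
        ih l (by simpa using h)]
      omega

theorem inc_pos (s : List ℕ) (l : ℕ) (h : ∀ x ∈ s, 0 < x) : ∀ x ∈ inc s l, 0 < x := by
  unfold inc
  induction s generalizing l with
  | nil =>
    intro x hx
    simp at hx
  | cons a s ih =>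
    cases l with
    | zero =>
      rw [List.modify_zero_cons]
      intro x hx
      rcases List.mem_cons.1 hx with rfl | hx
      · omega
      · exact h x (List.mem_cons_of_mem _ hx)
    | succ l =>
      rw [List.modify_succ_cons]
      intro x hx
      rcases List.mem_cons.1 hx with rfl | hx
      · exact h x (List.mem_cons_self)
      · exact ih l (fun y hy => h y (List.mem_cons_of_mem _ hy)) x hx

theorem Inv_stay {t : ℕ} {S : Stt} (h : Inv t S) :
    Inv (t + 1) (S.1 ++ [1], S.1.length :: S.2.1, S.2.2) := by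
  obtain ⟨h1, h2, h3, h4, h5, h6⟩ := h
  refine ⟨?_, ?_, ?_, ?_, ?_, h6⟩
  · intro x hx
    simp only [List.length_append, List.length_singleton]
    rcases List.mem_cons.1 hx with rfl | hx
    · omega
    · exact (h1 x hx).trans (Nat.lt_succ_self _)
  · intro z hz x hx
    simp only [List.length_append, List.length_singleton]
    exact (h2 z hz x hx).trans (Nat.lt_succ_self _)
  · simp only [List.sum_append, List.sum_singleton, h3]
  · intro x hx
    rcases List.mem_append.1 hx with hx | hx
    · exact h4 x hx
    · rw [List.mem_singleton.1 hx]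
      exact Nat.one_pos
  · simp only [List.length_cons]
    omega

theorem Inv_touch {t : ℕ} {s W : List ℕ} {Cs : List (List ℕ)} {l : ℕ} (hl : l < s.length)
    (h3 : s.sum = t) (h4 : ∀ x ∈ s, 0 < x) (h1 : ∀ x ∈ W, x < s.length)
    (h2 : ∀ z ∈ Cs, ∀ x ∈ z, x < s.length) (h5 : W.length + (Cs.map List.length).sum = t)
    (h6 : ∀ z ∈ Cs, z ≠ []) : Inv (t + 1) (inc s l, l :: W, Cs) := by
  refine ⟨?_, ?_, ?_, ?_, ?_, h6⟩
  · intro x hx
    rw [inc_length]
    rcases List.mem_cons.1 hx with rfl | hx
    · exact hl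
    · exact h1 x hx
  · intro z hz x hx
    rw [inc_length]
    exact h2 z hz x hx
  · rw [inc_sum s l hl, h3]
  · exact inc_pos s l h4
  · simp only [List.length_cons]
    omega

section mem
variable {V : Type} [AddCommGroup V] [Module K V]

theorem spl_mem {α : Type} {M : Submodule K V} {φ : List α → α → List α → V} (L : List α)
    (h : ∀ X x Y, L = X ++ x :: Y → φ X x Y ∈ M) : spl φ L ∈ M := by
  induction L generalizing φ with
  | nil => exact zero_mem _
  | cons l L ih =>
    refine add_mem (h [] l L rfl) (ih fun X x Y hL => h (l :: X) x Y ?_)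
    rw [hL]
    rfl

theorem stp_mem {b w1 w2 : K} {M : Submodule K V} {φ : Stt → V} {t : ℕ}
    (h : ∀ S, Inv (t + 1) S → S.2.1 ≠ [] → φ S ∈ M)
    {S : Stt} (hS : Inv t S) : stp b w1 w2 φ S ∈ M := by
  obtain ⟨s, W, Cs⟩ := S
  have hS' := hS
  obtain ⟨h1, h2, h3, h4, h5, h6⟩ := hS
  unfold stp
  simp only at h1 h2 h3 h4 h5 h6
  refine add_mem (add_mem (h _ (Inv_stay hS') (by simp)) ?_) ?_
  · apply spl_mem
    intro X l Y hW
    have hW' : (s, W, Cs).2.1 = W := rfl
    rw [hW'] at hW
    have hl : l < s.length := h1 l (by rw [hW]; simp)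
    have hX : ∀ x ∈ X, x < s.length := fun x hx => h1 x (by rw [hW]; simp [hx])
    have hY : ∀ x ∈ Y, x < s.length := fun x hx => h1 x (by rw [hW]; simp [hx])
    have hlen : W.length = X.length + (Y.length + 1) := by
      rw [hW, List.length_append, List.length_cons]
    refine add_mem (h _ (Inv_touch hl h3 h4 hY ?_ ?_ ?_) (by simp))
      (M.smul_mem _ (h _ (Inv_touch hl h3 h4 ?_ h2 ?_ h6) (by simp)))
    · intro z hz x hx
      rcases List.mem_cons.1 hz with rfl | hz
      · simp only [List.mem_append, List.mem_singleton] at hx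
        rcases hx with hx | rfl
        · exact hX x hx
        · exact hl
      · exact h2 z hz x hx
    · simp only [List.map_cons, List.sum_cons, List.length_append, List.length_singleton]
      omega
    · intro z hz
      rcases List.mem_cons.1 hz with rfl | hz
      · simp
      · exact h6 z hz
    · intro x hx
      simp only [List.mem_append, List.mem_reverse, List.mem_cons] at hx
      rcases hx with hx | rfl | hx
      · exact hX x hx
      · exact hl
      · exact hY x hx
    · simp only [List.length_append, List.length_reverse, List.length_cons]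
      omega
  · apply spl_mem
    intro A z B hC
    have hC' : (s, W, Cs).2.2 = Cs := rfl
    rw [hC'] at hC
    have hz : ∀ x ∈ z, x < s.length := h2 z (by rw [hC]; simp)
    have hAB : ∀ z' ∈ A ++ B, ∀ x ∈ z', x < s.length := by
      intro z' hz'
      apply h2 z'
      rw [hC]
      simp only [List.mem_append, List.mem_cons] at hz' ⊢
      tauto
    have hAB6 : ∀ z' ∈ A ++ B, z' ≠ [] := by
      intro z' hz'
      apply h6 z'
      rw [hC]
      simp only [List.mem_append, List.mem_cons] at hz' ⊢
      tauto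
    have hlenC : (Cs.map List.length).sum =
        ((A ++ B).map List.length).sum + z.length := by
      rw [hC]
      simp only [List.map_append, List.map_cons, List.sum_append, List.sum_cons]
      omega
    apply spl_mem
    intro X l Y hz2
    have hl : l < s.length := hz l (by rw [hz2]; simp)
    have hX : ∀ x ∈ X, x < s.length := fun x hx => hz x (by rw [hz2]; simp [hx])
    have hY : ∀ x ∈ Y, x < s.length := fun x hx => hz x (by rw [hz2]; simp [hx])
    have hlen : z.length = X.length + (Y.length + 1) := by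
      rw [hz2, List.length_append, List.length_cons]
    refine add_mem (M.smul_mem _ (h _ (Inv_touch hl h3 h4 ?_ hAB ?_ hAB6) (by simp)))
      (M.smul_mem _ (h _ (Inv_touch hl h3 h4 ?_ hAB ?_ hAB6) (by simp)))
    · intro x hx
      simp only [List.mem_append, List.mem_cons] at hx
      rcases hx with (hx | hx) | rfl | hx
      · exact hY x hx
      · exact hX x hx
      · exact hl
      · exact h1 x hx
    · simp only [List.length_append, List.length_cons]
      omega
    · intro x hx
      simp only [List.mem_append, List.mem_reverse, List.mem_cons] at hx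
      rcases hx with (hx | hx) | rfl | hx
      · exact hY x hx
      · exact hX x hx
      · exact hl
      · exact h1 x hx
    · simp only [List.length_append, List.length_cons, List.length_reverse]
      omega

theorem iter_mem {b w1 w2 : K} {M : Submodule K V} (k : ℕ) {φ : Stt → V} {t : ℕ}
    (h : ∀ S, Inv (t + (k + 1)) S → S.2.1 ≠ [] → φ S ∈ M) {S : Stt} (hS : Inv t S) :
    (stp b w1 w2)^[k + 1] φ S ∈ M := by
  induction k generalizing φ with
  | zero => exact stp_mem h hS
  | succ k ih =>
    rw [Function.iterate_succ_apply]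
    exact ih fun S hS _ => stp_mem h hS

theorem Ep_mem {b w1 w2 : K} {M : Submodule K V} (p : List ℕ) (hp : ∀ k ∈ p, 0 < k)
    {φ : Stt → V} (h : ∀ S, Inv p.sum S → S.2.1 = [] → φ S ∈ M) : Ep b w1 w2 p φ ∈ M := by
  induction p generalizing φ with
  | nil =>
    refine h _ ⟨?_, ?_, rfl, ?_, rfl, ?_⟩ rfl <;> simp
  | cons k p ih =>
    change Ep b w1 w2 p ((stp b w1 w2)^[k] (cls φ)) ∈ M
    refine ih (fun j hj => hp j (List.mem_cons_of_mem _ hj)) ?_
    intro S hS hr
    obtain ⟨j, rfl⟩ : ∃ j, k = j + 1 := ⟨k - 1, by have := hp k List.mem_cons_self; omega⟩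
    refine iter_mem j ?_ hS
    intro S hS hne
    obtain ⟨h1, h2, h3, h4, h5, h6⟩ := hS
    refine h _ ⟨?_, ?_, ?_, h4, ?_, ?_⟩ rfl
    · intro x hx
      simp at hx
    · intro z hz x hx
      rcases List.mem_cons.1 hz with rfl | hz
      · exact h1 x hx
      · exact h2 z hz x hx
    · rw [h3, List.sum_cons, add_comm]
    · simp only [List.length_nil, List.map_cons, List.sum_cons]
      omega
    · intro z hz
      rcases List.mem_cons.1 hz with rfl | hz
      · exact hne
      · exact h6 z hz

end mem

/-- the span of the `p_m(y) p_v(z)` -/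
def H2 (K : Type) [Field K] (n : ℕ) : Submodule K (B3 K) :=
  Submodule.span K (Set.range fun a : n.Partition × n.Partition => (pa 1 a.1 * pa 2 a.2 : B3 K))

theorem Zp_mem (b w1 w2 : K) (p : List ℕ) (hp : ∀ k ∈ p, 0 < k) :
    Zp b w1 w2 p ∈ H2 K p.sum := by
  refine Ep_mem p hp ?_
  rintro ⟨s, W, Cs⟩ ⟨h1, h2, h3, h4, h5, h6⟩ hW
  simp only at h1 h2 h3 h4 h5 h6 hW
  subst hW
  have e1 : (s.map fun k => (X (2, k) : B3 K)).prod = ms K 2 (s : Multiset ℕ) := by
    unfold ms
    rw [Multiset.map_coe, Multiset.prod_coe]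
  have e2 : (Cs.map fun z => (X (1, z.length) : B3 K)).prod =
      ms K 1 ((Cs.map List.length : List ℕ) : Multiset ℕ) := by
    unfold ms
    rw [Multiset.map_coe, Multiset.prod_coe, List.map_map]
    rfl
  refine Submodule.subset_span ⟨(pt p.sum ((Cs.map List.length : List ℕ) : Multiset ℕ) ?_ ?_,
    pt p.sum (s : Multiset ℕ) ?_ ?_), ?_⟩
  · intro k hk
    rw [Multiset.mem_coe, List.mem_map] at hk
    obtain ⟨z, hz, rfl⟩ := hk
    exact List.length_pos_iff.2 (h6 z hz)
  · rw [Multiset.sum_coe]
    simpa using h5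
  · intro k hk
    exact h4 k (Multiset.mem_coe.1 hk)
  · rw [Multiset.sum_coe]
    exact h3
  · change ms K 1 _ * ms K 2 _ = _
    rw [e1, e2, mul_comm]
    rfl

theorem SS_mem (al : K) (n : ℕ) : ∀ (N : ℕ) (D : Multiset ℕ), (∀ k ∈ D, 0 < k) →
    D.sum + n = N → ∀ f : List ℕ → B3 K,
    (∀ p : List ℕ, p.sum = n → (∀ k ∈ p, 0 < k) → f p ∈ H2 K N) →
    ms K 0 D * SS al (fun k => (X (0, k) : B3 K)) n f ∈ H3 K N := by
  induction n using Nat.strong_induction_on with
  | _ n ih =>
    intro N D hD hN f hf
    cases n with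
    | zero =>
      rw [SS]
      have h1 := hf [] rfl (by simp)
      unfold H2 at h1
      generalize f [] = y at h1 ⊢
      induction h1 using Submodule.span_induction with
      | mem x hx =>
        obtain ⟨⟨m, v⟩, rfl⟩ := hx
        have h2 := gen_mem (K := K) (pt N D hD hN) m v
        rw [mul_assoc] at h2
        exact h2
      | zero =>
        rw [mul_zero]
        exact zero_mem _
      | add x y _ _ hx hy =>
        rw [mul_add]
        exact add_mem hx hy
      | smul c x _ hx =>
        rw [mul_smul_comm]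
        exact Submodule.smul_mem _ _ hx
    | succ n =>
      rw [SS, mul_smul_comm]
      refine Submodule.smul_mem _ _ ?_
      rw [Finset.mul_sum]
      refine Submodule.sum_mem _ fun k _ => ?_
      have hk : (k : ℕ) < n + 1 := k.2
      have h1 := ih (n - k) (by omega) N ((k + 1 : ℕ) ::ₘ D) (by
        intro j hj
        rcases Multiset.mem_cons.1 hj with rfl | hj
        · omega
        · exact hD j hj) (by
        rw [Multiset.sum_cons]
        omega) (fun p => f ((k + 1 : ℕ) :: p)) (by
        intro p hp hpos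
        refine hf _ ?_ ?_
        · rw [List.sum_cons, hp]
          omega
        · intro j hj
          rcases List.mem_cons.1 hj with rfl | hj
          · omega
          · exact hpos j hj)
      rw [ms_cons] at h1
      rw [smul_eq_mul, ← mul_assoc, mul_comm (ms K 0 D)]
      exact h1

/-! ### The logarithm -/

theorem inv_mem (F : PowerSeries (B3 K)) (h0 : PowerSeries.constantCoeff F = 1)
    (hF : ∀ n, PowerSeries.coeff n F ∈ H3 K n) (n : ℕ) :
    PowerSeries.coeff n (PowerSeries.invOfUnit F 1) ∈ H3 K n := by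
  have hi : F * PowerSeries.invOfUnit F 1 = 1 :=
    PowerSeries.mul_invOfUnit F 1 (by rw [h0, Units.val_one])
  induction n using Nat.strong_induction_on with
  | _ n ih =>
    have h1 : PowerSeries.coeff n (F * PowerSeries.invOfUnit F 1) =
        PowerSeries.coeff n (1 : PowerSeries (B3 K)) := by rw [hi]
    rw [PowerSeries.coeff_mul] at h1
    have hm : ((0 : ℕ), n) ∈ Finset.HasAntidiagonal.antidiagonal n := by simp
    rw [← Finset.add_sum_erase _ _ hm] at h1
    have h2 : PowerSeries.coeff 0 F = 1 := by
      rw [PowerSeries.coeff_zero_eq_constantCoeff_apply, h0]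
    rw [h2, one_mul] at h1
    rw [eq_sub_of_add_eq h1]
    refine sub_mem ?_ (Submodule.sum_mem _ ?_)
    · rw [PowerSeries.coeff_one]
      split_ifs with hn
      · rw [hn]
        exact one_mem3
      · exact zero_mem _
    · rintro ⟨i, j⟩ hij
      rw [Finset.mem_erase, Finset.HasAntidiagonal.mem_antidiagonal] at hij
      obtain ⟨hne, hsum⟩ := hij
      simp only at hsum
      have hj : j < n := by
        rcases Nat.eq_zero_or_pos i with hi0 | hi0
        · exfalso
          apply hne
          rw [hi0] at hsum ⊢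
          rw [zero_add] at hsum
          rw [hsum]
        · omega
      have h3 := mul_mem3 (hF i) (ih j hj)
      rw [hsum] at h3
      exact h3

theorem lg_mem (al : K) (F : PowerSeries (B3 K)) (h0 : PowerSeries.constantCoeff F = 1)
    (hF : ∀ n, PowerSeries.coeff n F ∈ H3 K n) (n : ℕ) :
    PowerSeries.coeff n (lg al F) ∈ H3 K n := by
  unfold lg
  rw [PowerSeries.coeff_mul]
  refine Submodule.sum_mem _ ?_
  rintro ⟨i, j⟩ hij
  rw [Finset.HasAntidiagonal.mem_antidiagonal] at hij
  simp only at hij
  rw [PowerSeries.coeff_mk]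
  have h3 := mul_mem3 (Submodule.smul_mem _ (al * (i : K)) (hF i)) (inv_mem F h0 hF j)
  rw [hij] at h3
  exact h3

/-! ### The specialisation -/

theorem sp_X0 (x q : ℕ → K) (k : ℕ) : sp x q (X (0, k)) = C (x k) := by
  unfold sp
  rw [aeval_X]
  rfl

theorem sp_X1 (x q : ℕ → K) (k : ℕ) : sp x q (X (1, k)) = X k := by
  unfold sp
  rw [aeval_X]
  rfl

theorem sp_X2 (x q : ℕ → K) (k : ℕ) : sp x q (X (2, k)) = C (q k) := by
  unfold sp
  rw [aeval_X]
  rfl

theorem sp_ms0 (x q : ℕ → K) (s : Multiset ℕ) : sp x q (ms K 0 s) = C (s.map x).prod := by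
  induction s using Multiset.induction_on with
  | empty =>
    unfold ms
    simp
  | cons a s ih => rw [ms_cons, map_mul, ih, sp_X0, Multiset.map_cons, Multiset.prod_cons, C_mul]

theorem sp_ms2 (x q : ℕ → K) (s : Multiset ℕ) : sp x q (ms K 2 s) = C (s.map q).prod := by
  induction s using Multiset.induction_on with
  | empty =>
    unfold ms
    simp
  | cons a s ih => rw [ms_cons, map_mul, ih, sp_X2, Multiset.map_cons, Multiset.prod_cons, C_mul]

theorem sp_ms1 (x q : ℕ → K) (s : Multiset ℕ) :
    sp x q (ms K 1 s) = monomial (Multiset.toFinsupp s) 1 := by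
  induction s using Multiset.induction_on with
  | empty =>
    unfold ms
    simp
  | cons a s ih =>
    rw [ms_cons, map_mul, ih, sp_X1, ← Multiset.singleton_add, map_add,
      Multiset.toFinsupp_singleton, X, monomial_mul, one_mul]

theorem sp_gen (x q : ℕ → K) {n : ℕ} (t m v : n.Partition) :
    sp x q (pa 0 t * pa 1 m * pa 2 v) =
      monomial (expo m) ((t.parts.map x).prod * (v.parts.map q).prod) := by
  rw [pa_eq, pa_eq, pa_eq, map_mul, map_mul, sp_ms0, sp_ms1, sp_ms2, C_mul_monomial, mul_comm,
    C_mul_monomial, mul_one, mul_comm]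
  rfl

theorem gen_eq {n : ℕ} (t m v : n.Partition) :
    (pa 0 t * pa 1 m * pa 2 v : B3 K) = monomial (expo3 t m v) 1 := by
  unfold pa expo3
  rw [PhiM.prod_X (K := K) (fun k => ((0 : Fin 3), k)),
    PhiM.prod_X (K := K) (fun k => ((1 : Fin 3), k)),
    PhiM.prod_X (K := K) (fun k => ((2 : Fin 3), k)), monomial_mul, monomial_mul, one_mul,
    one_mul, map_add, map_add]

theorem expo_inj {n : ℕ} {m m' : n.Partition} (h : expo m = expo m') : m = m' := by
  unfold expo at h
  exact Nat.Partition.ext (Multiset.toFinsupp.injective h)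

end Hom

theorem homm (K : Type) [Field K] : HomSt K where
  phi := Hom.phi_mem
  phiN := by
    intro al b w1 w2 n
    unfold phiS
    rw [PowerSeries.coeff_mk]
    have h := Hom.SS_mem al n n 0 (by simp) (by simp) (Zp b w1 w2) (by
      intro p hp hpos
      have h1 := Hom.Zp_mem b w1 w2 p hpos
      rw [hp] at h1
      exact h1)
    unfold Hom.ms at h
    rw [Multiset.map_zero, Multiset.prod_zero, one_mul] at h
    exact h
  phiZ := by
    intro al b w1 w2
    rw [← PowerSeries.coeff_zero_eq_constantCoeff_apply]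
    unfold phiS
    rw [PowerSeries.coeff_mk, SS]
    unfold Zp
    change (List.map _ []).prod * (List.map _ []).prod = _
    simp
  log := fun al F h0 hF n => Hom.lg_mem al F h0 hF n
  spe := by
    classical
    intro x q n f hf m
    unfold H3 at hf
    induction hf using Submodule.span_induction with
    | mem f hf =>
      obtain ⟨⟨t, m', v⟩, rfl⟩ := hf
      change coeff (expo m) (sp x q (pa 0 t * pa 1 m' * pa 2 v)) = ∑ t', ∑ v',
        coeff (expo3 t' m v') (pa 0 t * pa 1 m' * pa 2 v) *
          ((t'.parts.map x).prod * (v'.parts.map q).prod)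
      rw [Hom.sp_gen, Hom.gen_eq]
      simp only [coeff_monomial]
      have h3 : ∀ t' v' : n.Partition, (if expo3 t m' v = expo3 t' m v' then (1 : K) else 0) =
          if t = t' then (if m' = m then (if v = v' then 1 else 0) else 0) else 0 := by
        intro t' v'
        by_cases h : expo3 t m' v = expo3 t' m v'
        · obtain ⟨e1, e2, e3⟩ := PhiM.expo3_inj h
          rw [if_pos h, if_pos e1, if_pos e2, if_pos e3]
        · rw [if_neg h]
          split_ifs with e1 e2 e3
          · exact absurd (by rw [e1, e2, e3]) h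
          · rfl
          · rfl
          · rfl
      simp only [h3]
      by_cases hm : m' = m
      · subst hm
        simp
      · have hm' : expo m' ≠ expo m := fun h => hm (Hom.expo_inj h)
        simp [hm, hm']
    | zero => simp
    | add f g _ _ hf hg =>
      rw [map_add, coeff_add, hf, hg, ← Finset.sum_add_distrib]
      refine Finset.sum_congr rfl fun t _ => ?_
      rw [← Finset.sum_add_distrib]
      refine Finset.sum_congr rfl fun v _ => ?_
      rw [coeff_add]
      ring
    | smul c f _ hf =>
      rw [map_smul, coeff_smul, hf, smul_eq_mul, Finset.mul_sum]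
      refine Finset.sum_congr rfl fun t _ => ?_
      rw [Finset.mul_sum]
      refine Finset.sum_congr rfl fun v _ => ?_
      rw [coeff_smul, smul_eq_mul]
      ring
  sp0 := by
    classical
    intro x q n f hf e he
    unfold H3 at hf
    induction hf using Submodule.span_induction with
    | mem f hf =>
      obtain ⟨⟨t, m', v⟩, rfl⟩ := hf
      change coeff e (sp x q (pa 0 t * pa 1 m' * pa 2 v)) = 0
      rw [Hom.sp_gen, coeff_monomial, if_neg fun h => he m' h.symm]
    | zero => simp
    | add f g _ _ hf hg => rw [map_add, coeff_add, hf, hg, add_zero]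
    | smul c f _ hf => rw [map_smul, coeff_smul, hf, smul_zero]

end

end Pool.Agent.MJL
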