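import Pool.Agent.MJL.St

/-!
Basic rules for the operators on words, any set of colours.
-/

namespace Pool.Agent.MJL

open MvPolynomial Pool.Agent.MJR
open Pool.Agent.MJF (spl Stt inc cls spl_nil spl_cons spl_congr spl_congr' spl_append spl_add
  spl_zero spl_hom spl_rot)

noncomputable section

variable {K : Type} [Field K] {I : Type}

/-! ### cyclic words -/

theorem cy_rot (A B : List I) : cy K (A ++ B) = cy K (B ++ A) := by
  unfold cy
  congr 1
  exact Cycle.coe_eq_coe.mpr List.isRotated_append

theorem out_rot (L : List I) : (Quotient.out (L : Cycle I)) ~r L :=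
  Cycle.coe_eq_coe.mp (Quotient.out_eq (L : Cycle I))

theorem cy_surj (z : Cycle I) : ∃ L : List I, (X z : CW K I) = cy K L := by
  refine ⟨Quotient.out z, ?_⟩
  unfold cy
  congr 1
  exact (Quotient.out_eq z).symm

/-- Induction for closed words. -/
theorem cw_induction {P : CW K I → Prop} (f : CW K I) (hC : ∀ c, P (C c))
    (hadd : ∀ f g, P f → P g → P (f + g)) (hX : ∀ f L, P f → P (f * cy K L)) : P f := by
  induction f using MvPolynomial.induction_on with
  | C c => exact hC c
  | add f g hf hg => exact hadd f g hf hg
  | mul_X f z hf =>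
    obtain ⟨L, hL⟩ := cy_surj (K := K) z
    rw [hL]
    exact hX f L hf

/-! ### root words -/

theorem app_single (L X : List I) (f : CW K I) :
    app L (Finsupp.single X f : RW K I) = Finsupp.single (X ++ L) f := by
  unfold app
  rw [Finsupp.lmapDomain_apply, Finsupp.mapDomain_single]

theorem pre_single (L X : List I) (f : CW K I) :
    pre L (Finsupp.single X f : RW K I) = Finsupp.single (L ++ X) f := by
  unfold pre
  rw [Finsupp.lmapDomain_apply, Finsupp.mapDomain_single]

theorem app_rw1 (L X : List I) : app L (rw1 K X) = rw1 K (X ++ L) := app_single _ _ _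

theorem pre_rw1 (L X : List I) : pre L (rw1 K X) = rw1 K (L ++ X) := pre_single _ _ _

theorem single_eq (L : List I) (f : CW K I) :
    (Finsupp.single L f : RW K I) = f • rw1 K L := by
  unfold rw1
  rw [Finsupp.smul_single, smul_eq_mul, mul_one]

theorem app_smul (L : List I) (c : CW K I) (x : RW K I) : app L (c • x) = c • app L x :=
  map_smul _ _ _

theorem pre_smul (L : List I) (c : CW K I) (x : RW K I) : pre L (c • x) = c • pre L x :=
  map_smul _ _ _

theorem clw_single (L : List I) (f : CW K I) :
    clw K (Finsupp.single L f : RW K I) = f * cy K L := by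
  unfold clw
  rw [Finsupp.linearCombination_single, smul_eq_mul]

theorem clw_rw1 (L : List I) : clw K (rw1 K L) = cy K L := by
  unfold rw1
  rw [clw_single, one_mul]

theorem iw_apply (f : CW K I) : iw K f = (Finsupp.single [] f : RW K I) := rfl

theorem iw_eq (f : CW K I) : iw K f = f • rw1 K ([] : List I) := by
  rw [iw_apply, single_eq]

/-! ### the product of a root word with a root state -/

theorem cat_single (m : RW K I) (L : List I) (f : CW K I) :
    cat m (Finsupp.single L f) = f • app L m := Finsupp.linearCombination_single _ _ _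

theorem cat_rw1 (m : RW K I) (L : List I) : cat m (rw1 K L) = app L m := by
  unfold rw1
  rw [cat_single, one_smul]

theorem cat_add (y z x : RW K I) : cat (y + z) x = cat y x + cat z x := by
  induction x using Finsupp.induction_linear with
  | zero => simp
  | add p q hp hq =>
    rw [map_add, map_add, map_add, hp, hq]
    abel
  | single L f => rw [cat_single, cat_single, cat_single, map_add, smul_add]

theorem cat_smul (c : CW K I) (y x : RW K I) : cat (c • y) x = c • cat y x := by
  induction x using Finsupp.induction_linear with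
  | zero => simp
  | add p q hp hq => rw [map_add, map_add, hp, hq, smul_add]
  | single L f => rw [cat_single, cat_single, map_smul, smul_comm]

theorem cat_rw1_left (X : List I) (x : RW K I) : cat (rw1 K X) x = pre X x := by
  induction x using Finsupp.induction_linear with
  | zero => simp
  | add p q hp hq => rw [map_add, map_add, hp, hq]
  | single L f => rw [cat_single, app_rw1, pre_single, single_eq (X ++ L)]

theorem cat_zero (x : RW K I) : cat (0 : RW K I) x = 0 := by
  have := cat_smul (0 : CW K I) (0 : RW K I) x
  rwa [zero_smul, zero_smul] at this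

theorem cat_sub (y z x : RW K I) : cat (y - z) x = cat y x - cat z x := by
  have h : y - z = y + (-1 : CW K I) • z := by rw [neg_one_smul, sub_eq_add_neg]
  rw [h, cat_add, cat_smul, neg_one_smul, sub_eq_add_neg]

theorem cat_sum {ι : Type} (s : Finset ι) (y : ι → RW K I) (x : RW K I) :
    cat (∑ i ∈ s, y i) x = ∑ i ∈ s, cat (y i) x := by
  classical
  induction s using Finset.induction_on with
  | empty => simp [cat_zero]
  | insert i s hi ih => rw [Finset.sum_insert hi, Finset.sum_insert hi, cat_add, ih]

theorem cat_rw1_nil (x : RW K I) : cat (rw1 K []) x = x := by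
  induction x using Finsupp.induction_linear with
  | zero => simp
  | add p q hp hq => rw [map_add, hp, hq]
  | single L f => rw [cat_single, app_rw1, List.nil_append, ← single_eq]

/-! ### `opr` -/

theorem opr_single (d : Derivation K (CW K I) (RW K I)) (g : List I → RW K I) (L : List I)
    (f : CW K I) : opr d g (Finsupp.single L f) = f • g L + app L (d f) := by
  unfold opr
  rw [Finsupp.lsum_single]
  rfl

theorem opr_rw1 (d : Derivation K (CW K I) (RW K I)) (g : List I → RW K I) (L : List I) :
    opr d g (rw1 K L) = g L := by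
  unfold rw1
  rw [opr_single, one_smul, Derivation.map_one_eq_zero, map_zero, add_zero]

theorem opr_smul (d : Derivation K (CW K I) (RW K I)) (g : List I → RW K I) (f : CW K I)
    (x : RW K I) : opr d g (f • x) = f • opr d g x + cat (d f) x := by
  induction x using Finsupp.induction_linear with
  | zero => simp
  | add p q hp hq =>
    rw [smul_add, map_add, hp, hq, map_add, map_add, smul_add]
    abel
  | single L h =>
    rw [Finsupp.smul_single, opr_single, opr_single, smul_eq_mul, Derivation.leibniz, map_add,
      map_smul, map_smul, cat_single, smul_add, smul_smul]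
    abel

theorem opr_ext {O O' : RW K I →ₗ[K] RW K I} (h : ∀ (f : CW K I) (L : List I),
    O (f • rw1 K L) = O' (f • rw1 K L)) (x : RW K I) : O x = O' x := by
  induction x using Finsupp.induction_linear with
  | zero => simp
  | add p q hp hq => rw [map_add, map_add, hp, hq]
  | single L f =>
    rw [single_eq]
    exact h f L

section
variable [DecidableEq I]

/-- one opening -/
def hop (w1 w2 : K) (t x : I) (Z : List I) : RW K I :=
  if x = t then (C w1 : CW K I) • rw1 K (Z ++ [t]) +
    (C w2 : CW K I) • rw1 K (Z.reverse ++ [t]) else 0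

theorem opn_eq (w1 w2 : K) (t : I) (L : List I) : opn w1 w2 t L =
    spl (fun X x Y => hop w1 w2 t x (Y ++ X)) L := rfl

theorem opn_rot (w1 w2 : K) (t : I) {L L' : List I} (h : L ~r L') :
    opn w1 w2 t L = opn w1 w2 t L' := by
  rw [opn_eq, opn_eq]
  exact spl_rot (hop w1 w2 t) h

theorem J_cy (w1 w2 : K) (t : I) (L : List I) : J w1 w2 t (cy K L) = opn w1 w2 t L := by
  unfold J cy
  rw [mkDerivation_X]
  exact opn_rot w1 w2 t (out_rot L)

theorem T_smul (b w1 w2 : K) (t : I) (f : CW K I) (x : RW K I) :
    T b w1 w2 t (f • x) = f • T b w1 w2 t x + cat (J w1 w2 t f) x := opr_smul _ _ _ _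

theorem T_rw1 (b w1 w2 : K) (t : I) (L : List I) : T b w1 w2 t (rw1 K L) = tch b t L :=
  opr_rw1 _ _ _

theorem hop_lin (c c' w1 w2 w1' w2' : K) (t x : I) (Z : List I) :
    hop (c * w1 + c' * w1') (c * w2 + c' * w2') t x Z =
      (C c : CW K I) • hop w1 w2 t x Z + (C c' : CW K I) • hop w1' w2' t x Z := by
  unfold hop
  by_cases hx : x = t
  · simp only [if_pos hx, C_add, C_mul]
    module
  · simp only [if_neg hx, smul_zero, add_zero]

theorem opn_lin (c c' w1 w2 w1' w2' : K) (t : I) (L : List I) :
    opn (c * w1 + c' * w1') (c * w2 + c' * w2') t L =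
      (C c : CW K I) • opn w1 w2 t L + (C c' : CW K I) • opn w1' w2' t L := by
  rw [opn_eq, opn_eq, opn_eq]
  have h1 := spl_hom (LinearMap.lsmul (CW K I) (RW K I) (C c)).toAddMonoidHom
    (fun X x Y => hop w1 w2 t x (Y ++ X)) L
  have h2 := spl_hom (LinearMap.lsmul (CW K I) (RW K I) (C c')).toAddMonoidHom
    (fun X x Y => hop w1' w2' t x (Y ++ X)) L
  simp only [LinearMap.toAddMonoidHom_coe, LinearMap.lsmul_apply] at h1 h2
  rw [h1, h2, ← spl_add]
  apply spl_congr
  intro X x Y
  exact hop_lin c c' w1 w2 w1' w2' t x (Y ++ X)

omit [DecidableEq I] in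
theorem C_smul (c : K) (x : RW K I) : (C c : CW K I) • x = c • x := by
  rw [← MvPolynomial.algebraMap_eq, algebraMap_smul]

theorem J_add (c c' w1 w2 w1' w2' : K) (t : I) (f : CW K I) :
    J (c * w1 + c' * w1') (c * w2 + c' * w2') t f = c • J w1 w2 t f + c' • J w1' w2' t f := by
  have h : (J (c * w1 + c' * w1') (c * w2 + c' * w2') t : Derivation K (CW K I) (RW K I)) =
      c • J w1 w2 t + c' • J w1' w2' t := by
    apply MvPolynomial.derivation_ext
    intro z
    rw [Derivation.add_apply, Derivation.smul_apply, Derivation.smul_apply]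
    unfold J
    rw [mkDerivation_X, mkDerivation_X, mkDerivation_X, opn_lin, C_smul, C_smul]
  rw [h, Derivation.add_apply, Derivation.smul_apply, Derivation.smul_apply]

end

theorem rul (K I : Type) [Field K] [DecidableEq I] : RulSt K I where
  J_cy := J_cy
  opr_single := opr_single
  opr_smul := opr_smul
  cat_single := cat_single
  cat_add := cat_add
  cat_smul := cat_smul
  J_add := J_add

section
variable [DecidableEq I] [Fintype I]

theorem Aw_apply (b w1 w2 : K) (u s : I → K) (x : RW K I) :
    Aw b w1 w2 u s x = ∑ t, s t • pre [t] (u t • x + T b w1 w2 t x) := by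
  unfold Aw
  rw [LinearMap.sum_apply]
  rfl

omit [DecidableEq I] in
theorem Dop_apply (s : I → K) (m : I → RW K I) (x : RW K I) :
    Dop s m x = ∑ t, (C (s t) : CW K I) • pre [t] (cat (m t) x) := by
  unfold Dop
  rw [LinearMap.sum_apply]
  rfl

theorem Aw_smul (b w1 w2 : K) (u s : I → K) (f : CW K I) (x : RW K I) :
    Aw b w1 w2 u s (f • x) = f • Aw b w1 w2 u s x + Dop s (fun t => J w1 w2 t f) x := by
  rw [Aw_apply, Aw_apply, Dop_apply, Finset.smul_sum, ← Finset.sum_add_distrib]
  refine Finset.sum_congr rfl fun t _ => ?_
  rw [T_smul, C_smul]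
  have h1 : u t • f • x + (f • T b w1 w2 t x + cat (J w1 w2 t f) x) =
      f • (u t • x + T b w1 w2 t x) + cat (J w1 w2 t f) x := by
    rw [smul_add, smul_comm (u t) f x, add_assoc]
  rw [h1, map_add, pre_smul, smul_add, smul_comm (s t) f]

end

theorem rulA (K I : Type) [Field K] [DecidableEq I] [Fintype I] : RulASt K I where
  Aw_smul := Aw_smul
  Aw_apply := Aw_apply
  Dop_apply := Dop_apply

end

end Pool.Agent.MJL
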