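import Pool.Agent.MJL.Fin2
import Pool.Agent.MJL.Rul
import Pool.Agent.MJF.AI
import Pool.Agent.MJF.TIIc

/-!
For two colours and the two values of the weight of the marks, unoriented openings of the
cycles give the same process as oriented ones.
-/

namespace Pool.Agent.MJL

open MvPolynomial Pool.Agent.MJR Pool.Agent.MJX
open Pool.Agent.MJF (ic iR zs arc bC spl dC dR hh H1 evR)

noncomputable section

namespace HalfM

variable {K : Type} [Field K]

/-- closed words on which all openings are invariant under reversal -/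
def ZC (K : Type) [Field K] : Submodule K (MJF.CW K) where
  carrier := {f | ∀ t, MJF.J 0 t f = 0}
  add_mem' := by
    intro f g hf hg t
    rw [map_add, hf t, hg t, add_zero]
  zero_mem' := by
    intro t
    rw [map_zero]
  smul_mem' := by
    intro c f hf t
    rw [Derivation.map_smul, hf t, smul_zero]

theorem ZC_mul {f g : MJF.CW K} (hf : f ∈ ZC K) (hg : g ∈ ZC K) : f * g ∈ ZC K := by
  intro t
  rw [Derivation.leibniz, hf t, hg t, smul_zero, smul_zero, add_zero]

theorem ZC_C (c : K) : (C c : MJF.CW K) ∈ ZC K := by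
  intro t
  exact derivation_C _ _

theorem ZC_one : (1 : MJF.CW K) ∈ ZC K := by
  rw [← C_1]
  exact ZC_C 1

theorem ZC_zs (k : ℕ) : MJF.cy K (zs k) ∈ ZC K := by
  intro t
  rw [MJF.J_cy]
  cases t with
  | true => exact MJF.opn2_zs 0 k
  | false =>
    unfold MJF.opn
    rw [MJF.spl_replicate]
    refine Finset.sum_eq_zero fun i hi => ?_
    rw [Finset.mem_range] at hi
    rw [if_pos rfl]
    have e : List.replicate (k - 1 - i) false ++ List.replicate i false =
        List.replicate (k - 1) false := by
      rw [← List.replicate_add]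
      congr 1
      omega
    rw [e, List.reverse_replicate, zero_sub, C_neg, C_1, neg_smul, one_smul, add_neg_cancel]

theorem ZC_arc (c : ℕ) : MJF.cy K (arc c) ∈ ZC K := by
  intro t
  rw [MJF.J_cy]
  cases t with
  | true =>
    rw [MJF.opn2_arc, C_0, zero_smul]
  | false =>
    unfold MJF.opn arc
    rw [MJF.spl_cons, if_neg (by simp), zero_add, MJF.spl_replicate]
    simp only [if_pos]
    rw [Finset.sum_add_distrib]
    have h1 : ∑ i ∈ Finset.range c, (C (0 - 1 : K) : MJF.CW K) •
        MJF.rw1 K ((List.replicate (c - 1 - i) false ++ true :: List.replicate i false).reverse ++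
          [false]) = -∑ i ∈ Finset.range c,
        MJF.rw1 K (List.replicate (c - 1 - i) false ++ true :: List.replicate i false ++
          [false]) := by
      rw [← Finset.sum_range_reflect, ← Finset.sum_neg_distrib]
      refine Finset.sum_congr rfl fun i hi => ?_
      rw [Finset.mem_range] at hi
      rw [zero_sub, C_neg, C_1, neg_smul, one_smul]
      congr 2
      have e : c - 1 - (c - 1 - i) = i := by omega
      rw [e]
      simp
    rw [h1, add_neg_cancel]

/-- the openings of the zeros of an inserted arc -/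
theorem H1_eq (a : ℕ) (f : MJF.CW K) : H1 0 a f = ∑ i ∈ Finset.range a,
    MJF.pre (zs (a - 1 - i) ++ [true]) (MJF.app (zs (i + 1)) (MJF.J 0 true f)) := by
  induction f using MJF.cw_induction with
  | hC x =>
    have h1 : H1 0 a (C x : MJF.CW K) = 0 := derivation_C _ _
    have h2 : MJF.J 0 true (C x : MJF.CW K) = 0 := derivation_C _ _
    rw [h1, h2]
    simp
  | hadd f g hf hg =>
    simp only [map_add, hf, hg, Finset.sum_add_distrib]
  | hX f L hf =>
    have hL : hh (0 : K) a L = ∑ i ∈ Finset.range a,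
        MJF.pre (zs (a - 1 - i) ++ [true]) (MJF.app (zs (i + 1)) (MJF.opn (0 : K) true L)) := by
      have h1 : ∀ i, MJF.pre (zs (a - 1 - i) ++ [true]) (MJF.app (zs (i + 1))
          (MJF.opn (K := K) 0 true L)) = spl (fun X x Y => if x = true then
          MJF.pre (zs (a - 1 - i) ++ [true]) (MJF.app (zs (i + 1)) (MJF.rw1 K (Y ++ X ++ [true]) +
            (C (0 - 1 : K) : MJF.CW K) • MJF.rw1 K ((Y ++ X).reverse ++ [true]))) else 0) L := by
        intro i
        have h := MJF.spl_ite_hom ((MJF.pre (zs (a - 1 - i) ++ [true]) ∘ₗ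
          MJF.app (zs (i + 1)) : MJF.RW K →ₗ[MJF.CW K] MJF.RW K).toAddMonoidHom) true
          (fun X Y => MJF.rw1 K (Y ++ X ++ [true]) +
            (C (0 - 1 : K) : MJF.CW K) • MJF.rw1 K ((Y ++ X).reverse ++ [true])) L
        exact h
      have h2 : ∑ i ∈ Finset.range a, spl (fun X x Y => if x = true then
          MJF.pre (zs (a - 1 - i) ++ [true]) (MJF.app (zs (i + 1)) (MJF.rw1 K (Y ++ X ++ [true]) +
            (C (0 - 1 : K) : MJF.CW K) • MJF.rw1 K ((Y ++ X).reverse ++ [true]))) else 0) L =
          spl (fun X x Y => ∑ i ∈ Finset.range a, if x = true then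
          MJF.pre (zs (a - 1 - i) ++ [true]) (MJF.app (zs (i + 1)) (MJF.rw1 K (Y ++ X ++ [true]) +
            (C (0 - 1 : K) : MJF.CW K) • MJF.rw1 K ((Y ++ X).reverse ++ [true]))) else 0) L := by
        generalize Finset.range a = S
        classical
        induction S using Finset.induction_on with
        | empty =>
          simp only [Finset.sum_empty]
          exact (MJF.spl_zero L).symm
        | insert i S hi ih =>
          simp only [Finset.sum_insert hi]
          rw [ih, ← MJF.spl_add]
      rw [Finset.sum_congr rfl fun i _ => h1 i, h2]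
      unfold hh
      apply MJF.spl_congr
      intro X x Y
      by_cases hx : x = true
      · simp only [if_pos hx]
        simp only [map_add, map_smul, MJF.app_rw1, MJF.pre_rw1, Finset.sum_add_distrib]
        refine congrArg₂ (· + ·) (Finset.sum_congr rfl fun i _ => ?_) ?_
        · congr 1
          unfold arc
          simp [zs, List.replicate_succ]
        · rw [← Finset.sum_range_reflect]
          refine Finset.sum_congr rfl fun i hi => ?_
          rw [Finset.mem_range] at hi
          congr 2
          have e : a - 1 - (a - 1 - i) = i := by omega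
          rw [e]
          simp
      · simp only [if_neg hx, Finset.sum_const_zero]
    rw [Derivation.leibniz, Derivation.leibniz, hf, MJF.H1_cy, hL, MJF.J_cy]
    simp only [map_add, map_smul, Finset.sum_add_distrib, Finset.smul_sum]

theorem ZC_dC (a : ℕ) {f : MJF.CW K} (hf : f ∈ ZC K) : dC K a f ∈ ZC K := by
  intro t
  cases t with
  | true => rw [MJF.J2_dC, hf true, map_zero, map_zero, add_zero]
  | false =>
    rw [MJF.J_dC, hf false, map_zero, zero_add, H1_eq, hf true]
    simp

/-- words with a root with coefficients in `ZC` -/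
def ZR (K : Type) [Field K] : Submodule K (MJF.RW K) where
  carrier := {x | ∀ L, x L ∈ ZC K}
  add_mem' := by
    intro x y hx hy L
    exact add_mem (hx L) (hy L)
  zero_mem' := by
    intro L
    exact zero_mem _
  smul_mem' := by
    intro c x hx L
    exact Submodule.smul_mem _ c (hx L)

theorem ZR_single (L : List Bool) {f : MJF.CW K} (hf : f ∈ ZC K) :
    (Finsupp.single L f : MJF.RW K) ∈ ZR K := by
  classical
  intro L'
  rw [Finsupp.single_apply]
  split_ifs
  · exact hf
  · exact zero_mem _

theorem ZR_rw1 (L : List Bool) : MJF.rw1 K L ∈ ZR K := ZR_single L ZC_one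

theorem ZR_smul {f : MJF.CW K} (hf : f ∈ ZC K) {x : MJF.RW K} (hx : x ∈ ZR K) :
    f • x ∈ ZR K := by
  intro L
  rw [Finsupp.smul_apply, smul_eq_mul]
  exact ZC_mul hf (hx L)

theorem ZR_spl {φ : List Bool → Bool → List Bool → MJF.RW K} (L : List Bool)
    (h : ∀ X x Y, φ X x Y ∈ ZR K) : spl φ L ∈ ZR K := by
  induction L generalizing φ with
  | nil => exact zero_mem _
  | cons l L ih => exact add_mem (h _ _ _) (ih fun X x Y => h _ _ _)

theorem ZR_dl (a : ℕ) (L : List Bool) : MJF.dl K a L ∈ ZR K := by
  unfold MJF.dl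
  refine ZR_spl L fun X x Y => ?_
  split_ifs
  · exact ZR_rw1 _
  · exact zero_mem _

/-- Induction for `ZR`. -/
theorem ZR_induction {P : MJF.RW K → Prop} (h0 : P 0) (ha : ∀ x y, P x → P y → P (x + y))
    (hs : ∀ L f, f ∈ ZC K → P (f • MJF.rw1 K L)) {x : MJF.RW K} (hx : x ∈ ZR K) : P x := by
  classical
  have h1 : ∀ S : Finset (List Bool), P (∑ L ∈ S, Finsupp.single L (x L)) := by
    intro S
    induction S using Finset.induction_on with
    | empty => exact h0
    | insert L S hL ih =>
      rw [Finset.sum_insert hL]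
      refine ha _ _ ?_ ih
      rw [MJF.single_eq]
      exact hs L _ (hx L)
  have h2 := h1 x.support
  have h3 : ∑ L ∈ x.support, Finsupp.single L (x L) = x := Finsupp.sum_single x
  rw [h3] at h2
  exact h2

theorem ZR_dR (a : ℕ) {x : MJF.RW K} (hx : x ∈ ZR K) : dR K a x ∈ ZR K := by
  refine ZR_induction (P := fun x => dR K a x ∈ ZR K) ?_ ?_ ?_ hx
  · rw [map_zero]
    exact zero_mem _
  · intro x y h1 h2
    rw [map_add]
    exact add_mem h1 h2
  · intro L f hf
    rw [MJF.dR_smul, MJF.dR_rw1]
    exact add_mem (ZR_smul hf (ZR_dl a L)) (ZR_smul (ZC_dC a hf) (ZR_rw1 L))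

theorem ZR_BR (tau : K) (i : ℕ ⊕ ℕ) {x : MJF.RW K} (hx : x ∈ ZR K) :
    MJF.BR tau i x ∈ ZR K := by
  rcases i with k | a
  · rw [MJF.BR_inl]
    exact ZR_smul (ZC_zs k) hx
  · rw [MJF.BR_inr, MJF.IR_apply]
    exact add_mem (ZR_smul (ZC_arc a) hx) (Submodule.smul_mem _ _ (ZR_dR a hx))

theorem ZR_evR (tau : K) (f : CM K) {x : MJF.RW K} (hx : x ∈ ZR K) : evR tau f x ∈ ZR K := by
  induction f using MvPolynomial.induction_on generalizing x with
  | C c =>
    rw [MJF.evR_C]
    exact Submodule.smul_mem _ _ hx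
  | add f g hf hg =>
    rw [map_add]
    exact add_mem (hf hx) (hg hx)
  | mul_X f i hf =>
    rw [MJF.evR_mul, MJF.evR_X]
    exact hf (ZR_BR tau i hx)

theorem ZR_iR {kap : K} (tau : K) (x : AM K kap) : iR tau x ∈ ZR K := by
  refine sg_induction (P := fun x => iR tau x ∈ ZR K) x ?_ ?_ ?_
  · rw [map_zero]
    exact zero_mem _
  · intro x y hx hy
    rw [map_add]
    exact add_mem hx hy
  · intro i f
    rw [MJF.iR_sg]
    refine ZR_evR tau f ?_
    rcases i with j | ⟨j, a⟩
    · exact ZR_rw1 _
    · exact ZR_rw1 _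

/-- The openings. -/
theorem J_half (al : K) [CharZero K] (t : Bool) {f : MJF.CW K} (hf : f ∈ ZC K) :
    J (al / 2) (al / 2) t f = MJF.J al t f := by
  have h := (rul K Bool).J_add 1 (-((2 - al) / 2)) 1 (al - 1) 1 (0 - 1) t f
  have e1 : (1 : K) * 1 + -((2 - al) / 2) * 1 = al / 2 := by
    field_simp
    ring
  have e2 : (1 : K) * (al - 1) + -((2 - al) / 2) * (0 - 1) = al / 2 := by
    field_simp
    ring
  rw [e1, e2, one_smul, Fin2M.J_eq, Fin2M.J_eq] at h
  refine Eq.trans h ?_
  have h0 : MJF.J 0 t f = 0 := hf t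
  rw [h0, smul_zero, add_zero]

theorem T_half (al : K) [CharZero K] (t : Bool) {x : MJF.RW K} (hx : x ∈ ZR K) :
    T (al - 1) (al / 2) (al / 2) t x = MJF.T al t x := by
  refine ZR_induction (P := fun x => T (al - 1) (al / 2) (al / 2) t x = MJF.T al t x)
    ?_ ?_ ?_ hx
  · rw [map_zero, map_zero]
  · intro x y h1 h2
    rw [map_add, map_add, h1, h2]
  · intro L f hf
    rw [← MJF.single_eq]
    have h1 := (rul K Bool).opr_single (J (al / 2) (al / 2) t) (tch (al - 1) t) L f
    have h2 := MJF.opr_single (MJF.J al t) (MJF.tch al t) L f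
    refine Eq.trans h1 (Eq.trans ?_ h2.symm)
    rw [J_half al t hf]
    rfl

theorem Aw_half (al u u2 s : K) [CharZero K] {x : MJF.RW K} (hx : x ∈ ZR K) :
    Aw (al - 1) (al / 2) (al / 2) (uB u u2) (uB 1 s) x = MJF.Aw al u u2 s x := by
  rw [← Fin2M.Aw_eq, (rulA K Bool).Aw_apply, (rulA K Bool).Aw_apply]
  refine Finset.sum_congr rfl fun t _ => ?_
  rw [T_half al t hx, Fin2M.T_eq]

end HalfM

open HalfM in
/-- Unoriented openings give the same process. -/
theorem half (K : Type) [Field K] [CharZero K] : HalfSt K := by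
  intro al tau u2 kap u s h0 h1 h2 h3 ht hq Kc hone hK p
  induction p with
  | nil => intro _; rfl
  | cons k p ih =>
    intro hp
    have hp' : ∀ l ∈ p, l ≠ 0 := fun l hl => hp l (List.mem_cons_of_mem k hl)
    have e1 := ih hp'
    have e2 := MJF.Kw_eq (MJF.aI K) (MJF.aP K) h1 h2 h3 ht hq u s Kc hone hK p hp'
    have h4 : ∀ (n : ℕ) (x : AM K kap),
        (Aw (al - 1) (al / 2) (al / 2) (uB u u2) (uB 1 s) ^ n) (iR tau x) =
        iR tau ((Aop al kap u (s * u2) ^ n) x) := by
      intro n x
      induction n with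
      | zero => rfl
      | succ n ihn =>
        rw [pow_succ', pow_succ', Module.End.mul_apply, Module.End.mul_apply, ihn,
          MJF.iR_A (MJF.aI K) (MJF.aP K) h1 h2 h3 ht hq]
        exact Aw_half al u u2 s (ZR_iR tau _)
    have h5 : ∀ (n : ℕ) (x : AM K kap), (MJF.Aw al u u2 s ^ n) (iR tau x) =
        iR tau ((Aop al kap u (s * u2) ^ n) x) := by
      intro n x
      induction n with
      | zero => rfl
      | succ n ihn =>
        rw [pow_succ', pow_succ', Module.End.mul_apply, Module.End.mul_apply, ihn,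
          MJF.iR_A (MJF.aI K) (MJF.aP K) h1 h2 h3 ht hq]
    change clw K ((Aw (al - 1) (al / 2) (al / 2) (uB u u2) (uB 1 s) ^ k)
      (iw K (Kw (al - 1) (al / 2) (al / 2) (uB u u2) (uB 1 s) p))) =
      MJF.clw K ((MJF.Aw al u u2 s ^ k) (MJF.iw K (MJF.Kw al u u2 s p)))
    rw [e1, e2]
    have e3 := MJF.iR_iA (kap := kap) tau (Kc (p.map fun k => (X k : Lam K)).prod)
    have e4 := h4 k (iA kap (Kc (p.map fun k => (X k : Lam K)).prod))
    have e5 := h5 k (iA kap (Kc (p.map fun k => (X k : Lam K)).prod))
    rw [e3] at e4 e5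
    rw [e5]
    exact congrArg (clw K) e4

end

end Pool.Agent.MJL
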