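import Pool.Agent.MJL.St2
import Pool.Agent.MJF.LogJ

/-!
The marginals of the coefficients `h`.
-/

namespace Pool.Agent.MJL

open MvPolynomial Pool.Agent.MJR Pool.Agent.MJX
open Pool.Agent.MJF (ic spl)

noncomputable section

namespace Fin2M

variable {K : Type} [Field K]

/-! ### The two definitions of the words agree -/

theorem opn_eq (al : K) (t : Bool) (L : List Bool) : opn 1 (al - 1) t L = MJF.opn al t L := by
  unfold opn MJF.opn
  simp only [map_one, one_smul]
  rfl

theorem J_eq (al : K) (t : Bool) : J 1 (al - 1) t = MJF.J al t := by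
  unfold J MJF.J
  congr 1
  funext z
  exact opn_eq al t _

theorem T_eq (al : K) (t : Bool) : T (al - 1) 1 (al - 1) t = MJF.T al t := by
  unfold T MJF.T
  rw [J_eq]
  rfl

theorem Aw_eq (al u u2 s : K) :
    Aw (al - 1) 1 (al - 1) (uB u u2) (uB 1 s) = MJF.Aw al u u2 s := by
  unfold Aw MJF.Aw
  rw [Fintype.sum_bool, T_eq, T_eq, add_comm]
  congr 1
  exact one_smul K _

/-! ### The process -/

theorem iR_pow {al tau u2 kap u s : K} {Kc : Lam K →ₗ[K] CM K} (h : IsK al tau u2 kap u s Kc)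
    (n : ℕ) (y : AM K kap) : MJF.iR tau ((Aop al kap u (s * u2) ^ n) y) =
      (MJF.Aw al u u2 s ^ n) (MJF.iR tau y) := by
  induction n with
  | zero => rfl
  | succ n ihn => rw [pow_succ', pow_succ', Module.End.mul_apply, Module.End.mul_apply, ← ihn,
      MJF.iR_A (MJF.aI K) (MJF.aP K) h.h1 h.h2 h.h3 h.ht h.hq]

theorem clw_pow {al tau u2 kap u s : K} {Kc : Lam K →ₗ[K] CM K} (h : IsK al tau u2 kap u s Kc)
    {k : ℕ} (hk : k ≠ 0) (f : Lam K) :
    MJF.clw K ((MJF.Aw al u u2 s ^ k) (MJF.iw K (ic tau (Kc f)))) = ic tau (Kc (X k * f)) := by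
  rw [← MJF.iR_iA (kap := kap), ← iR_pow h, h.hK k f hk]
  obtain ⟨n, rfl⟩ := Nat.exists_eq_succ_of_ne_zero hk
  rw [Nat.succ_eq_add_one, pow_succ', Module.End.mul_apply, MJF.clw_iR_A]

/-- The recursion for the generating function of the power sums. -/
theorem Gx_rec [CharZero K] (hS : SSmSt K) (hX : SSXSt K) {al : K} (hal : al ≠ 0) (x : ℕ → K)
    (n : ℕ) : (al * (n : K)) • Gx al x n =
      ∑ k ∈ Finset.Icc 1 n, x k • (X k * Gx al x (n - k)) := by
  rcases Nat.eq_zero_or_pos n with rfl | hn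
  · rw [Nat.cast_zero, mul_zero, zero_smul, Finset.Icc_eq_empty (by omega), Finset.sum_empty]
  have hne : al * (n : K) ≠ 0 := mul_ne_zero hal (by exact_mod_cast hn.ne')
  have h1 : ∀ m, SS al x m (fun p => ((p.map fun k => (X k : Lam K)).prod : Lam K)) =
      Gx al x m := fun m => hX al hal x m
  rw [← h1, hS.succ al x n _ hn.ne', smul_smul, mul_inv_cancel₀ hne, one_smul]
  refine Finset.sum_congr rfl fun k _ => ?_
  congr 1
  rw [← h1]
  have h2 := hS.map al x x (LinearMap.mulLeft K (X k : Lam K))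
    (fun j v => LinearMap.map_smul _ _ _) (n - k)
    (fun p => ((p.map fun k => (X k : Lam K)).prod : Lam K))
  rw [LinearMap.mulLeft_apply] at h2
  rw [h2]
  rfl

theorem parts_zero (r : Nat.Partition 0) : r.parts = 0 := by
  rw [Multiset.eq_zero_iff_forall_notMem]
  intro a ha
  have h := r.parts_sum
  have h1 := r.parts_pos ha
  have h2 := Multiset.le_sum_of_mem ha
  omega

theorem Gx_zero (al : K) (x : ℕ → K) : Gx al x 0 = 1 := by
  unfold Gx
  rw [Fintype.sum_unique]
  have h0 : (default : Nat.Partition 0).parts = 0 := parts_zero _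
  have h1 : wtp al (default : Nat.Partition 0) = 1 := by
    unfold wtp zed
    rw [h0]
    simp
  unfold pp
  rw [h0, h1]
  simp

/-! ### Cones -/

theorem smul_PM {I : Type} {P : Subsemiring K} {c : K} (hc : c ∈ P) {y : RW K I}
    (hy : y ∈ PM P I) : c • y ∈ PM P I := by
  intro L m
  rw [Finsupp.smul_apply, coeff_smul, smul_eq_mul]
  exact mul_mem hc (hy L m)

theorem mul_PC {I : Type} {P : Subsemiring K} {f g : CW K I} (hf : f ∈ PC P I)
    (hg : g ∈ PC P I) : f * g ∈ PC P I := by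
  classical
  intro m
  rw [coeff_mul]
  exact sum_mem fun x _ => mul_mem (hf _) (hg _)

theorem cy_PC {I : Type} (P : Subsemiring K) (L : List I) : cy K L ∈ PC P I := by
  classical
  intro m
  unfold cy
  rw [coeff_X]
  split_ifs
  · exact one_mem _
  · exact zero_mem _

theorem clw_PM {I : Type} {P : Subsemiring K} {y : RW K I} (hy : y ∈ PM P I) :
    clw K y ∈ PC P I := by
  unfold clw
  rw [Finsupp.linearCombination_apply, Finsupp.sum]
  exact sum_mem fun L _ => mul_PC (hy L) (cy_PC P L)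

theorem C_smul_RW {I : Type} (c : K) (y : RW K I) : (C c : CW K I) • y = c • y := by
  rw [← algebraMap_eq, algebraMap_smul]

/-! ### Openings -/

theorem Dop_J (hE : EdSt K Bool) (w1 w2 : K)
    (s : Bool → K) (f : CW K Bool) (y : RW K Bool) :
    Dop s (fun t => J w1 w2 t f) y =
      Dop s (fun t => ed K t (J w1 w2 false f + J w1 w2 true f)) y := by
  congr 2
  funext t
  rw [map_add, hE.J, hE.J]
  cases t <;> simp

theorem Dop_add (hR : RulSt K Bool) (hA : RulASt K Bool) (s : Bool → K) (m m' y : RW K Bool) :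
    Dop s (fun t => ed K t (m + m')) y =
      Dop s (fun t => ed K t m) y + Dop s (fun t => ed K t m') y := by
  rw [hA.Dop_apply, hA.Dop_apply, hA.Dop_apply, ← Finset.sum_add_distrib]
  refine Finset.sum_congr rfl fun t _ => ?_
  rw [map_add, hR.cat_add, map_add, smul_add]

theorem Dop_smul (hR : RulSt K Bool) (hA : RulASt K Bool) (s : Bool → K) (f : CW K Bool)
    (m y : RW K Bool) :
    Dop s (fun t => ed K t (f • m)) y = f • Dop s (fun t => ed K t m) y := by
  rw [hA.Dop_apply, hA.Dop_apply, Finset.smul_sum]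
  refine Finset.sum_congr rfl fun t _ => ?_
  rw [map_smul, hR.cat_smul, map_smul, smul_comm]

/-- Closing the opened series. -/
theorem clw_op [CharZero K] (hS : SSmSt K) (hX : SSXSt K) (hL : LgSt K)
    {al tau u2 kap u s : K} {Kc : Lam K →ₗ[K] CM K} (h : IsK al tau u2 kap u s Kc) (x : ℕ → K)
    (n : ℕ) : ∑ p ∈ Finset.HasAntidiagonal.antidiagonal n,
      PowerSeries.coeff p.1 (lg al (PowerSeries.mk fun m => (ic tau (Kc (Gx al x m)) :
        CW K Bool))) * (ic tau (Kc (Gx al x p.2)) : CW K Bool) =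
      clw K (J 1 (al - 1) false (ic tau (Kc (Gx al x n))) +
        J 1 (al - 1) true (ic tau (Kc (Gx al x n)))) := by
  have h0 : PowerSeries.constantCoeff (PowerSeries.mk fun m => (ic tau (Kc (Gx al x m)) :
        CW K Bool)) = 1 := by
    rw [← PowerSeries.coeff_zero_eq_constantCoeff_apply, PowerSeries.coeff_mk, Gx_zero, h.one,
      MJF.ic_one]
  have h1 := MJF.logJ h.h0 h.h1 h.h2 h.h3 h.ht h.hq u s Kc h.one h.hK h.hZ x (Gx al x)
    (Gx_zero al x) (Gx_rec hS hX h.h0 x) n
  have h3 := hL.mul al (PowerSeries.mk fun m => (ic tau (Kc (Gx al x m)) : CW K Bool)) h0 n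
  rw [PowerSeries.coeff_mul, PowerSeries.coeff_mk] at h3
  have h4 : ∑ p ∈ Finset.HasAntidiagonal.antidiagonal n,
      PowerSeries.coeff p.1 (lg al (PowerSeries.mk fun m => (ic tau (Kc (Gx al x m)) :
        CW K Bool))) * (ic tau (Kc (Gx al x p.2)) : CW K Bool) =
      (al * (n : K)) • (ic tau (Kc (Gx al x n)) : CW K Bool) := by
    rw [← h3]
    refine Finset.sum_congr rfl fun p _ => ?_
    rw [PowerSeries.coeff_mk]
  rw [h4, J_eq, J_eq]
  have h5 : (MJF.J al false (ic tau (Kc (Gx al x n))) + MJF.J al true (ic tau (Kc (Gx al x n))) :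
      RW K Bool) = _ := h1
  rw [h5]
  have h6 := congrArg (fun f => ic tau (Kc f)) (Gx_rec hS hX h.h0 x n)
  simp only [map_smul, map_sum] at h6
  refine Eq.trans h6 ?_
  rw [map_sum]
  refine Finset.sum_congr rfl fun k hk => ?_
  rw [Finset.mem_Icc] at hk
  rw [← clw_pow h (by omega) (Gx al x (n - k))]
  exact (LinearMap.map_smul_of_tower (clw K) _ _).symm

end Fin2M

theorem logJSt (K : Type) [Field K] [CharZero K] : LogJSt K := by
  intro al tau u2 kap u s Kc h x G h0 hG n
  exact MJF.logJ h.h0 h.h1 h.h2 h.h3 h.ht h.hq u s Kc h.one h.hK h.hZ x G h0 hG n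

open Fin2M in
/-- The marginals of the coefficients `h`. -/
theorem fin2 (hT : TruSt) (hR : RulSt QA Bool) (hA : RulASt QA Bool) (hC : ConeSt QA Bool)
    (hE : EdSt QA Bool) (hP : PPSt QA) (hS : SSmSt QA) (hX : SSXSt QA) (hL : LgSt QA)
    (hH : HomSt QA) (hM : ExtMSt QA) : MargSt := by
  intro Jf hJ psi hpsi u2 hu2 P hb hu n t m e
  -- the series of the closed words
  have hKc : ∀ v : ℕ ⊕ Bool → QA, ∃ Z : (QA × QA) × (Lam QA →ₗ[QA] CM QA),
      IsK RatFunc.X Z.1.1 u2 Z.1.2 (v (Sum.inr false)) (v (Sum.inr true)) Z.2 ∧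
      ∀ (x : ℕ → QA) (n : ℕ), sp x (fun k => v (Sum.inr false) + u2 * v (Sum.inr true) ^ k)
        (PowerSeries.coeff n (phi RatFunc.X Jf)) =
          MJF.fgt QA (ic Z.1.1 (Z.2 (Gx RatFunc.X x n))) := by
    intro v
    obtain ⟨tau, kap, Kc, h1, h2⟩ := hT Jf hJ u2 (v (Sum.inr false)) (v (Sum.inr true)) hu2
    exact ⟨((tau, kap), Kc), h1, h2⟩
  choose Z hK hF using hKc
  have hX0 : (RatFunc.X : QA) ≠ 0 := RatFunc.X_ne_zero
  let ph : (ℕ ⊕ Bool → QA) → ℕ → CW QA Bool := fun v n =>
    ic (Z v).1.1 ((Z v).2 (Gx RatFunc.X (fun k => v (Sum.inl k)) n))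
  let ser : (ℕ ⊕ Bool → QA) → PowerSeries (CW QA Bool) := fun v => PowerSeries.mk (ph v)
  have hph0 : ∀ v, ph v 0 = 1 := by
    intro v
    change ic (Z v).1.1 ((Z v).2 (Gx RatFunc.X (fun k => v (Sum.inl k)) 0)) = 1
    rw [Gx_zero, (hK v).one, MJF.ic_one]
  have hser0 : ∀ v, PowerSeries.constantCoeff (ser v) = 1 := by
    intro v
    rw [← PowerSeries.coeff_zero_eq_constantCoeff_apply, PowerSeries.coeff_mk]
    exact hph0 v
  let A : (ℕ ⊕ Bool → QA) → RW QA Bool → RW QA Bool := fun v =>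
    Aw (RatFunc.X - 1) 1 (RatFunc.X - 1) (uB (v (Sum.inr false)) u2) (uB 1 (v (Sum.inr true)))
  have hpow : ∀ v k y, (A v)^[k] y =
      (MJF.Aw RatFunc.X (v (Sum.inr false)) u2 (v (Sum.inr true)) ^ k) y := by
    intro v k y
    rw [Module.End.pow_apply, ← Aw_eq]
  -- positivity of the logarithm
  have hzP : (RatFunc.X - 1 : QA) ∈ P := hb
  have hmain : ∀ n, (fun v => PowerSeries.coeff n (lg (RatFunc.X : QA) (ser v))) ∈
      PP QA (ℕ ⊕ Bool) (PC P Bool) := by
    refine Alg.pos_int (Q := ℕ ⊕ Bool → QA) (C := CW QA Bool) (M := RW QA Bool) A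
      (fun v f => Dop (uB 1 (v (Sum.inr true))) (fun t => J 1 (RatFunc.X - 1) t f)) (clw QA)
      (iw QA 1) (fun v k => C (v (Sum.inl k))) ph
      (fun v n => PowerSeries.coeff n (lg (RatFunc.X : QA) (ser v)))
      (fun f => J 1 (RatFunc.X - 1) false f + J 1 (RatFunc.X - 1) true f)
      (fun v m y => Dop (uB 1 (v (Sum.inr true))) (fun t => ed QA t m) y)
      (fun v x y => map_add _ x y) (fun v f x => hA.Aw_smul _ _ _ _ _ f x)
      (fun v f x => Dop_J hE _ _ _ f x) (fun v m m' x => Dop_add hR hA _ m m' x)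
      (fun v f m x => Dop_smul hR hA _ f m x) hph0 ?_ ?_ (PP QA (ℕ ⊕ Bool) (PC P Bool))
      (PP QA (ℕ ⊕ Bool) (PM P Bool)) (hC.one _ P) ?_ ?_ ?_ ?_
    · intro v n
      have h1 := logJSt QA RatFunc.X _ _ _ _ _ _ (hK v) (fun k => v (Sum.inl k))
        (Gx RatFunc.X (fun k => v (Sum.inl k))) (Gx_zero _ _)
        (fun n => Gx_rec hS hX hX0 (fun k => v (Sum.inl k)) n) n
      change J 1 (RatFunc.X - 1) false (ph v n) + J 1 (RatFunc.X - 1) true (ph v n) = _
      rw [J_eq, J_eq]
      refine h1.trans (Finset.sum_congr rfl fun k _ => ?_)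
      rw [C_smul_RW, hpow]
      congr 2
      change _ = ph v (n - k) • Finsupp.single [] 1
      rw [Finsupp.smul_single, smul_eq_mul, mul_one]
      rfl
    · intro v n
      exact clw_op hS hX hL (hK v) (fun k => v (Sum.inl k)) n
    · intro F hF
      refine hC.Aw _ P (RatFunc.X - 1) 1 (RatFunc.X - 1) hzP (one_mem P) hzP
        (fun v => uB (v (Sum.inr false)) u2) (fun v => uB 1 (v (Sum.inr true))) ?_ ?_ F hF
      · intro t
        cases t
        · exact hP.var _ P (Sum.inr false)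
        · exact hP.const _ P.toAddSubmonoid u2 hu
      · intro t
        cases t
        · exact hP.const _ P.toAddSubmonoid 1 (one_mem P)
        · exact hP.var _ P (Sum.inr true)
    · intro F hF k
      have h1 := hP.smul _ P (PM P Bool) (fun c hc q hq => smul_PM hc hq) _
        (hP.var _ P (Sum.inl k)) F hF
      have h2 : (fun v : ℕ ⊕ Bool → QA => (C (v (Sum.inl k)) : CW QA Bool) • F v) =
          fun v => v (Sum.inl k) • F v := by
        funext v
        exact C_smul_RW _ _
      rw [h2]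
      exact h1
    · intro F hF
      exact hP.lin _ (PM P Bool) (PC P Bool) ((clw QA : RW QA Bool →ₗ[CW QA Bool] CW QA Bool).restrictScalars QA)
        (fun p hp => clw_PM hp) F hF
    · intro F hF H hH'
      refine hE.Dop _ P (fun v => uB 1 (v (Sum.inr true))) ?_ F hF H hH'
      intro t
      cases t
      · exact hP.const _ P.toAddSubmonoid 1 (one_mem P)
      · exact hP.var _ P (Sum.inr true)
  -- the series of the problem
  have hphi0 : PowerSeries.constantCoeff (phi (RatFunc.X : QA) Jf) = 1 := by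
    have h1 := hH.phi (RatFunc.X : QA) Jf 0
    have h2 : PowerSeries.coeff 0 (phi (RatFunc.X : QA) Jf) ∈
        Submodule.span QA ({1} : Set (B3 QA)) := by
      refine Submodule.span_mono ?_ h1
      rintro _ ⟨a, rfl⟩
      have h3 : ∀ (i : Fin 3) (r : Nat.Partition 0), (pa i r : B3 QA) = 1 := by
        intro i r
        unfold pa
        rw [parts_zero r, Multiset.map_zero, Multiset.prod_zero]
      change pa 0 a.1 * pa 1 a.2.1 * pa 2 a.2.2 = (1 : B3 QA)
      rw [h3, h3, h3, one_mul, one_mul]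
    rw [Submodule.mem_span_singleton] at h2
    obtain ⟨c, hc⟩ := h2
    have h4 := hF 0 (fun _ => 0) 0
    rw [← hc, map_smul, map_one, Gx_zero, (hK 0).one, MJF.ic_one, map_one, smul_eq_C_mul,
      mul_one, ← C_1] at h4
    have h5 : c = 1 := C_injective ℕ QA h4
    rw [← PowerSeries.coeff_zero_eq_constantCoeff_apply, ← hc, h5, one_smul]
  have hpsi' : psi = lg RatFunc.X (phi RatFunc.X Jf) := hL.psi RatFunc.X Jf psi hphi0 hpsi
  have hH3 : PowerSeries.coeff n psi ∈ H3 QA n := by
    rw [hpsi']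
    exact hH.log RatFunc.X _ hphi0 (fun n => hH.phi RatFunc.X Jf n) n
  have hval : ∀ v : ℕ ⊕ Bool → QA,
      fgt QA Bool (PowerSeries.coeff n (lg (RatFunc.X : QA) (ser v))) =
      sp (fun k => v (Sum.inl k)) (fun k => v (Sum.inr false) + u2 * v (Sum.inr true) ^ k)
        (PowerSeries.coeff n psi) := by
    intro v
    have h1 := hL.map (RatFunc.X : QA) (fgt QA Bool) (ser v) (hser0 v)
    have h2 := hL.map (RatFunc.X : QA) (sp (fun k => v (Sum.inl k))
      (fun k => v (Sum.inr false) + u2 * v (Sum.inr true) ^ k)) (phi RatFunc.X Jf) hphi0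
    have h3 : PowerSeries.map (fgt QA Bool).toRingHom (ser v) =
        PowerSeries.map (sp (fun k => v (Sum.inl k))
          (fun k => v (Sum.inr false) + u2 * v (Sum.inr true) ^ k)).toRingHom
          (phi (RatFunc.X : QA) Jf) := by
      ext1 m
      rw [PowerSeries.coeff_map, PowerSeries.coeff_map, PowerSeries.coeff_mk]
      exact (hF v (fun k => v (Sum.inl k)) m).symm
    rw [h3, ← h2, ← hpsi'] at h1
    have h4 := congrArg (PowerSeries.coeff n) h1
    rw [PowerSeries.coeff_map, PowerSeries.coeff_map] at h4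
    exact h4
  have hco := hC.coeff _ P (expo m) _ (hC.fgt _ P _ (hmain n))
  have hfin : (fun v : ℕ ⊕ Bool → QA => coeff (expo m)
      (fgt QA Bool (PowerSeries.coeff n (lg (RatFunc.X : QA) (ser v))))) =
      fun v : ℕ ⊕ Bool → QA => ∑ r : n.Partition, ∑ r' : n.Partition, hc psi r m r' *
        ((r.parts.map fun k => v (Sum.inl k)).prod *
          (r'.parts.map fun k => v (Sum.inr false) + u2 * v (Sum.inr true) ^ k).prod) := by
    funext v
    rw [hval, hH.spe _ _ n _ hH3 m]
    rfl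
  rw [hfin] at hco
  exact hM P u2 n (fun r r' => hc psi r m r') t hco e

end

end Pool.Agent.MJL
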