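import Pool.Agent.MJL.Rul
import Pool.Agent.MJF.Lab

/-!
The labelled process for any set of colours: linear maps, good states, the expansion.
-/

namespace Pool.Agent.MJL

open MvPolynomial Pool.Agent.MJR
open Pool.Agent.MJF (spl Stt inc cls spl_nil spl_cons spl_congr spl_congr' spl_append spl_add
  spl_zero spl_hom spl_rot)
open Pool.Agent.MJF.Lbx (Inv inc_length Inv_stay Inv_touch spl_map inc_getD cls_congr)

noncomputable section

variable {K : Type} [Field K]

/-! ### Linear maps -/

section lin
variable {V W : Type} [AddCommGroup V] [Module K V] [AddCommGroup W] [Module K W]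

theorem spl_lin {α : Type} (f : V →ₗ[K] W) (φ : List α → α → List α → V) (L : List α) :
    f (spl φ L) = spl (fun X x Y => f (φ X x Y)) L := spl_hom f.toAddMonoidHom φ L

theorem stp_map (f : V →ₗ[K] W) (b w1 w2 : K) (φ : Stt → V) (S : Stt) :
    f (stp b w1 w2 φ S) = stp b w1 w2 (fun S => f (φ S)) S := by
  unfold stp
  simp only [map_add, spl_lin, map_smul]

theorem iter_map (f : V →ₗ[K] W) (b w1 w2 : K) (k : ℕ) (φ : Stt → V) (S : Stt) :
    f ((stp b w1 w2)^[k] φ S) = (stp b w1 w2)^[k] (fun S => f (φ S)) S := by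
  induction k generalizing φ with
  | zero => rfl
  | succ k ih =>
    rw [Function.iterate_succ_apply, ih, Function.iterate_succ_apply]
    have h : (fun S => f (stp b w1 w2 φ S)) = stp b w1 w2 (fun S => f (φ S)) := by
      funext S
      exact stp_map f b w1 w2 φ S
    rw [h]

theorem Ep_map (f : V →ₗ[K] W) (b w1 w2 : K) (p : List ℕ) (φ : Stt → V) :
    f (Ep b w1 w2 p φ) = Ep b w1 w2 p (fun S => f (φ S)) := by
  induction p generalizing φ with
  | nil => rfl
  | cons k p ih =>
    change f (Ep b w1 w2 p ((stp b w1 w2)^[k] (cls φ))) =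
      Ep b w1 w2 p ((stp b w1 w2)^[k] (cls fun S => f (φ S)))
    rw [ih]
    congr 1
    funext S
    rw [iter_map]
    rfl

end lin

/-! ### Only the good states matter -/

section congr
variable {V : Type} [AddCommGroup V] [Module K V]

theorem stp_congr {b w1 w2 : K} {φ ψ : Stt → V} {t : ℕ} (h : ∀ S, Inv (t + 1) S → φ S = ψ S)
    {S : Stt} (hS : Inv t S) : stp b w1 w2 φ S = stp b w1 w2 ψ S := by
  obtain ⟨s, W, Cs⟩ := S
  have hS' := hS
  obtain ⟨h1, h2, h3, h4⟩ := hS
  unfold stp
  simp only at h1 h2 h3 h4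
  refine congrArg₂ (· + ·) (congrArg₂ (· + ·) (h _ (Inv_stay hS')) ?_) ?_
  · apply spl_congr'
    intro X l Y hW
    have hW' : (s, W, Cs).2.1 = W := rfl
    rw [hW'] at hW
    have hl : l < s.length := h1 l (by rw [hW]; simp)
    have hX : ∀ x ∈ X, x < s.length := fun x hx => h1 x (by rw [hW]; simp [hx])
    have hY : ∀ x ∈ Y, x < s.length := fun x hx => h1 x (by rw [hW]; simp [hx])
    rw [h _ (Inv_touch hl h3 h4 hY ?_), h _ (Inv_touch hl h3 h4 ?_ h2)]
    · intro x hx
      simp only [List.mem_append, List.mem_reverse, List.mem_cons] at hx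
      rcases hx with hx | rfl | hx
      · exact hX x hx
      · exact hl
      · exact hY x hx
    · intro z hz x hx
      rcases List.mem_cons.1 hz with rfl | hz
      · simp only [List.mem_append, List.mem_singleton] at hx
        rcases hx with hx | rfl
        · exact hX x hx
        · exact hl
      · exact h2 z hz x hx
  · apply spl_congr'
    intro A z B hC
    have hC' : (s, W, Cs).2.2 = Cs := rfl
    rw [hC'] at hC
    have hz : ∀ x ∈ z, x < s.length := h2 z (by rw [hC]; simp)
    have hAB : ∀ z' ∈ A ++ B, ∀ x ∈ z', x < s.length := by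
      intro z' hz'
      apply h2 z'
      rw [hC]
      simp only [List.mem_append, List.mem_cons] at hz' ⊢
      tauto
    apply spl_congr'
    intro X l Y hz2
    have hl : l < s.length := hz l (by rw [hz2]; simp)
    have hX : ∀ x ∈ X, x < s.length := fun x hx => hz x (by rw [hz2]; simp [hx])
    have hY : ∀ x ∈ Y, x < s.length := fun x hx => hz x (by rw [hz2]; simp [hx])
    rw [h _ (Inv_touch hl h3 h4 ?_ hAB), h _ (Inv_touch hl h3 h4 ?_ hAB)]
    · intro x hx
      simp only [List.mem_append, List.mem_reverse, List.mem_cons] at hx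
      rcases hx with (hx | hx) | rfl | hx
      · exact hY x hx
      · exact hX x hx
      · exact hl
      · exact h1 x hx
    · intro x hx
      simp only [List.mem_append, List.mem_cons] at hx
      rcases hx with (hx | hx) | rfl | hx
      · exact hY x hx
      · exact hX x hx
      · exact hl
      · exact h1 x hx

theorem iter_congr {b w1 w2 : K} (k : ℕ) {φ ψ : Stt → V} {t : ℕ}
    (h : ∀ S, Inv (t + k) S → φ S = ψ S) {S : Stt} (hS : Inv t S) :
    (stp b w1 w2)^[k] φ S = (stp b w1 w2)^[k] ψ S := by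
  induction k generalizing φ ψ with
  | zero => exact h S hS
  | succ k ih =>
    rw [Function.iterate_succ_apply, Function.iterate_succ_apply]
    exact ih fun S hS => stp_congr h hS

/-- The value depends only on the values of `φ` at the good states: labels smaller than the
number of parts, positive parts with sum `p.sum`. -/
theorem Ep_congr {b w1 w2 : K} (p : List ℕ) {φ ψ : Stt → V}
    (h : ∀ S, Inv p.sum S → φ S = ψ S) : Ep b w1 w2 p φ = Ep b w1 w2 p ψ := by
  induction p generalizing φ ψ with
  | nil =>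
    apply h
    refine ⟨?_, ?_, rfl, ?_⟩ <;> simp
  | cons k p ih =>
    change Ep b w1 w2 p ((stp b w1 w2)^[k] (cls φ)) = Ep b w1 w2 p ((stp b w1 w2)^[k] (cls ψ))
    apply ih
    intro S hS
    apply iter_congr k _ hS
    intro S hS
    apply cls_congr _ hS
    intro S hS
    apply h
    rw [List.sum_cons, add_comm]
    exact hS

theorem Ep_zero (b w1 w2 : K) (p : List ℕ) : Ep b w1 w2 p (fun _ => (0 : V)) = 0 := by
  have h := Ep_map (0 : V →ₗ[K] V) b w1 w2 p (fun _ => (0 : V))
  simp only [LinearMap.zero_apply] at h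
  exact h.symm

end congr

/-! ### Colourings of the labels -/

variable {I : Type} [Fintype I]

namespace Lab

/-- The sum over the colourings of the labels `< N`. -/
def sumI {V : Type} [AddCommMonoid V] (d : I) : ℕ → ((ℕ → I) → V) → V
  | 0, F => F fun _ => d
  | N + 1, F => sumI d N fun γ => ∑ t, F (Function.update γ N t)

section sumI
variable {V W : Type} [AddCommMonoid V] [AddCommMonoid W] (d : I)

theorem sumI_succ (N : ℕ) (F : (ℕ → I) → V) : sumI d (N + 1) F =
    sumI d N fun γ => ∑ t, F (Function.update γ N t) := rfl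

theorem sumI_add (N : ℕ) (F G : (ℕ → I) → V) :
    sumI d N (fun γ => F γ + G γ) = sumI d N F + sumI d N G := by
  induction N generalizing F G with
  | zero => rfl
  | succ N ih =>
    rw [sumI_succ, sumI_succ, sumI_succ, ← ih]
    congr 1
    funext γ
    exact Finset.sum_add_distrib

theorem sumI_zero (N : ℕ) : sumI d N (fun _ => (0 : V)) = 0 := by
  induction N with
  | zero => rfl
  | succ N ih =>
    rw [sumI_succ]
    simp only [Finset.sum_const_zero]
    exact ih

theorem sumI_hom (f : V →+ W) (N : ℕ) (F : (ℕ → I) → V) :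
    f (sumI d N F) = sumI d N (fun γ => f (F γ)) := by
  induction N generalizing F with
  | zero => rfl
  | succ N ih =>
    rw [sumI_succ, sumI_succ, ih]
    simp only [map_sum]

theorem spl_sumI {α : Type} (N : ℕ) (G : List α → α → List α → (ℕ → I) → V) (L : List α) :
    spl (fun X x Y => sumI d N (G X x Y)) L =
      sumI d N (fun γ => spl (fun X x Y => G X x Y γ) L) := by
  induction L generalizing G with
  | nil => rw [spl_nil]; exact (sumI_zero d N).symm
  | cons l L ih =>
    rw [spl_cons, ih, ← sumI_add]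
    rfl

theorem spl_sum {α : Type} (G : I → List α → α → List α → V) (L : List α) :
    spl (fun X x Y => ∑ t, G t X x Y) L = ∑ t, spl (G t) L := by
  induction L generalizing G with
  | nil => simp [spl_nil]
  | cons l L ih =>
    rw [spl_cons, ih, ← Finset.sum_add_distrib]
    rfl

end sumI

theorem sumI_smul {V : Type} [AddCommGroup V] [Module K V] (d : I) (c : K) (N : ℕ)
    (F : (ℕ → I) → V) : c • sumI d N F = sumI d N (fun γ => c • F γ) :=
  sumI_hom d (DistribSMul.toAddMonoidHom V c) N F

omit [Fintype I] in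
/-- the weight of a colouring -/
def wt (u s : I → K) (γ : ℕ → I) (σ : List ℕ) : K :=
  ∏ i ∈ Finset.range σ.length, (u (γ i) * s (γ i) ^ (σ.getD i 0))

omit [Fintype I] in
theorem wt_stay (u s : I → K) (γ : ℕ → I) (σ : List ℕ) (c : I) :
    wt u s (Function.update γ σ.length c) (σ ++ [1]) = wt u s γ σ * (u c * s c) := by
  unfold wt
  rw [List.length_append, List.length_singleton, Finset.prod_range_succ]
  congr 1
  · apply Finset.prod_congr rfl
    intro i hi
    have hi' := Finset.mem_range.1 hi
    rw [Function.update_of_ne (by omega), List.getD_append _ _ _ _ hi']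
  · rw [Function.update_self, List.getD_append_right _ _ _ _ le_rfl, Nat.sub_self]
    change u c * s c ^ 1 = _
    rw [pow_one]

omit [Fintype I] in
theorem wt_inc (u s : I → K) (γ : ℕ → I) (σ : List ℕ) (l : ℕ) (hl : l < σ.length) :
    wt u s γ (inc σ l) = wt u s γ σ * s (γ l) := by
  unfold wt
  rw [inc_length, ← Finset.mul_prod_erase _ _ (Finset.mem_range.2 hl),
    ← Finset.mul_prod_erase (Finset.range σ.length) (fun i => u (γ i) * s (γ i) ^ (σ.getD i 0))
      (Finset.mem_range.2 hl)]
  have h1 : ∏ i ∈ (Finset.range σ.length).erase l,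
      (u (γ i) * s (γ i) ^ ((inc σ l).getD i 0)) =
      ∏ i ∈ (Finset.range σ.length).erase l, (u (γ i) * s (γ i) ^ (σ.getD i 0)) := by
    apply Finset.prod_congr rfl
    intro i hi
    rw [inc_getD _ _ _ hl, if_neg (Finset.mem_erase.1 hi).1]
  rw [h1, inc_getD _ _ _ hl, if_pos rfl, pow_succ]
  ring

theorem sumI_wt (d : I) (u s : I → K) (σ : List ℕ) :
    sumI d σ.length (fun γ => wt u s γ σ) = (σ.map fun k => ∑ t, u t * s t ^ k).prod := by
  have h : ∀ (N : ℕ) (a : ℕ → ℕ),
      sumI d N (fun γ => ∏ i ∈ Finset.range N, (u (γ i) * s (γ i) ^ (a i))) =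
      ∏ i ∈ Finset.range N, ∑ t, u t * s t ^ (a i) := by
    intro N a
    induction N with
    | zero => rfl
    | succ N ih =>
      rw [sumI_succ, Finset.prod_range_succ, ← ih]
      have h1 : ∀ γ : ℕ → I, ∑ t, ∏ i ∈ Finset.range (N + 1),
          (u (Function.update γ N t i) * s (Function.update γ N t i) ^ (a i)) =
          (∑ t, u t * s t ^ (a N)) *
            ∏ i ∈ Finset.range N, (u (γ i) * s (γ i) ^ (a i)) := by
        intro γ
        rw [Finset.sum_mul]
        refine Finset.sum_congr rfl fun t _ => ?_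
        rw [Finset.prod_range_succ, Function.update_self, mul_comm]
        congr 1
        apply Finset.prod_congr rfl
        intro i hi
        have hi' := Finset.mem_range.1 hi
        rw [Function.update_of_ne (by omega)]
      simp only [h1]
      have h3 := sumI_smul d (∑ t, u t * s t ^ (a N)) N
        (fun γ => ∏ i ∈ Finset.range N, (u (γ i) * s (γ i) ^ (a i)))
      simp only [smul_eq_mul] at h3
      rw [← h3, mul_comm]
  unfold wt
  rw [h σ.length (fun i => σ.getD i 0)]
  induction σ using List.reverseRecOn with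
  | nil => rfl
  | append_singleton σ k ih =>
    rw [List.length_append, List.length_singleton, Finset.prod_range_succ, List.map_append,
      List.prod_append, List.map_singleton, List.prod_singleton, ← ih]
    congr 1
    · apply Finset.prod_congr rfl
      intro i hi
      have hi' := Finset.mem_range.1 hi
      rw [List.getD_append _ _ _ _ hi']
    · rw [List.getD_append_right _ _ _ _ le_rfl, Nat.sub_self]
      rfl

/-! ### Coloured states -/

omit [Fintype I] in
/-- the cycles with colours -/
def Pg (K : Type) [Field K] (γ : ℕ → I) (Cs : List (List ℕ)) : CW K I :=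
  (Cs.map fun z => cy K (z.map γ)).prod

omit [Fintype I] in
/-- the state with colours -/
def Eg (K : Type) [Field K] (γ : ℕ → I) (W : List ℕ) (Cs : List (List ℕ)) : RW K I :=
  Pg K γ Cs • rw1 K (W.map γ)

omit [Fintype I] in
theorem Pg_cons (γ : ℕ → I) (z : List ℕ) (Cs : List (List ℕ)) :
    Pg K γ (z :: Cs) = cy K (z.map γ) * Pg K γ Cs := by
  unfold Pg
  rw [List.map_cons, List.prod_cons]

omit [Fintype I] in
/-- the linear map `x ↦ s c • pre [c] x` -/
def Pr (s : I → K) (c : I) : RW K I →ₗ[K] RW K I :=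
  s c • (pre [c] : RW K I →ₗ[CW K I] RW K I).restrictScalars K

omit [Fintype I] in
theorem Pr_apply (s : I → K) (c : I) (x : RW K I) : Pr s c x = s c • pre [c] x := rfl

omit [Fintype I] in
theorem map_upd (γ : ℕ → I) (N : ℕ) (c : I) (z : List ℕ) (h : ∀ x ∈ z, x < N) :
    z.map (Function.update γ N c) = z.map γ := by
  apply List.map_congr_left
  intro x hx
  rw [Function.update_of_ne (h x hx).ne]

omit [Fintype I] in
theorem Pg_upd (γ : ℕ → I) (N : ℕ) (c : I) (Cs : List (List ℕ))
    (h : ∀ z ∈ Cs, ∀ x ∈ z, x < N) : Pg K (Function.update γ N c) Cs = Pg K γ Cs := by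
  unfold Pg
  congr 1
  apply List.map_congr_left
  intro z hz
  rw [map_upd γ N c z (h z hz)]

section dec
variable [DecidableEq I]

theorem Aw_eq (b w1 w2 : K) (u s : I → K) (x : RW K I) : Aw b w1 w2 u s x =
    ∑ t, (u t * s t) • pre [t] x + ∑ t, Pr s t (T b w1 w2 t x) := by
  have hk : ∀ (L : List I) (c : K) (x : RW K I), pre L (c • x) = c • pre L x := fun L c x =>
    LinearMap.map_smul_of_tower (pre L : RW K I →ₗ[CW K I] RW K I) c x
  rw [Aw_apply, ← Finset.sum_add_distrib]
  refine Finset.sum_congr rfl fun t _ => ?_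
  rw [Pr_apply, map_add, hk, smul_add, smul_smul, mul_comm (s t)]

omit [Fintype I] in
theorem tch_map (b : K) (γ : ℕ → I) (c : I) (W : List ℕ) :
    tch b c (W.map γ) = spl (fun X l Y => if γ l = c then
      cy K (X.map γ ++ [c]) • rw1 K (Y.map γ) +
        (C b : CW K I) • rw1 K ((X.map γ).reverse ++ c :: Y.map γ) else 0) W := by
  unfold tch
  rw [spl_map]

omit [Fintype I] in
theorem opn_map (w1 w2 : K) (γ : ℕ → I) (c : I) (z : List ℕ) :
    opn w1 w2 c (z.map γ) = spl (fun X l Y => if γ l = c then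
      (C w1 : CW K I) • rw1 K (Y.map γ ++ X.map γ ++ [c]) +
        (C w2 : CW K I) • rw1 K ((Y.map γ ++ X.map γ).reverse ++ [c]) else 0) z := by
  unfold opn
  rw [spl_map]

/-- touches of the root word -/
theorem touch_root (b : K) (s : I → K) (γ : ℕ → I) (W : List ℕ) (Cs : List (List ℕ)) :
    ∑ c, Pr s c (Pg K γ Cs • tch b c (W.map γ)) =
    spl (fun X l Y => s (γ l) • (Eg K γ (l :: Y) ((X ++ [l]) :: Cs) +
      b • Eg K γ (l :: (X.reverse ++ l :: Y)) Cs)) W := by
  have h : ∀ c, Pr s c (Pg K γ Cs • tch b c (W.map γ)) = spl (fun X l Y => if γ l = c then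
      s (γ l) • (Eg K γ (l :: Y) ((X ++ [l]) :: Cs) +
      b • Eg K γ (l :: (X.reverse ++ l :: Y)) Cs) else 0) W := by
    intro c
    rw [tch_map]
    have h1 := spl_lin (Pr s c ∘ₗ (LinearMap.lsmul (CW K I) (RW K I)
      (Pg K γ Cs)).restrictScalars K)
      (fun X l Y => if γ l = c then
      cy K (X.map γ ++ [c]) • rw1 K (Y.map γ) +
        (C b : CW K I) • rw1 K ((X.map γ).reverse ++ c :: Y.map γ) else 0) W
    refine Eq.trans h1 ?_
    apply spl_congr
    intro X l Y
    by_cases hc : γ l = c
    · rw [if_pos hc, if_pos hc]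
      subst hc
      change Pr s (γ l) (Pg K γ Cs • _) = _
      rw [Pr_apply, pre_smul, map_add, pre_smul, pre_smul, pre_rw1, pre_rw1, C_smul]
      refine congrArg (fun z => s (γ l) • z) ?_
      unfold Eg
      rw [Pg_cons, smul_add, smul_smul, mul_comm, smul_comm (Pg K γ Cs) b]
      simp
    · rw [if_neg hc, if_neg hc, map_zero]
  simp only [h]
  rw [← spl_sum]
  apply spl_congr
  intro X l Y
  rw [Finset.sum_ite_eq, if_pos (Finset.mem_univ _)]

omit [Fintype I] in
theorem J_prod (w1 w2 : K) (c : I) (γ : ℕ → I) (Cs : List (List ℕ)) :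
    J w1 w2 c (Pg K γ Cs) =
      spl (fun A z B => Pg K γ (A ++ B) • opn w1 w2 c (z.map γ)) Cs := by
  induction Cs with
  | nil =>
    unfold Pg
    rw [List.map_nil, List.prod_nil, Derivation.map_one_eq_zero]
    rfl
  | cons z Cs ih =>
    rw [Pg_cons, Derivation.leibniz, ih, J_cy, spl_cons, List.nil_append, add_comm]
    congr 1
    have h := spl_hom (DistribSMul.toAddMonoidHom (RW K I) (cy K (z.map γ)))
      (fun A z B => Pg K γ (A ++ B) • opn w1 w2 c (z.map γ)) Cs
    refine Eq.trans h ?_
    apply spl_congr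
    intro A z' B
    change cy K (z.map γ) • (Pg K γ (A ++ B) • opn w1 w2 c (z'.map γ)) = _
    rw [List.cons_append, Pg_cons, smul_smul]

/-- touches of the cycles -/
theorem touch_cyc (w1 w2 : K) (s : I → K) (γ : ℕ → I) (W : List ℕ) (Cs : List (List ℕ)) :
    ∑ c, Pr s c (app (W.map γ) (J w1 w2 c (Pg K γ Cs))) =
    spl (fun A z B => spl (fun X l Y =>
      s (γ l) • (w1 • Eg K γ (l :: (Y ++ X ++ l :: W)) (A ++ B) +
      w2 • Eg K γ (l :: ((Y ++ X).reverse ++ l :: W)) (A ++ B))) z) Cs := by
  have h : ∀ c, Pr s c (app (W.map γ) (J w1 w2 c (Pg K γ Cs))) = spl (fun A z B =>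
      spl (fun X l Y => if γ l = c then
      s (γ l) • (w1 • Eg K γ (l :: (Y ++ X ++ l :: W)) (A ++ B) +
      w2 • Eg K γ (l :: ((Y ++ X).reverse ++ l :: W)) (A ++ B)) else 0) z) Cs := by
    intro c
    rw [J_prod]
    have h1 := spl_lin (Pr s c ∘ₗ (app (W.map γ) : RW K I →ₗ[CW K I] RW K I).restrictScalars K)
      (fun A z B => Pg K γ (A ++ B) • opn w1 w2 c (z.map γ)) Cs
    refine Eq.trans h1 ?_
    apply spl_congr
    intro A z B
    rw [opn_map]
    have h2 := spl_lin ((Pr s c ∘ₗ (app (W.map γ) :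
      RW K I →ₗ[CW K I] RW K I).restrictScalars K) ∘ₗ
      (LinearMap.lsmul (CW K I) (RW K I) (Pg K γ (A ++ B))).restrictScalars K)
      (fun X l Y => if γ l = c then
      (C w1 : CW K I) • rw1 K (Y.map γ ++ X.map γ ++ [c]) +
        (C w2 : CW K I) • rw1 K ((Y.map γ ++ X.map γ).reverse ++ [c]) else 0) z
    refine Eq.trans h2 ?_
    apply spl_congr
    intro X l Y
    by_cases hc : γ l = c
    · rw [if_pos hc, if_pos hc]
      subst hc
      change Pr s (γ l) (app (W.map γ) (Pg K γ (A ++ B) • _)) = _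
      rw [Pr_apply, app_smul, pre_smul, map_add, app_smul, map_add, pre_smul, app_smul, pre_smul,
        app_rw1, app_rw1, pre_rw1, pre_rw1, C_smul, C_smul]
      refine congrArg (fun z => s (γ l) • z) ?_
      unfold Eg
      rw [smul_add, smul_comm (Pg K γ (A ++ B)) w1, smul_comm (Pg K γ (A ++ B)) w2]
      simp
    · rw [if_neg hc, if_neg hc, map_zero]
  simp only [h]
  rw [← spl_sum]
  apply spl_congr
  intro A z B
  rw [← spl_sum]
  apply spl_congr
  intro X l Y
  rw [Finset.sum_ite_eq, if_pos (Finset.mem_univ _)]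

/-- one step for one colouring -/
theorem step_gamma (b w1 w2 : K) (u s : I → K) (γ : ℕ → I) (W : List ℕ)
    (Cs : List (List ℕ)) : Aw b w1 w2 u s (Eg K γ W Cs) =
      ∑ t, (u t * s t) • (Pg K γ Cs • rw1 K (t :: W.map γ)) +
      spl (fun X l Y => s (γ l) • (Eg K γ (l :: Y) ((X ++ [l]) :: Cs) +
        b • Eg K γ (l :: (X.reverse ++ l :: Y)) Cs)) W +
      spl (fun A z B => spl (fun X l Y =>
        s (γ l) • (w1 • Eg K γ (l :: (Y ++ X ++ l :: W)) (A ++ B) +
        w2 • Eg K γ (l :: ((Y ++ X).reverse ++ l :: W)) (A ++ B))) z) Cs := by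
  have h : ∀ c, T b w1 w2 c (Eg K γ W Cs) = Pg K γ Cs • tch b c (W.map γ) +
      app (W.map γ) (J w1 w2 c (Pg K γ Cs)) := by
    intro c
    unfold Eg
    rw [T_smul, T_rw1, cat_rw1]
  rw [Aw_eq]
  simp only [h, map_add]
  rw [Finset.sum_add_distrib, touch_root, touch_cyc, add_assoc]
  refine congrArg₂ (· + ·) ?_ rfl
  refine Finset.sum_congr rfl fun t _ => ?_
  unfold Eg
  rw [pre_smul, pre_rw1, List.singleton_append]

end dec

/-- The labelled state as a sum over the colourings. -/
def Ps (d : I) (u s : I → K) (S : Stt) : RW K I :=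
  sumI d S.1.length fun γ => wt u s γ S.1 • Eg K γ S.2.1 S.2.2

theorem Ps_inc (d : I) (u s : I → K) (σ W : List ℕ) (Cs : List (List ℕ)) (l : ℕ)
    (hl : l < σ.length) : Ps d u s (inc σ l, W, Cs) =
      sumI d σ.length fun γ => wt u s γ σ • (s (γ l) • Eg K γ W Cs) := by
  unfold Ps
  change sumI d (inc σ l).length _ = _
  rw [inc_length]
  congr 1
  funext γ
  rw [wt_inc _ _ _ _ _ hl, smul_smul]

theorem Ps_touch (d : I) (a b : K) (u s : I → K) (σ W W' : List ℕ) (Cs Cs' : List (List ℕ))
    (l : ℕ) (hl : l < σ.length) :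
    a • Ps d u s (inc σ l, W, Cs) + b • Ps d u s (inc σ l, W', Cs') =
      sumI d σ.length fun γ => wt u s γ σ •
        (s (γ l) • (a • Eg K γ W Cs + b • Eg K γ W' Cs')) := by
  rw [Ps_inc _ _ _ _ _ _ _ hl, Ps_inc _ _ _ _ _ _ _ hl, sumI_smul, sumI_smul, ← sumI_add]
  congr 1
  funext γ
  rw [smul_add, smul_add, smul_comm a, smul_comm a, smul_comm b, smul_comm b]

theorem spl_smul {α V : Type} [AddCommGroup V] [Module K V] (c : K)
    (φ : List α → α → List α → V) (L : List α) :
    spl (fun X x Y => c • φ X x Y) L = c • spl φ L :=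
  (spl_hom (DistribSMul.toAddMonoidHom V c) φ L).symm

variable [DecidableEq I]

theorem stp_Ps (d : I) (b w1 w2 : K) (u s : I → K) {t : ℕ} {S : Stt} (hS : Inv t S) :
    stp b w1 w2 (Ps d u s) S = Aw b w1 w2 u s (Ps d u s S) := by
  obtain ⟨σ, W, Cs⟩ := S
  obtain ⟨h1, h2, h3, h4⟩ := hS
  simp only at h1 h2 h3 h4
  have e1 : Ps d u s (σ ++ [1], σ.length :: W, Cs) = sumI d σ.length fun γ =>
      wt u s γ σ • ∑ t, (u t * s t) • (Pg K γ Cs • rw1 K (t :: W.map γ)) := by
    unfold Ps
    change sumI d (σ ++ [1]).length (fun γ => wt u s γ (σ ++ [1]) •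
      Eg K γ (σ.length :: W) Cs) = _
    rw [List.length_append, List.length_singleton, sumI_succ]
    congr 1
    funext γ
    rw [Finset.smul_sum]
    refine Finset.sum_congr rfl fun t _ => ?_
    rw [wt_stay]
    unfold Eg
    rw [Pg_upd _ _ _ _ h2, List.map_cons, map_upd _ _ _ _ h1, Function.update_self, smul_smul]
  have e2 : spl (fun X l Y => Ps d u s (inc σ l, l :: Y, (X ++ [l]) :: Cs) +
      b • Ps d u s (inc σ l, l :: (X.reverse ++ l :: Y), Cs)) W =
      sumI d σ.length fun γ => wt u s γ σ •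
        spl (fun X l Y => s (γ l) • (Eg K γ (l :: Y) ((X ++ [l]) :: Cs) +
        b • Eg K γ (l :: (X.reverse ++ l :: Y)) Cs)) W := by
    have e : ∀ X l Y, W = X ++ l :: Y → Ps d u s (inc σ l, l :: Y, (X ++ [l]) :: Cs) +
        b • Ps d u s (inc σ l, l :: (X.reverse ++ l :: Y), Cs) =
        sumI d σ.length fun γ => wt u s γ σ •
          (s (γ l) • (Eg K γ (l :: Y) ((X ++ [l]) :: Cs) +
          b • Eg K γ (l :: (X.reverse ++ l :: Y)) Cs)) := by
      intro X l Y hW
      have h := Ps_touch d 1 b u s σ (l :: Y) (l :: (X.reverse ++ l :: Y)) ((X ++ [l]) :: Cs)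
        Cs l (h1 l (by rw [hW]; simp))
      simp only [one_smul] at h
      exact h
    rw [spl_congr' e, spl_sumI]
    congr 1
    funext γ
    exact spl_smul _ _ _
  have e3 : spl (fun A z B => spl (fun X l Y =>
      w1 • Ps d u s (inc σ l, l :: (Y ++ X ++ l :: W), A ++ B) +
      w2 • Ps d u s (inc σ l, l :: ((Y ++ X).reverse ++ l :: W), A ++ B)) z) Cs =
      sumI d σ.length fun γ => wt u s γ σ • spl (fun A z B => spl (fun X l Y =>
        s (γ l) • (w1 • Eg K γ (l :: (Y ++ X ++ l :: W)) (A ++ B) +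
        w2 • Eg K γ (l :: ((Y ++ X).reverse ++ l :: W)) (A ++ B))) z) Cs := by
    have e : ∀ A z B, Cs = A ++ z :: B → spl (fun X l Y =>
        w1 • Ps d u s (inc σ l, l :: (Y ++ X ++ l :: W), A ++ B) +
        w2 • Ps d u s (inc σ l, l :: ((Y ++ X).reverse ++ l :: W), A ++ B)) z =
        sumI d σ.length fun γ => wt u s γ σ • spl (fun X l Y =>
          s (γ l) • (w1 • Eg K γ (l :: (Y ++ X ++ l :: W)) (A ++ B) +
          w2 • Eg K γ (l :: ((Y ++ X).reverse ++ l :: W)) (A ++ B))) z := by
      intro A z B hC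
      have e' : ∀ X l Y, z = X ++ l :: Y →
          w1 • Ps d u s (inc σ l, l :: (Y ++ X ++ l :: W), A ++ B) +
          w2 • Ps d u s (inc σ l, l :: ((Y ++ X).reverse ++ l :: W), A ++ B) =
          sumI d σ.length fun γ => wt u s γ σ •
            (s (γ l) • (w1 • Eg K γ (l :: (Y ++ X ++ l :: W)) (A ++ B) +
            w2 • Eg K γ (l :: ((Y ++ X).reverse ++ l :: W)) (A ++ B))) := by
        intro X l Y hz
        exact Ps_touch d w1 w2 u s σ _ _ _ _ l (h2 z (by rw [hC]; simp) l (by rw [hz]; simp))
      rw [spl_congr' e', spl_sumI]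
      congr 1
      funext γ
      exact spl_smul _ _ _
    rw [spl_congr' e, spl_sumI]
    congr 1
    funext γ
    exact spl_smul _ _ _
  have e4 : Aw b w1 w2 u s (Ps d u s (σ, W, Cs)) =
      sumI d σ.length fun γ => wt u s γ σ • Aw b w1 w2 u s (Eg K γ W Cs) := by
    unfold Ps
    have h := sumI_hom d (Aw b w1 w2 u s).toAddMonoidHom σ.length
      (fun γ => wt u s γ σ • Eg K γ W Cs)
    refine Eq.trans h ?_
    congr 1
    funext γ
    change Aw b w1 w2 u s (wt u s γ σ • Eg K γ W Cs) = _
    rw [map_smul]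
  have e0 : stp b w1 w2 (Ps d u s) (σ, W, Cs) =
      Ps d u s (σ ++ [1], σ.length :: W, Cs) +
      spl (fun X l Y => Ps d u s (inc σ l, l :: Y, (X ++ [l]) :: Cs) +
      b • Ps d u s (inc σ l, l :: (X.reverse ++ l :: Y), Cs)) W +
      spl (fun A z B => spl (fun X l Y =>
      w1 • Ps d u s (inc σ l, l :: (Y ++ X ++ l :: W), A ++ B) +
      w2 • Ps d u s (inc σ l, l :: ((Y ++ X).reverse ++ l :: W), A ++ B)) z) Cs := rfl
  rw [e0, e1, e2, e3, e4, ← sumI_add, ← sumI_add]
  congr 1
  funext γ
  rw [step_gamma, smul_add (wt u s γ σ) (_ + _) (spl _ Cs),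
    smul_add (wt u s γ σ) _ (spl _ W)]

theorem iter_Ps (d : I) (b w1 w2 : K) (u s : I → K) (k : ℕ) {t : ℕ} {S : Stt} (hS : Inv t S) :
    (stp b w1 w2)^[k] (Ps d u s) S = (Aw b w1 w2 u s ^ k) (Ps d u s S) := by
  induction k generalizing t with
  | zero => rfl
  | succ k ih =>
    rw [Function.iterate_succ_apply, iter_congr k (fun S hS => stp_Ps d b w1 w2 u s hS) hS,
      ← iter_map, ih hS, pow_succ', Module.End.mul_apply]

omit [Fintype I] [DecidableEq I] in
/-- closing and adding the empty root word -/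
def Oc (K I : Type) [Field K] : RW K I →ₗ[K] RW K I := iw K ∘ₗ (clw K).restrictScalars K

omit [DecidableEq I] in
theorem cls_Ps (d : I) (u s : I → K) (S : Stt) :
    cls (Ps d u s) S = Oc K I (Ps d u s S) := by
  obtain ⟨σ, W, Cs⟩ := S
  unfold cls Ps
  have h := sumI_hom d (Oc K I).toAddMonoidHom σ.length
    (fun γ => wt u s γ σ • Eg K γ W Cs)
  refine Eq.trans ?_ h.symm
  congr 1
  funext γ
  change _ = Oc K I (wt u s γ σ • Eg K γ W Cs)
  rw [map_smul]
  refine congrArg (fun z => wt u s γ σ • z) ?_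
  change Pg K γ (W :: Cs) • rw1 K [] = iw K (clw K (Pg K γ Cs • rw1 K (W.map γ)))
  rw [map_smul, clw_rw1, Pg_cons, smul_eq_mul, mul_comm]
  exact (single_eq [] _).symm

theorem Ep_Ps (d : I) (b w1 w2 : K) (u s : I → K) (p : List ℕ) :
    Ep b w1 w2 p (Ps d u s) = iw K (Kw b w1 w2 u s p) := by
  induction p with
  | nil =>
    change Ps d u s ([], [], []) = iw K 1
    unfold Ps wt Eg Pg
    change (∏ i ∈ Finset.range 0, _) • ((1 : CW K I) • rw1 K []) = _
    rw [Finset.range_zero, Finset.prod_empty, one_smul]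
    exact (single_eq [] _).symm
  | cons k p ih =>
    change Ep b w1 w2 p ((stp b w1 w2)^[k] (cls (Ps d u s))) = _
    have h1 : cls (Ps d u s) = fun S => Oc K I (Ps d u s S) := by
      funext S
      exact cls_Ps d u s S
    have h2 : ∀ S, Inv p.sum S → (stp b w1 w2)^[k] (cls (Ps d u s)) S =
        (Oc K I ∘ₗ (Aw b w1 w2 u s ^ k)) (Ps d u s S) := by
      intro S hS
      rw [h1, ← iter_map, iter_Ps d b w1 w2 u s k hS]
      rfl
    rw [Ep_congr p h2, ← Ep_map, ih]
    rfl

omit [Fintype I] [DecidableEq I] in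
/-- forgetting the root word and the colours -/
def Fg (K I : Type) [Field K] : RW K I →ₗ[K] Lam K :=
  Finsupp.lsum K fun _ => (fgt K I).toLinearMap

omit [Fintype I] [DecidableEq I] in
theorem Fg_iw (f : CW K I) : Fg K I (iw K f) = fgt K I f := by
  unfold Fg iw
  rw [Finsupp.lsingle_apply, Finsupp.lsum_single]
  rfl

omit [Fintype I] [DecidableEq I] in
theorem fgt_cy (L : List I) : fgt K I (cy K L) = X L.length := by
  unfold fgt cy
  rw [aeval_X, Cycle.length_coe]

omit [Fintype I] [DecidableEq I] in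
theorem fgt_Pg (γ : ℕ → I) (Cs : List (List ℕ)) :
    fgt K I (Pg K γ Cs) = (Cs.map fun z => (X z.length : Lam K)).prod := by
  unfold Pg
  rw [map_list_prod, List.map_map]
  congr 1
  apply List.map_congr_left
  intro z _
  change fgt K I (cy K (z.map γ)) = _
  rw [fgt_cy, List.length_map]

omit [DecidableEq I] in
theorem Fg_Ps (d : I) (u s : I → K) (S : Stt) : Fg K I (Ps d u s S) =
    C ((S.1.map fun k => ∑ t, u t * s t ^ k).prod) *
      (S.2.2.map fun z => (X z.length : Lam K)).prod := by
  obtain ⟨σ, W, Cs⟩ := S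
  unfold Ps
  have h2 := sumI_hom d (Fg K I).toAddMonoidHom σ.length (fun γ => wt u s γ σ • Eg K γ W Cs)
  refine Eq.trans h2 ?_
  have h3 : ∀ γ, (Fg K I).toAddMonoidHom (wt u s γ σ • Eg K γ W Cs) =
      C (wt u s γ σ) * (Cs.map fun z => (X z.length : Lam K)).prod := by
    intro γ
    change Fg K I (wt u s γ σ • Eg K γ W Cs) = _
    rw [map_smul, ← smul_eq_C_mul, ← fgt_Pg γ Cs]
    refine congrArg (fun z => wt u s γ σ • z) ?_
    unfold Eg Fg
    rw [← single_eq, Finsupp.lsum_single]
    rfl
  simp only [h3]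
  have h4 := sumI_hom d (AddMonoidHom.mulRight (Cs.map fun z => (X z.length : Lam K)).prod)
    σ.length (fun γ => (C (wt u s γ σ) : Lam K))
  have h5 := sumI_hom d ((C : K →+* Lam K).toAddMonoidHom) σ.length (fun γ => wt u s γ σ)
  rw [sumI_wt] at h5
  refine Eq.trans h4.symm ?_
  change sumI d σ.length (fun γ => (C (wt u s γ σ) : Lam K)) * _ = _
  refine congrArg (fun z => z * _) ?_
  exact h5.symm

end Lab

open Lab

omit [Fintype I] in
/-- the specialisation of the labelled process -/
theorem sp_Zp (b w1 w2 : K) (x q : ℕ → K) (p : List ℕ) : sp x q (Zp b w1 w2 p) =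
    Ep b w1 w2 p (fun S => C ((S.1.map q).prod) *
      (S.2.2.map fun z => (X z.length : Lam K)).prod) := by
  unfold Zp
  have h := Ep_map (sp x q).toLinearMap b w1 w2 p fun S =>
    (S.1.map fun k => (X (2, k) : B3 K)).prod *
      (S.2.2.map fun z => (X (1, z.length) : B3 K)).prod
  refine Eq.trans h ?_
  refine congrArg (Ep b w1 w2 p) ?_
  funext S
  change sp x q _ = _
  rw [map_mul, map_list_prod, map_list_prod, List.map_map, List.map_map, map_list_prod C,
    List.map_map]
  refine congrArg₂ (· * ·) ?_ ?_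
  · refine congrArg List.prod (List.map_congr_left fun k _ => ?_)
    change sp x q (X (2, k)) = C (q k)
    unfold sp
    rw [aeval_X]
    rfl
  · refine congrArg List.prod (List.map_congr_left fun z _ => ?_)
    change sp x q (X (1, z.length)) = X z.length
    unfold sp
    rw [aeval_X]
    rfl

/-- (Lab) -/
theorem lab (K I : Type) [Field K] [DecidableEq I] [Fintype I] : LabSt K I := by
  intro b w1 w2 u s x p
  rw [sp_Zp]
  rcases isEmpty_or_nonempty I with hI | ⟨⟨d⟩⟩
  · -- no colours
    induction p with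
    | nil =>
      change fgt K I 1 = C 1 * 1
      rw [map_one, map_one, mul_one]
    | cons k p ih =>
      have hA : Aw b w1 w2 u s = 0 := by
        unfold Aw
        rw [Finset.univ_eq_empty, Finset.sum_empty]
      rcases k with _ | k
      · have h1 : Kw b w1 w2 u s (0 :: p) = Kw b w1 w2 u s p * cy K [] := by
          change clw K ((Aw b w1 w2 u s ^ 0) (iw K (Kw b w1 w2 u s p))) = _
          rw [pow_zero, Module.End.one_apply, iw_apply, clw_single]
        have h2 : Ep b w1 w2 (0 :: p) (fun S => C ((S.1.map fun k => ∑ t, u t * s t ^ k).prod) *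
            (S.2.2.map fun z => (X z.length : Lam K)).prod) =
            Ep b w1 w2 p (fun S => C ((S.1.map fun k => ∑ t, u t * s t ^ k).prod) *
              (S.2.2.map fun z => (X z.length : Lam K)).prod) * X 0 := by
          have h3 := Ep_map (LinearMap.mulRight K (X 0 : Lam K)) b w1 w2 p
            (fun S => C ((S.1.map fun k => ∑ t, u t * s t ^ k).prod) *
              (S.2.2.map fun z => (X z.length : Lam K)).prod)
          refine Eq.trans ?_ h3.symm
          change Ep b w1 w2 p (cls fun S => C ((S.1.map fun k => ∑ t, u t * s t ^ k).prod) *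
            (S.2.2.map fun z => (X z.length : Lam K)).prod) = _
          apply Ep_congr
          intro S hS
          obtain ⟨σ, W, Cs⟩ := S
          change C ((σ.map fun k => ∑ t, u t * s t ^ k).prod) *
            ((W :: Cs).map fun z => (X z.length : Lam K)).prod =
            (C ((σ.map fun k => ∑ t, u t * s t ^ k).prod) *
              (Cs.map fun z => (X z.length : Lam K)).prod) * X 0
          rcases σ with _ | ⟨a, σ⟩
          · have hW : W = [] := by
              rcases W with _ | ⟨l, W⟩
              · rfl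
              · exact absurd (hS.1 l List.mem_cons_self) (Nat.not_lt_zero _)
            rw [hW, List.map_cons, List.prod_cons, List.length_nil]
            ring
          · simp
        rw [h1, map_mul, ih, h2, fgt_cy, List.length_nil]
      · have h1 : Kw b w1 w2 u s ((k + 1) :: p) = 0 := by
          change clw K ((Aw b w1 w2 u s ^ (k + 1)) (iw K (Kw b w1 w2 u s p))) = _
          rw [hA, zero_pow (Nat.succ_ne_zero k), LinearMap.zero_apply, map_zero]
        rw [h1, map_zero]
        symm
        refine Eq.trans (Ep_congr (ψ := fun _ => (0 : Lam K)) _ ?_) (Ep_zero b w1 w2 _)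
        intro S hS
        obtain ⟨σ, W, Cs⟩ := S
        rcases σ with _ | ⟨a, σ⟩
        · have h3 : (List.sum ([] : List ℕ)) = ((k + 1) :: p).sum := hS.2.2.1
          rw [List.sum_cons, List.sum_nil] at h3
          omega
        · simp
  · rw [← Fg_iw, ← Ep_Ps d, Ep_map]
    refine congrArg (Ep b w1 w2 p) ?_
    funext S
    exact Fg_Ps d u s S

end

end Pool.Agent.MJL
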