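import Pool.Agent.MJL.St2
import Pool.Agent.MJL.Fin2
import Pool.Agent.MJL.Homm
import Pool.Agent.MJL.Lab
import Pool.Agent.MJF.FiveHat

/-!
(TruA) The specialisation of the series `phi` at `p_k(x) = x k`, `p_k(z) = u + u2 s^k` is the
process of the arc model.
-/

namespace Pool.Agent.MJL

open MvPolynomial Pool.Agent.MJR Pool.Agent.MJX Pool.Agent.MJT
open Pool.Agent.MJF (ic)

noncomputable section

namespace TruAM

section

variable {K : Type} [Field K]

/-- The oriented process is the process of `MJF`. -/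
theorem ori (al u u2 s : K) (p : List ℕ) :
    Kw (al - 1) 1 (al - 1) (uB u u2) (uB 1 s) p = MJF.Kw al u u2 s p := by
  induction p with
  | nil => rfl
  | cons k p ih =>
    change clw K ((Aw (al - 1) 1 (al - 1) (uB u u2) (uB 1 s) ^ k)
      (iw K (Kw (al - 1) 1 (al - 1) (uB u u2) (uB 1 s) p))) =
      MJF.clw K ((MJF.Aw al u u2 s ^ k) (MJF.iw K (MJF.Kw al u u2 s p)))
    rw [ih, Fin2M.Aw_eq]
    rfl

theorem mono_pp {n : ℕ} (m : n.Partition) :
    (monomial (Multiset.toFinsupp m.parts) 1 : Lam K) = pp K m := by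
  rw [ProjM.monomial_eq_mon, Multiset.toFinsupp_toMultiset, one_smul]
  rfl

theorem sp_pa0 (x q : ℕ → K) {n : ℕ} (r : n.Partition) :
    sp x q (pa 0 r) = C (r.parts.map x).prod := by
  rw [Hom.pa_eq, Hom.sp_ms0]

theorem sp_pa1 (x q : ℕ → K) {n : ℕ} (r : n.Partition) : sp x q (pa 1 r) = pp K r := by
  rw [Hom.pa_eq, Hom.sp_ms1, mono_pp]

theorem sp_pa2 (x q : ℕ → K) {n : ℕ} (r : n.Partition) :
    sp x q (pa 2 r) = C (r.parts.map q).prod := by
  rw [Hom.pa_eq, Hom.sp_ms2]

theorem sp_C (x q : ℕ → K) (c : K) : sp x q (C c) = C c := algHom_C _ c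

theorem sp_H2 (x q : ℕ → K) (n : ℕ) {f : B3 K} (hf : f ∈ Hom.H2 K n) :
    sp x q f ∈ GradeM.S K n := by
  unfold Hom.H2 at hf
  induction hf using Submodule.span_induction with
  | mem f hf =>
    obtain ⟨⟨m, v⟩, rfl⟩ := hf
    change sp x q (pa 1 m * pa 2 v) ∈ _
    rw [map_mul, sp_pa1, sp_pa2, mul_comm, ← smul_eq_C_mul]
    refine Submodule.smul_mem _ _ ?_
    exact GradeM.mem_S (fun h => absurd (m.parts_pos h) (lt_irrefl 0)) m.parts_sum
  | zero =>
    rw [map_zero]
    exact zero_mem _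
  | add a b _ _ ha hb =>
    rw [map_add]
    exact add_mem ha hb
  | smul c a _ ha =>
    rw [map_smul]
    exact Submodule.smul_mem _ _ ha

/-- The values of the process are homogeneous. -/
theorem T_mem {al tau u2 kap u s : K} {Kc : Lam K →ₗ[K] CM K} (h : IsK al tau u2 kap u s Kc)
    {n : ℕ} (p : n.Partition) : MJF.fgt K (ic tau (Kc (pp K p))) ∈ GradeM.S K n := by
  have hpos : ∀ k ∈ p.parts.toList, k ≠ 0 := by
    intro k hk
    rw [Multiset.mem_toList] at hk
    exact (p.parts_pos hk).ne'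
  have hsum : p.parts.toList.sum = n := by
    rw [Multiset.sum_toList, p.parts_sum]
  have e1 := MJF.Kw_eq (MJF.aI K) (MJF.aP K) h.h1 h.h2 h.h3 h.ht h.hq u s Kc h.one h.hK
    p.parts.toList hpos
  have e2 : (pp K p : Lam K) = (p.parts.toList.map fun k => (X k : Lam K)).prod := by
    unfold pp
    rw [← Multiset.prod_coe, ← Multiset.map_coe, Multiset.coe_toList]
  rw [e2, ← e1, ← ori]
  have e3 := lab K Bool (al - 1) 1 (al - 1) (uB u u2) (uB 1 s) (fun _ => 0) p.parts.toList
  have e4 : fgt K Bool (Kw (al - 1) 1 (al - 1) (uB u u2) (uB 1 s) p.parts.toList) ∈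
      GradeM.S K n := by
    rw [e3]
    refine sp_H2 _ _ n ?_
    have e5 := Hom.Zp_mem (al - 1) 1 (al - 1) p.parts.toList
      (fun k hk => Nat.pos_of_ne_zero (hpos k hk))
    rw [hsum] at e5
    exact e5
  exact e4

theorem T_toL {al tau u2 kap u s : K} {Kc : Lam K →ₗ[K] CM K} (h : IsK al tau u2 kap u s Kc)
    {n : ℕ} (p : n.Partition) : MJF.fgt K (ic tau (Kc (pp K p))) =
      ∑ m : n.Partition, C (coeff (expo m) (MJF.fgt K (ic tau (Kc (pp K p))))) * pp K m := by
  conv_lhs => rw [← Pj_S (T_mem h p), Pj_apply]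
  rfl

end

/-- The formula for one value of the weight of a mark. -/
theorem main (J : (n : ℕ) → n.Partition → n.Partition → QA)
    (hJ : ∀ n, IsJack RatFunc.X n (J n)) {tau u2 kap : QA} (h1 : tau = u2 + (RatFunc.X - 1))
    (h2 : tau * u2 = RatFunc.X) (h3 : u2 * kap = 1) (ht : tau = RatFunc.X * kap) (u s : QA) :
    ∃ Kc : Lam QA →ₗ[QA] CM QA, IsK RatFunc.X tau u2 kap u s Kc ∧
      ∀ (x : ℕ → QA) (n : ℕ), sp x (fun k => u + u2 * s ^ k) (PowerSeries.coeff n
        (phi RatFunc.X J)) = MJF.fgt QA (ic tau (Kc (Gx RatFunc.X x n))) := by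
  have hX : (RatFunc.X : QA) ≠ 0 := RatFunc.X_ne_zero
  have hq : tau ^ 2 = (RatFunc.X - 1) * tau + RatFunc.X := by
    have e : (RatFunc.X : QA) - 1 = tau - u2 := by rw [h1]; ring
    rw [e, sub_mul, ← h2]
    ring
  have hk : RatFunc.X * kap ^ 2 = (RatFunc.X - 1) * kap + 1 := by
    have e : (RatFunc.X : QA) - 1 = tau - u2 := by rw [h1]; ring
    rw [e, sub_mul, h3, ht]
    ring
  obtain ⟨T, That, hT, hh⟩ := MJF.hatEx kap hk
  rw [← ht] at hT
  have eT : T = (MJF.fgt QA).toLinearMap ∘ₗ ic tau :=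
    MJF.IsT_unique hT (MJF.isT (MJF.fgt_st QA) tau)
  obtain ⟨Kc, hone, hK, hZ, hH, -⟩ := arcMain hX hk hh u (s * u2)
  have hIs : IsK RatFunc.X tau u2 kap u s Kc := ⟨hX, h1, h2, h3, ht, hq, hone, hK, hZ⟩
  refine ⟨Kc, hIs, fun x n => ?_⟩
  obtain ⟨q, hqd⟩ : ∃ q : ℕ → QA, q = fun k => u + u2 * s ^ k := ⟨_, rfl⟩
  rw [← hqd]
  have hTK : ∀ f, MJF.fgt QA (ic tau (Kc f)) = T (Kc f) := by
    intro f
    rw [eT]
    rfl
  -- the row of the ones
  have row : ∀ r : n.Partition, coeff (expo (ones n)) (T (Kc (pp QA r))) =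
      (r.parts.map q).prod := by
    intro r
    rw [coeff_ones, thL_T hT]
    have e2 := row_mon (tSt _ hk) u (s * u2) Kc hone hK r.parts
      (fun h => absurd (r.parts_pos h) (lt_irrefl 0))
    have e3 : (pp QA r : Lam QA) = GradeM.mon QA r.parts := rfl
    rw [e3, e2, Polynomial.coeff_C_mul, Polynomial.coeff_X_pow, r.parts_sum, if_pos rfl, mul_one,
      hqd]
    congr 1
    refine Multiset.map_congr rfl fun k hk' => ?_
    obtain ⟨j, rfl⟩ := Nat.exists_eq_succ_of_ne_zero (r.parts_pos hk').ne'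
    have e4 : s * u2 * kap = s := by rw [mul_assoc, h3, mul_one]
    rw [e4, Nat.succ_eq_add_one, Nat.add_sub_cancel]
    ring
  -- the connection coefficients
  obtain ⟨t, htd⟩ : ∃ t : n.Partition → n.Partition → n.Partition → n.Partition → QA,
      t = fun l p m v => (nrm RatFunc.X (J n) l)⁻¹ * (J n l p * J n l m * J n l v) := ⟨_, rfl⟩
  obtain ⟨c, hcd⟩ : ∃ c : n.Partition → n.Partition → n.Partition → QA,
      c = fun p m v => wtp RatFunc.X p * ∑ l, t l p m v := ⟨_, rfl⟩
  have hc : ∀ l m v, ∑ p, J n l p * c p m v = J n l m * J n l v := by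
    intro l m v
    rw [hcd]
    have h5 : ∀ p, J n l p * (wtp RatFunc.X p * ∑ l', t l' p m v) =
        ∑ l', (nrm RatFunc.X (J n) l')⁻¹ * (J n l' m * J n l' v) *
          (J n l p * J n l' p * wtp RatFunc.X p) := by
      intro p
      rw [htd, Finset.mul_sum, Finset.mul_sum]
      refine Finset.sum_congr rfl fun l' _ => ?_
      ring
    rw [Finset.sum_congr rfl (fun p _ => h5 p), Finset.sum_comm, Finset.sum_eq_single l]
    · rw [← Finset.mul_sum]
      have h6 : ∑ p, J n l p * J n l p * wtp RatFunc.X p = nrm RatFunc.X (J n) l := by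
        unfold nrm
        refine Finset.sum_congr rfl fun p _ => ?_
        ring
      have h7 := nrm_ne_zero anisoM (hJ n) l
      rw [h6]
      field_simp
    · intro l' _ hl'
      rw [← Finset.mul_sum, (hJ n).orth l l' (Ne.symm hl'), mul_zero]
    · intro h'
      exact absurd (Finset.mem_univ _) h'
  have hcoef : ∀ p m : n.Partition, coeff (expo m) (T (Kc (pp QA p))) =
      ∑ v, (v.parts.map q).prod * c p m v := by
    intro p m
    have h := jackOpP (hJ n) c hc (T ∘ₗ Kc) (fun r f => by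
      rw [LinearMap.comp_apply, LinearMap.comp_apply, hH]) p m
    rw [LinearMap.comp_apply] at h
    rw [h]
    refine Finset.sum_congr rfl fun r _ => ?_
    rw [LinearMap.comp_apply, row]
  have hw : ∀ r : n.Partition, wtp (RatFunc.X : QA) r ≠ 0 := by
    intro r
    unfold wtp
    refine mul_ne_zero (pow_ne_zero _ hX) ?_
    have hz : zed r ≠ 0 := by
      unfold zed
      refine Finset.prod_ne_zero_iff.mpr fun i hi => ?_
      have h3 : i ≠ 0 := (r.parts_pos (Multiset.mem_toFinset.mp hi)).ne'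
      exact mul_ne_zero (pow_ne_zero _ h3) (Nat.factorial_ne_zero _)
    exact_mod_cast hz
  -- the right side
  have hR : MJF.fgt QA (ic tau (Kc (Gx RatFunc.X x n))) =
      ∑ m : n.Partition, C (∑ r : n.Partition, (r.parts.map x).prod *
        ∑ v, (v.parts.map q).prod * ∑ l, t l r m v) * pp QA m := by
    have h8 : MJF.fgt QA (ic tau (Kc (Gx RatFunc.X x n))) =
        ∑ r : n.Partition, ((r.parts.map x).prod * (wtp RatFunc.X r)⁻¹) •
          MJF.fgt QA (ic tau (Kc (pp QA r))) := by
      unfold Gx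
      rw [map_sum, map_sum, map_sum]
      refine Finset.sum_congr rfl fun r _ => ?_
      rw [map_smul, map_smul, map_smul]
    rw [h8]
    have h9 : ∀ r : n.Partition, ((r.parts.map x).prod * (wtp RatFunc.X r)⁻¹) •
          MJF.fgt QA (ic tau (Kc (pp QA r))) =
        ∑ m : n.Partition, C ((r.parts.map x).prod *
          ∑ v, (v.parts.map q).prod * ∑ l, t l r m v) * pp QA m := by
      intro r
      rw [T_toL hIs r, Finset.smul_sum]
      refine Finset.sum_congr rfl fun m _ => ?_
      rw [hTK, hcoef, smul_eq_C_mul, ← mul_assoc, ← C_mul]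
      congr 2
      have h10 : ∑ v, (v.parts.map q).prod * c r m v =
          wtp RatFunc.X r * ∑ v, (v.parts.map q).prod * ∑ l, t l r m v := by
        rw [Finset.mul_sum]
        refine Finset.sum_congr rfl fun v _ => ?_
        rw [hcd]
        ring
      rw [h10, mul_assoc, inv_mul_cancel_left₀ (hw r)]
    rw [Finset.sum_congr rfl fun r _ => h9 r, Finset.sum_comm]
    refine Finset.sum_congr rfl fun m _ => ?_
    rw [← Finset.sum_mul, map_sum]
  -- the left side
  have hL : sp x q (PowerSeries.coeff n (phi RatFunc.X J)) =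
      ∑ m : n.Partition, C (∑ l : n.Partition, (nrm RatFunc.X (J n) l)⁻¹ *
        ((∑ r, J n l r * (r.parts.map x).prod) * J n l m *
          ∑ v, J n l v * (v.parts.map q).prod)) * pp QA m := by
    unfold phi
    rw [PowerSeries.coeff_mk, map_sum]
    have h8 : ∀ l : n.Partition, sp x q (C (nrm RatFunc.X (J n) l)⁻¹ *
        (Ja (J n) l 0 * Ja (J n) l 1 * Ja (J n) l 2)) =
        ∑ m : n.Partition, C ((nrm RatFunc.X (J n) l)⁻¹ *
        ((∑ r, J n l r * (r.parts.map x).prod) * J n l m *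
          ∑ v, J n l v * (v.parts.map q).prod)) * pp QA m := by
      intro l
      have a0 : sp x q (Ja (J n) l 0) = C (∑ r, J n l r * (r.parts.map x).prod) := by
        unfold Ja
        rw [map_sum, map_sum]
        refine Finset.sum_congr rfl fun r _ => ?_
        rw [map_mul, sp_pa0, sp_C, C_mul]
      have a1 : sp x q (Ja (J n) l 1) = ∑ m, C (J n l m) * pp QA m := by
        unfold Ja
        rw [map_sum]
        refine Finset.sum_congr rfl fun r _ => ?_
        rw [map_mul, sp_pa1, sp_C]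
      have a2 : sp x q (Ja (J n) l 2) = C (∑ r, J n l r * (r.parts.map q).prod) := by
        unfold Ja
        rw [map_sum, map_sum]
        refine Finset.sum_congr rfl fun r _ => ?_
        rw [map_mul, sp_pa2, sp_C, C_mul]
      rw [map_mul, map_mul, map_mul, a0, a1, a2, sp_C, Finset.mul_sum, Finset.sum_mul,
        Finset.mul_sum]
      refine Finset.sum_congr rfl fun m _ => ?_
      rw [C_mul, C_mul, C_mul]
      ring
    rw [Finset.sum_congr rfl fun l _ => h8 l, Finset.sum_comm]
    refine Finset.sum_congr rfl fun m _ => ?_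
    rw [← Finset.sum_mul, map_sum]
  rw [hR, hL]
  refine Finset.sum_congr rfl fun m _ => ?_
  congr 2
  -- both sides are triple sums
  have hl : ∀ l : n.Partition, (nrm RatFunc.X (J n) l)⁻¹ *
      ((∑ r, J n l r * (r.parts.map x).prod) * J n l m *
        ∑ v, J n l v * (v.parts.map q).prod) =
      ∑ r : n.Partition, ∑ v : n.Partition,
        (r.parts.map x).prod * ((v.parts.map q).prod * t l r m v) := by
    intro l
    rw [Finset.sum_mul, Finset.sum_mul, Finset.mul_sum]
    refine Finset.sum_congr rfl fun r _ => ?_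
    rw [Finset.mul_sum, Finset.mul_sum]
    refine Finset.sum_congr rfl fun v _ => ?_
    rw [htd]
    ring
  have hr : ∀ r : n.Partition, (r.parts.map x).prod *
      ∑ v, (v.parts.map q).prod * ∑ l, t l r m v =
      ∑ l : n.Partition, ∑ v : n.Partition,
        (r.parts.map x).prod * ((v.parts.map q).prod * t l r m v) := by
    intro r
    rw [Finset.sum_comm, Finset.mul_sum]
    refine Finset.sum_congr rfl fun v _ => ?_
    rw [Finset.mul_sum, Finset.mul_sum]
  rw [Finset.sum_congr rfl fun l _ => hl l, Finset.sum_congr rfl fun r _ => hr r,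
    Finset.sum_comm]

end TruAM

/-- (TruA) -/
theorem truA : TruSt := by
  intro J hJ u2 u s hu
  rcases hu with rfl | rfl
  · obtain ⟨Kc, h, h'⟩ := TruAM.main J hJ (tau := RatFunc.X) (u2 := 1) (kap := 1) (by ring)
      (by ring) (by ring) (by ring) u s
    exact ⟨_, _, Kc, h, h'⟩
  · have hX : (RatFunc.X : QA) ≠ 0 := RatFunc.X_ne_zero
    obtain ⟨Kc, h, h'⟩ := TruAM.main J hJ (tau := -1) (u2 := -RatFunc.X)
      (kap := -(RatFunc.X)⁻¹) (by ring) (by ring) (by field_simp) (by field_simp) u s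
    exact ⟨_, _, Kc, h, h'⟩

end

end Pool.Agent.MJL
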