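import Pool.Agent.MJL.Fin4
import Pool.Agent.MJL.TruA
import Pool.Agent.MJL.Half
import Pool.Agent.MJI.St

/-!
The good classes: from the integrality theorem to `ℕ[b]`.
-/

namespace Pool.Agent.MJL

open MvPolynomial Pool.Agent.MJR

noncomputable section

theorem zb_le {K : Type} [Field K] (al : K) {y : K} (h : y ∈ MJI.Zb al) : y ∈ Zb al := by
  obtain ⟨p, rfl⟩ := h
  have hb : al - 1 ∈ Zb al := Subring.subset_closure (Set.mem_singleton _)
  rw [Polynomial.coe_eval₂RingHom, Polynomial.eval₂_eq_sum]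
  unfold Polynomial.sum
  refine sum_mem fun n _ => ?_
  change (Int.castRingHom K) (p.coeff n) * (al - 1) ^ n ∈ Zb al
  have h1 : (Int.castRingHom K) (p.coeff n) = ((p.coeff n : ℤ) : K) := rfl
  rw [h1]
  exact (Zb al).mul_mem (intCast_mem (Zb al) _) ((Zb al).pow_mem hb n)

/-- The good classes. -/
theorem fin5 (hI : MJI.FinSt) {J : (n : ℕ) → n.Partition → n.Partition → QA}
    (hJ : ∀ n, IsJack RatFunc.X n (J n)) {psi : PowerSeries (B3 QA)}
    (hpsi : IsPsi RatFunc.X J psi) {n : ℕ} (t m nu : n.Partition)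
    (h : MJT.Good t ∨ MJT.Good m ∨ MJT.Good nu) :
    hc psi t m nu ∈ Nb (RatFunc.X : QA) :=
  nb_of _ (good_any truA (half QA) hJ hpsi t m nu h) (zb_le _ (hI J hJ psi hpsi t m nu))

end

end Pool.Agent.MJL
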