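import Pool.Agent.MJL.Rul

/-!
Positivity of the operators on words, for families of parameters.
-/

namespace Pool.Agent.MJL

open MvPolynomial Pool.Agent.MJR
open Pool.Agent.MJF (spl Stt inc cls spl_nil spl_cons spl_congr spl_congr' spl_append spl_add
  spl_zero spl_hom spl_rot)

noncomputable section

variable {K : Type} [Field K]

/-! ### polynomials with coefficients in `P` -/

/-- polynomials with coefficients in `P` -/
def MC (P : Subsemiring K) (σ : Type) : AddSubmonoid (MvPolynomial σ K) where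
  carrier := {f | ∀ m, coeff m f ∈ P}
  add_mem' := by
    intro f g hf hg m
    rw [coeff_add]
    exact add_mem (hf _) (hg _)
  zero_mem' := by
    intro m
    rw [coeff_zero]
    exact zero_mem _

theorem MC_mul (P : Subsemiring K) {σ : Type} {f g : MvPolynomial σ K} (hf : f ∈ MC P σ)
    (hg : g ∈ MC P σ) : f * g ∈ MC P σ := by
  classical
  intro m
  rw [coeff_mul]
  exact sum_mem fun x _ => mul_mem (hf _) (hg _)

theorem MC_C (P : Subsemiring K) {σ : Type} {c : K} (hc : c ∈ P) :
    (C c : MvPolynomial σ K) ∈ MC P σ := by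
  classical
  intro m
  rw [coeff_C]
  split_ifs
  · exact hc
  · exact zero_mem _

theorem MC_one (P : Subsemiring K) {σ : Type} : (1 : MvPolynomial σ K) ∈ MC P σ := by
  rw [← C_1]
  exact MC_C P (one_mem _)

theorem MC_X (P : Subsemiring K) {σ : Type} (z : σ) : (X z : MvPolynomial σ K) ∈ MC P σ := by
  classical
  intro m
  rw [coeff_X]
  split_ifs
  · exact one_mem _
  · exact zero_mem _

theorem MC_smul (P : Subsemiring K) {σ : Type} {c : K} (hc : c ∈ P) {f : MvPolynomial σ K}
    (hf : f ∈ MC P σ) : c • f ∈ MC P σ := by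
  intro m
  rw [coeff_smul, smul_eq_mul]
  exact mul_mem hc (hf _)

theorem MC_pow (P : Subsemiring K) {σ : Type} {f : MvPolynomial σ K} (hf : f ∈ MC P σ) (n : ℕ) :
    f ^ n ∈ MC P σ := by
  induction n with
  | zero =>
    rw [pow_zero]
    exact MC_one P
  | succ n ih =>
    rw [pow_succ]
    exact MC_mul P ih hf

/-- A linear map is determined by its values at the monomials. -/
theorem MC_map (P : Subsemiring K) {σ W : Type} [AddCommMonoid W] [Module K W]
    (Q : AddSubmonoid W) (hQ : ∀ c ∈ P, ∀ q ∈ Q, c • q ∈ Q) (F : MvPolynomial σ K →ₗ[K] W)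
    (h : ∀ m : σ →₀ ℕ, F (monomial m 1) ∈ Q) {f : MvPolynomial σ K} (hf : f ∈ MC P σ) :
    F f ∈ Q := by
  rw [f.as_sum, map_sum]
  refine sum_mem fun m _ => ?_
  have h1 : (monomial m (coeff m f) : MvPolynomial σ K) = coeff m f • monomial m 1 := by
    rw [smul_monomial, smul_eq_mul, mul_one]
  rw [h1, map_smul]
  exact hQ _ (hf m) _ (h m)

theorem PC_eq (P : Subsemiring K) (I : Type) : PC P I = MC P (Cycle I) := rfl

theorem PL_eq (P : Subsemiring K) : PL P = MC P ℕ := rfl

variable {I : Type}

theorem PC_mul (P : Subsemiring K) {f g : CW K I} (hf : f ∈ PC P I) (hg : g ∈ PC P I) :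
    f * g ∈ PC P I := MC_mul P hf hg

theorem PC_smul (P : Subsemiring K) {c : K} (hc : c ∈ P) {f : CW K I} (hf : f ∈ PC P I) :
    c • f ∈ PC P I := MC_smul P hc hf

theorem PC_cy (P : Subsemiring K) (L : List I) : cy K L ∈ PC P I := MC_X P _

/-! ### words with a root -/

theorem PM_smul (P : Subsemiring K) {f : CW K I} (hf : f ∈ PC P I) {x : RW K I}
    (hx : x ∈ PM P I) : f • x ∈ PM P I := by
  intro L
  rw [Finsupp.smul_apply, smul_eq_mul]
  exact PC_mul P hf (hx L)

theorem PM_smulK (P : Subsemiring K) {c : K} (hc : c ∈ P) {x : RW K I} (hx : x ∈ PM P I) :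
    c • x ∈ PM P I := by
  intro L
  rw [Finsupp.smul_apply]
  exact PC_smul P hc (hx L)

theorem PM_single (P : Subsemiring K) (L : List I) {f : CW K I} (hf : f ∈ PC P I) :
    (Finsupp.single L f : RW K I) ∈ PM P I := by
  classical
  intro L'
  rw [Finsupp.single_apply]
  split_ifs
  · exact hf
  · exact zero_mem _

theorem PM_rw1 (P : Subsemiring K) (L : List I) : rw1 K L ∈ PM P I :=
  PM_single P L (MC_one P)

theorem PM_map (P : Subsemiring K) {W : Type} [AddCommMonoid W] (Q : AddSubmonoid W)
    (F : RW K I →+ W) (h : ∀ L, ∀ f ∈ PC P I, F (Finsupp.single L f) ∈ Q) {x : RW K I}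
    (hx : x ∈ PM P I) : F x ∈ Q := by
  have h1 : F x = ∑ L ∈ x.support, F (Finsupp.single L (x L)) := by
    conv_lhs => rw [← Finsupp.sum_single x]
    rw [Finsupp.sum, map_sum]
  rw [h1]
  exact sum_mem fun L _ => h L _ (hx L)

theorem PM_app (P : Subsemiring K) (L : List I) {x : RW K I} (hx : x ∈ PM P I) :
    app L x ∈ PM P I :=
  PM_map P (PM P I) (app L : RW K I →ₗ[CW K I] RW K I).toAddMonoidHom (fun L' f hf => by
    change app L (Finsupp.single L' f) ∈ _
    rw [app_single]
    exact PM_single P _ hf) hx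

theorem PM_pre (P : Subsemiring K) (L : List I) {x : RW K I} (hx : x ∈ PM P I) :
    pre L x ∈ PM P I :=
  PM_map P (PM P I) (pre L : RW K I →ₗ[CW K I] RW K I).toAddMonoidHom (fun L' f hf => by
    change pre L (Finsupp.single L' f) ∈ _
    rw [pre_single]
    exact PM_single P _ hf) hx

theorem PM_cat (P : Subsemiring K) {m x : RW K I} (hm : m ∈ PM P I) (hx : x ∈ PM P I) :
    cat m x ∈ PM P I :=
  PM_map P (PM P I) (cat m : RW K I →ₗ[CW K I] RW K I).toAddMonoidHom (fun L' f hf => by
    change cat m (Finsupp.single L' f) ∈ _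
    rw [cat_single]
    exact PM_smul P hf (PM_app P _ hm)) hx

theorem PC_clw (P : Subsemiring K) {x : RW K I} (hx : x ∈ PM P I) : clw K x ∈ PC P I :=
  PM_map P (PC P I) (clw K : RW K I →ₗ[CW K I] CW K I).toAddMonoidHom (fun L' f hf => by
    change clw K (Finsupp.single L' f) ∈ _
    rw [clw_single]
    exact PC_mul P hf (PC_cy P _)) hx

theorem spl_mem {α V : Type} [AddCommMonoid V] (Q : AddSubmonoid V)
    (φ : List α → α → List α → V) (h : ∀ X x Y, φ X x Y ∈ Q) (L : List α) : spl φ L ∈ Q := by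
  induction L generalizing φ with
  | nil =>
    rw [spl_nil]
    exact zero_mem _
  | cons l L ih =>
    rw [spl_cons]
    exact add_mem (h _ _ _) (ih _ fun X x Y => h _ _ _)

section
variable [DecidableEq I]

theorem PM_opn (P : Subsemiring K) {w1 w2 : K} (h1 : w1 ∈ P) (h2 : w2 ∈ P) (t : I) (L : List I) :
    opn w1 w2 t L ∈ PM P I := by
  refine spl_mem _ _ (fun X x Y => ?_) L
  split_ifs
  · exact add_mem (PM_smul P (MC_C P h1) (PM_rw1 P _)) (PM_smul P (MC_C P h2) (PM_rw1 P _))
  · exact zero_mem _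

theorem PM_tch (P : Subsemiring K) {b : K} (hb : b ∈ P) (t : I) (L : List I) :
    tch b t L ∈ PM P I := by
  refine spl_mem _ _ (fun X x Y => ?_) L
  split_ifs
  · exact add_mem (PM_smul P (PC_cy P _) (PM_rw1 P _)) (PM_smul P (MC_C P hb) (PM_rw1 P _))
  · exact zero_mem _

theorem PM_J_monomial (P : Subsemiring K) {w1 w2 : K} (h1 : w1 ∈ P) (h2 : w2 ∈ P) (t : I)
    (m : Cycle I →₀ ℕ) : J w1 w2 t (monomial m 1) ∈ PM P I := by
  have hmon : ∀ m : Cycle I →₀ ℕ, (monomial m 1 : CW K I) ∈ PC P I := by
    classical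
    intro m m'
    rw [coeff_monomial]
    split_ifs
    · exact one_mem _
    · exact zero_mem _
  have hX : ∀ z : Cycle I, J w1 w2 t (X z : CW K I) ∈ PM P I := by
    intro z
    unfold J
    rw [mkDerivation_X]
    exact PM_opn P h1 h2 t _
  induction m using Finsupp.induction_linear with
  | zero =>
    have h : (monomial (0 : Cycle I →₀ ℕ) 1 : CW K I) = 1 := rfl
    rw [h, Derivation.map_one_eq_zero]
    exact zero_mem _
  | add m m' hm hm' =>
    have h : (monomial (m + m') 1 : CW K I) = monomial m 1 * monomial m' 1 := by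
      rw [monomial_mul, mul_one]
    rw [h, Derivation.leibniz]
    exact add_mem (PM_smul P (hmon m) hm') (PM_smul P (hmon m') hm)
  | single z k =>
    have h : (monomial (Finsupp.single z k) 1 : CW K I) = X z ^ k := by
      rw [X_pow_eq_monomial]
    rw [h]
    induction k with
    | zero =>
      rw [pow_zero, Derivation.map_one_eq_zero]
      exact zero_mem _
    | succ k ih =>
      rw [pow_succ, Derivation.leibniz]
      exact add_mem (PM_smul P (MC_pow P (MC_X P z) k) (hX z))
        (PM_smul P (MC_X P z) (ih (by rw [X_pow_eq_monomial])))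

theorem PM_J (P : Subsemiring K) {w1 w2 : K} (h1 : w1 ∈ P) (h2 : w2 ∈ P) (t : I) {f : CW K I}
    (hf : f ∈ PC P I) : J w1 w2 t f ∈ PM P I :=
  MC_map P (PM P I) (fun c hc q hq => PM_smulK P hc hq)
    (J w1 w2 t : CW K I →ₗ[K] RW K I) (fun m => PM_J_monomial P h1 h2 t m) hf

theorem PM_T (P : Subsemiring K) {b w1 w2 : K} (hb : b ∈ P) (h1 : w1 ∈ P) (h2 : w2 ∈ P) (t : I)
    {x : RW K I} (hx : x ∈ PM P I) : T b w1 w2 t x ∈ PM P I :=
  PM_map P (PM P I) (T b w1 w2 t : RW K I →ₗ[K] RW K I).toAddMonoidHom (fun L' f hf => by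
    change T b w1 w2 t (Finsupp.single L' f) ∈ _
    unfold T
    rw [opr_single]
    exact add_mem (PM_smul P hf (PM_tch P hb t _)) (PM_app P _ (PM_J P h1 h2 t hf))) hx

/-- `(f, x) ↦ cat (J f) x` -/
def catJ (w1 w2 : K) (t : I) : CW K I →ₗ[K] RW K I →ₗ[K] RW K I :=
  LinearMap.mk₂ K (fun f x => cat (J w1 w2 t f) x)
    (fun f g x => by rw [map_add, cat_add])
    (fun c f x => by
      rw [Derivation.map_smul, ← C_smul, cat_smul, C_smul])
    (fun f x y => by rw [map_add])
    (fun c f x => by rw [← C_smul, map_smul, C_smul])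

/-- `(m, x) ↦ cat (ed t m) x` -/
def catE (t : I) : RW K I →ₗ[K] RW K I →ₗ[K] RW K I :=
  LinearMap.mk₂ K (fun m x => cat (ed K t m) x)
    (fun f g x => by rw [map_add, cat_add])
    (fun c f x => by
      rw [← C_smul, map_smul, cat_smul, C_smul])
    (fun f x y => by rw [map_add])
    (fun c f x => by rw [← C_smul, map_smul, C_smul])

theorem ed_single (t : I) (L : List I) (f : CW K I) :
    ed K t (Finsupp.single L f) = f • (if L.getLast? = some t then rw1 K L else 0) :=
  Finsupp.linearCombination_single _ _ _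

theorem ed_rw1 (t : I) (L : List I) :
    ed K t (rw1 K L) = if L.getLast? = some t then rw1 K L else 0 := by
  unfold rw1
  rw [ed_single, one_smul]
  rfl

theorem PM_ed (P : Subsemiring K) (t : I) {x : RW K I} (hx : x ∈ PM P I) : ed K t x ∈ PM P I :=
  PM_map P (PM P I) (ed K t : RW K I →ₗ[CW K I] RW K I).toAddMonoidHom (fun L' f hf => by
    change ed K t (Finsupp.single L' f) ∈ _
    rw [ed_single]
    refine PM_smul P hf ?_
    split_ifs
    · exact PM_rw1 P _
    · exact zero_mem _) hx

theorem ed_opn (w1 w2 : K) (t t' : I) (L : List I) :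
    ed K t (opn w1 w2 t' L) = if t = t' then opn w1 w2 t L else 0 := by
  have h := spl_hom (ed K t : RW K I →ₗ[CW K I] RW K I).toAddMonoidHom
    (fun X x Y => hop w1 w2 t' x (Y ++ X)) L
  have h' : ed K t (opn w1 w2 t' L) =
      spl (fun X x Y => ed K t (hop w1 w2 t' x (Y ++ X))) L := h
  rw [h']
  by_cases ht : t = t'
  · subst ht
    rw [if_pos rfl, opn_eq]
    apply spl_congr
    intro X x Y
    unfold hop
    split_ifs
    · rw [map_add, map_smul, map_smul, ed_rw1, ed_rw1, if_pos (by simp), if_pos (by simp)]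
    · rw [map_zero]
  · rw [if_neg ht, ← spl_zero L]
    apply spl_congr
    intro X x Y
    unfold hop
    have ht' : ¬ t' = t := fun h => ht h.symm
    split_ifs
    · rw [map_add, map_smul, map_smul, ed_rw1, ed_rw1, if_neg (by simp [ht']),
        if_neg (by simp [ht']), smul_zero, smul_zero, add_zero]
    · rw [map_zero]

theorem ed_J (w1 w2 : K) (t t' : I) (f : CW K I) :
    ed K t (J w1 w2 t' f) = if t = t' then J w1 w2 t f else 0 := by
  induction f using MvPolynomial.induction_on with
  | C c =>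
    rw [derivation_C, derivation_C, map_zero]
    simp
  | add f g hf hg =>
    rw [map_add, map_add, map_add, hf, hg]
    split_ifs
    · rfl
    · rw [add_zero]
  | mul_X f z hf =>
    rw [Derivation.leibniz, Derivation.leibniz, map_add, map_smul, map_smul, hf]
    unfold J
    rw [mkDerivation_X, mkDerivation_X, ed_opn]
    split_ifs
    · rfl
    · rw [smul_zero, smul_zero, add_zero]

end

/-! ### families -/

theorem PP_sum {V : Type} [AddCommGroup V] [Module K V] {A ι : Type} (P : AddSubmonoid V)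
    (s : Finset ι) (G : ι → (A → K) → V) (h : ∀ i ∈ s, G i ∈ PP K A P) :
    (fun v => ∑ i ∈ s, G i v) ∈ PP K A P := by
  have h1 : (fun v => ∑ i ∈ s, G i v) = ∑ i ∈ s, G i := by
    funext v
    rw [Finset.sum_apply]
  rw [h1]
  exact sum_mem h

theorem PP_add {V : Type} [AddCommGroup V] [Module K V] {A : Type} (P : AddSubmonoid V)
    {F G : (A → K) → V} (hF : F ∈ PP K A P) (hG : G ∈ PP K A P) :
    (fun v => F v + G v) ∈ PP K A P := add_mem hF hG

theorem conem (K I : Type) [Field K] [DecidableEq I] [Fintype I] (hP : PPSt K) (hR : RulSt K I)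
    (hA : RulASt K I) : ConeSt K I where
  one := by
    intro A P
    exact hP.const A (PM P I) (iw K 1) (PM_single P [] (MC_one P))
  Aw := by
    intro A P b w1 w2 hb h1 h2 u s hu hs F hF
    have h : (fun v => Aw b w1 w2 (u v) (s v) (F v)) =
        fun v => ∑ t, s v t • pre [t] (u v t • F v + T b w1 w2 t (F v)) := by
      funext v
      exact hA.Aw_apply b w1 w2 (u v) (s v) (F v)
    rw [h]
    refine PP_sum (PM P I) Finset.univ
      (fun t v => s v t • pre [t] (u v t • F v + T b w1 w2 t (F v))) fun t _ => ?_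
    have hsm : ∀ c ∈ P, ∀ q ∈ PM P I, c • q ∈ PM P I := fun c hc q hq => PM_smulK P hc hq
    have h3 := hP.smul A P (PM P I) hsm _ (hu t) F hF
    have h4 := hP.lin A (PM P I) (PM P I) (T b w1 w2 t : RW K I →ₗ[K] RW K I)
      (fun p hp => PM_T P hb h1 h2 t hp) F hF
    have h5 := PP_add (PM P I) h3 h4
    have h6 := hP.lin A (PM P I) (PM P I)
      ((pre [t] : RW K I →ₗ[CW K I] RW K I).restrictScalars K)
      (fun p hp => PM_pre P [t] hp) _ h5
    exact hP.smul A P (PM P I) hsm _ (hs t) _ h6
  clw := by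
    intro A P F hF a
    have h1 := hP.lin A (PM P I) (PC P I) ((clw K : RW K I →ₗ[CW K I] CW K I).restrictScalars K)
      (fun p hp => PC_clw P hp) F hF
    exact hP.smul A P (PC P I) (fun c hc q hq => PC_smul P hc hq) _ (hP.var A P a) _ h1
  Dop := by
    intro A P c w1 w2 h1 h2 s hs f hf F hF
    have h : (fun v => c • Dop (s v) (fun t => J w1 w2 t (f v)) (F v)) =
        fun v => ∑ t, s v t • pre [t] (catJ (c * w1) (c * w2) t (f v) (F v)) := by
      funext v
      rw [hA.Dop_apply, Finset.smul_sum]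
      refine Finset.sum_congr rfl fun t _ => ?_
      have h3 : catJ (c * w1) (c * w2) t (f v) (F v) = c • cat (J w1 w2 t (f v)) (F v) := by
        have h4 := hR.J_add c 0 w1 w2 0 0 t (f v)
        rw [zero_mul, add_zero, add_zero, zero_smul, add_zero] at h4
        change cat (J (c * w1) (c * w2) t (f v)) (F v) = _
        rw [h4, ← C_smul, cat_smul, C_smul]
      rw [h3, C_smul, smul_comm c (s v t)]
      congr 1
      rw [← C_smul, ← C_smul, map_smul]
    rw [h]
    refine PP_sum (PM P I) Finset.univ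
      (fun t v => s v t • pre [t] (catJ (c * w1) (c * w2) t (f v) (F v))) fun t _ => ?_
    have h3 := hP.bilin A (PC P I) (PM P I) (PM P I) (catJ (c * w1) (c * w2) t)
      (fun p hp q hq => PM_cat P (PM_J P h1 h2 t hp) hq) f hf F hF
    have h6 := hP.lin A (PM P I) (PM P I)
      ((pre [t] : RW K I →ₗ[CW K I] RW K I).restrictScalars K)
      (fun p hp => PM_pre P [t] hp) _ h3
    exact hP.smul A P (PM P I) (fun c hc q hq => PM_smulK P hc hq) _ (hs t) _ h6
  fgt := by
    intro A P F hF
    refine hP.lin A (PC P I) (PL P) (fgt K I).toLinearMap (fun p hp => ?_) F hF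
    refine MC_map P (PL P) (fun c hc q hq => MC_smul P hc hq) (fgt K I).toLinearMap
      (fun m => ?_) hp
    change fgt K I (monomial m 1) ∈ PL P
    unfold fgt
    rw [aeval_monomial, map_one, one_mul]
    exact Finset.prod_induction _ (fun f => f ∈ PL P) (fun f g hf hg => MC_mul P hf hg)
      (MC_one P) fun z _ => MC_pow P (MC_X P _) _
  coeff := by
    intro A P e F hF
    exact hP.lin A (PL P) P.toAddSubmonoid (MvPolynomial.lcoeff K e) (fun p hp => hp e) F hF

theorem edm (K I : Type) [Field K] [DecidableEq I] [Fintype I] (hP : PPSt K) (hR : RulSt K I)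
    (hA : RulASt K I) : EdSt K I where
  J := ed_J
  Dop := by
    intro A P s hs m hm F hF
    have h : (fun v => Dop (s v) (fun t => ed K t (m v)) (F v)) =
        fun v => ∑ t, s v t • pre [t] (catE t (m v) (F v)) := by
      funext v
      rw [hA.Dop_apply]
      refine Finset.sum_congr rfl fun t _ => ?_
      rw [C_smul]
      rfl
    rw [h]
    refine PP_sum (PM P I) Finset.univ
      (fun t v => s v t • pre [t] (catE t (m v) (F v))) fun t _ => ?_
    have h3 := hP.bilin A (PM P I) (PM P I) (PM P I) (catE t)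
      (fun p hp q hq => PM_cat P (PM_ed P t hp) hq) m hm F hF
    have h6 := hP.lin A (PM P I) (PM P I)
      ((pre [t] : RW K I →ₗ[CW K I] RW K I).restrictScalars K)
      (fun p hp => PM_pre P [t] hp) _ h3
    exact hP.smul A P (PM P I) (fun c hc q hq => PM_smulK P hc hq) _ (hs t) _ h6

end

end Pool.Agent.MJL
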