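import Pool.Agent.MJL.St

/-!
Extraction for the marginals.
-/

namespace Pool.Agent.MJL

open MvPolynomial

noncomputable section

namespace ExtMx

variable {K : Type} [Field K]

/-- the exponent of the parts -/
def D (s : Multiset ℕ) : (ℕ ⊕ Bool) →₀ ℕ := Multiset.toFinsupp (s.map Sum.inl)

lemma D_inl (s : Multiset ℕ) (k : ℕ) : D s (Sum.inl k) = s.count k := by
  unfold D
  rw [Multiset.toFinsupp_apply, Multiset.count_map_eq_count' _ _ Sum.inl_injective]

lemma prod_X (s : Multiset ℕ) :
    (s.map fun k => (X (Sum.inl k) : MvPolynomial (ℕ ⊕ Bool) K)).prod = monomial (D s) 1 := by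
  induction s using Multiset.induction_on with
  | empty =>
    rw [Multiset.map_zero, Multiset.prod_zero]
    unfold D
    rw [Multiset.map_zero, map_zero]
    rfl
  | cons k s ih =>
    rw [Multiset.map_cons, Multiset.prod_cons, ih]
    have h1 : D (k ::ₘ s) = Finsupp.single (Sum.inl k) 1 + D s := by
      unfold D
      rw [Multiset.map_cons, ← Multiset.singleton_add, map_add, Multiset.toFinsupp_singleton]
    rw [h1]
    change monomial (Finsupp.single (Sum.inl k) 1) (1 : K) * monomial (D s) 1 = _
    rw [monomial_mul, one_mul]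

lemma inr_inl (e : Bool →₀ ℕ) (k : ℕ) : (e.mapDomain (Sum.inr : Bool → ℕ ⊕ Bool)) (Sum.inl k) = 0 :=
  Finsupp.mapDomain_of_notMem_range _ _ (by rintro ⟨x, hx⟩; exact absurd hx (by simp))

lemma coeff_ne (r t : Multiset ℕ) (hrt : r ≠ t) (e : Bool →₀ ℕ) (f : MvPolynomial Bool K) :
    coeff (D t + e.mapDomain Sum.inr) (monomial (D r) 1 * rename Sum.inr f) = 0 := by
  rw [coeff_monomial_mul']
  split_ifs with h
  · rw [one_mul]
    apply coeff_rename_eq_zero
    intro u hu
    exfalso
    apply hrt
    ext k
    have h1 := DFunLike.congr_fun hu (Sum.inl k)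
    have h2 := h (Sum.inl k)
    rw [inr_inl, Finsupp.tsub_apply, Finsupp.add_apply, inr_inl, D_inl, D_inl] at h1
    rw [Finsupp.add_apply, inr_inl, D_inl, D_inl] at h2
    omega
  · rfl

lemma coeff_eq (t : Multiset ℕ) (e : Bool →₀ ℕ) (f : MvPolynomial Bool K) :
    coeff (D t + e.mapDomain Sum.inr) (monomial (D t) 1 * rename Sum.inr f) = coeff e f := by
  rw [coeff_monomial_mul, one_mul, coeff_rename_mapDomain _ Sum.inr_injective]

end ExtMx

open ExtMx in
theorem extM (K : Type) [Field K] [CharZero K] (hP : PPSt K) : ExtMSt K := by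
  intro P w n a t hF e
  obtain ⟨Q, hQ, hQe⟩ := hP.poly _ P _ hF
  let G : MvPolynomial (ℕ ⊕ Bool) K := ∑ r : n.Partition, ∑ r' : n.Partition,
    C (a r r') * ((r.parts.map fun k => X (Sum.inl k)).prod * rename Sum.inr (mg w r'))
  have hQG : Q = G := by
    apply MvPolynomial.funext
    intro v
    rw [hQe]
    simp only [G, map_sum, map_mul, eval_C]
    refine Finset.sum_congr rfl fun r _ => Finset.sum_congr rfl fun r' _ => ?_
    congr 2
    · rw [map_multiset_prod, Multiset.map_map]
      congr 1
      refine Multiset.map_congr rfl fun k _ => ?_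
      rw [Function.comp_apply, eval_X]
    · rw [eval_rename]
      unfold mg
      rw [map_multiset_prod, Multiset.map_map]
      congr 1
      refine Multiset.map_congr rfl fun k _ => ?_
      simp
  have h := hQ (D t.parts + e.mapDomain Sum.inr)
  rw [hQG] at h
  have h2 : coeff (D t.parts + e.mapDomain Sum.inr) G =
      ∑ nu : n.Partition, a t nu * coeff e (mg w nu) := by
    simp only [G, coeff_sum, coeff_C_mul, prod_X]
    rw [Finset.sum_eq_single t]
    · exact Finset.sum_congr rfl fun r' _ => by rw [coeff_eq]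
    · intro r _ hr
      refine Finset.sum_eq_zero fun r' _ => ?_
      rw [coeff_ne _ _ (fun h' => hr (Nat.Partition.ext h')), mul_zero]
    · intro h'
      exact absurd (Finset.mem_univ t) h'
  rw [h2] at h
  exact h

end

end Pool.Agent.MJL
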