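import Pool.Agent.MJL.St

/-!
# MJL [Lgm]: logarithmic derivatives of power series (helper86)
-/

set_option autoImplicit false

namespace Pool.Agent.MJL

open MvPolynomial Pool.Agent.MJR

private theorem lgm_mul {K S : Type} [Field K] [CommRing S] [Algebra K S] (al : K)
    (F : PowerSeries S) (hF : PowerSeries.constantCoeff F = 1) :
    lg al F * F = PowerSeries.mk fun n => (al * (n : K)) • PowerSeries.coeff n F := by
  unfold lg
  have h : PowerSeries.invOfUnit F 1 * F = 1 := by
    rw [mul_comm]
    exact PowerSeries.mul_invOfUnit F 1 (by rw [hF]; simp)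
  rw [mul_assoc, h, mul_one]

private theorem lgm_uniq {K S : Type} [Field K] [CommRing S] [Algebra K S] (al : K)
    (F G : PowerSeries S) (hF : PowerSeries.constantCoeff F = 1)
    (h : ∀ n : ℕ, PowerSeries.coeff n (G * F) = (al * (n : K)) • PowerSeries.coeff n F) :
    G = lg al F := by
  have h1 : G * F = lg al F * F := by
    rw [lgm_mul al F hF]
    ext n
    rw [h n, PowerSeries.coeff_mk]
  have h2 : F * PowerSeries.invOfUnit F 1 = 1 :=
    PowerSeries.mul_invOfUnit F 1 (by rw [hF]; simp)
  calc G = G * F * PowerSeries.invOfUnit F 1 := by rw [mul_assoc, h2, mul_one]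
    _ = lg al F * F * PowerSeries.invOfUnit F 1 := by rw [h1]
    _ = lg al F := by rw [mul_assoc, h2, mul_one]

/-- **LGM** -/
theorem lgm (K : Type) [Field K] : LgSt K where
  mul := by
    intro S _ _ al F hF n
    rw [lgm_mul al F hF, PowerSeries.coeff_mk]
  uniq := by
    intro S _ _ al F G hF h
    exact lgm_uniq al F G hF h
  zero := by
    intro S _ _ al F hF
    unfold lg
    rw [PowerSeries.coeff_zero_eq_constantCoeff_apply, map_mul,
      ← PowerSeries.coeff_zero_eq_constantCoeff_apply, PowerSeries.coeff_mk]
    simp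
  map := by
    intro S S' _ _ _ _ al h F hF
    apply lgm_uniq
    · rw [← PowerSeries.coeff_zero_eq_constantCoeff_apply, PowerSeries.coeff_map,
        PowerSeries.coeff_zero_eq_constantCoeff_apply, hF]
      simp
    · intro n
      rw [← map_mul, lgm_mul al F hF, PowerSeries.coeff_map, PowerSeries.coeff_map,
        PowerSeries.coeff_mk]
      exact h.map_smul_of_tower (al * (n : K)) _
  psi := by
    intro al J psi h0 h
    apply lgm_uniq al (phi al J) psi h0
    intro n
    rw [h n, MvPolynomial.smul_eq_C_mul]

end Pool.Agent.MJL
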