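import Pool.Agent.MJL.St

/-!
General rules for the families of parameters (module PPm).
-/

namespace Pool.Agent.MJL

open MvPolynomial

noncomputable section

namespace PPm

variable {K : Type} [Field K]

theorem gen {V : Type} [AddCommGroup V] [Module K V] {A : Type} {P : AddSubmonoid V}
    (e : A →₀ ℕ) (p : V) (hp : p ∈ P) :
    (fun v : A → K => (e.prod fun i n => v i ^ n) • p) ∈ PP K A P :=
  AddSubmonoid.subset_closure ⟨e, p, hp, rfl⟩

theorem const {V : Type} [AddCommGroup V] [Module K V] (A : Type) (P : AddSubmonoid V) (p : V)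
    (hp : p ∈ P) : (fun _ : A → K => p) ∈ PP K A P := by
  have h := gen (K := K) (A := A) (0 : A →₀ ℕ) p hp
  simpa using h

theorem lin {V W : Type} [AddCommGroup V] [Module K V] [AddCommGroup W] [Module K W] (A : Type)
    (P : AddSubmonoid V) (Q : AddSubmonoid W) (f : V →ₗ[K] W) (hf : ∀ p ∈ P, f p ∈ Q)
    (F : (A → K) → V) (hF : F ∈ PP K A P) : (fun v => f (F v)) ∈ PP K A Q := by
  unfold PP at hF
  induction hF using AddSubmonoid.closure_induction with
  | mem F hF =>
    obtain ⟨e, p, hp, rfl⟩ := hF
    simp only [map_smul]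
    exact gen e (f p) (hf p hp)
  | zero =>
    have h : (fun v : A → K => f ((0 : (A → K) → V) v)) = 0 := by
      funext v
      simp
    rw [h]
    exact zero_mem _
  | add F G _ _ h1 h2 =>
    have h : (fun v : A → K => f ((F + G) v)) = (fun v => f (F v)) + (fun v => f (G v)) := by
      funext v
      simp
    rw [h]
    exact add_mem h1 h2

theorem bilin {U V W : Type} [AddCommGroup U] [Module K U] [AddCommGroup V] [Module K V]
    [AddCommGroup W] [Module K W] (A : Type) (P : AddSubmonoid U) (Q : AddSubmonoid V)
    (R : AddSubmonoid W) (f : U →ₗ[K] V →ₗ[K] W) (hf : ∀ p ∈ P, ∀ q ∈ Q, f p q ∈ R)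
    (F : (A → K) → U) (hF : F ∈ PP K A P) (G : (A → K) → V) (hG : G ∈ PP K A Q) :
    (fun v => f (F v) (G v)) ∈ PP K A R := by
  unfold PP at hF
  induction hF using AddSubmonoid.closure_induction with
  | mem F hF =>
    obtain ⟨e, p, hp, rfl⟩ := hF
    unfold PP at hG
    induction hG using AddSubmonoid.closure_induction with
    | mem G hG =>
      obtain ⟨e', q, hq, rfl⟩ := hG
      have h : (fun v : A → K => f ((e.prod fun i n => v i ^ n) • p)
          ((e'.prod fun i n => v i ^ n) • q)) =
          fun v : A → K => (((e + e').prod fun i n => v i ^ n) • f p q) := by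
        funext v
        rw [map_smul, map_smul, LinearMap.smul_apply, smul_smul,
          Finsupp.prod_add_index' (fun i => pow_zero _) (fun i m n => pow_add _ _ _), mul_comm]
      rw [h]
      exact gen (e + e') (f p q) (hf p hp q hq)
    | zero =>
      have h : (fun v : A → K => f ((e.prod fun i n => v i ^ n) • p)
          ((0 : (A → K) → V) v)) = 0 := by
        funext v
        simp
      rw [h]
      exact zero_mem _
    | add G H _ _ h1 h2 =>
      have h : (fun v : A → K => f ((e.prod fun i n => v i ^ n) • p) ((G + H) v)) =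
          (fun v : A → K => f ((e.prod fun i n => v i ^ n) • p) (G v)) +
          (fun v : A → K => f ((e.prod fun i n => v i ^ n) • p) (H v)) := by
        funext v
        rw [Pi.add_apply, Pi.add_apply, map_add]
      rw [h]
      exact add_mem h1 h2
  | zero =>
    have h : (fun v : A → K => f ((0 : (A → K) → U) v) (G v)) = 0 := by
      funext v
      simp
    rw [h]
    exact zero_mem _
  | add F H _ _ h1 h2 =>
    have h : (fun v : A → K => f ((F + H) v) (G v)) =
        (fun v : A → K => f (F v) (G v)) + (fun v : A → K => f (H v) (G v)) := by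
      funext v
      rw [Pi.add_apply, Pi.add_apply, map_add, LinearMap.add_apply]
    rw [h]
    exact add_mem h1 h2

theorem var (A : Type) (P : Subsemiring K) (a : A) :
    (fun v : A → K => v a) ∈ PP K A P.toAddSubmonoid := by
  have h := gen (K := K) (A := A) (P := P.toAddSubmonoid) (Finsupp.single a 1) (1 : K)
    (one_mem P)
  have h2 : (fun v : A → K => ((Finsupp.single a 1 : A →₀ ℕ).prod fun i n => v i ^ n) • (1 : K))
      = fun v : A → K => v a := by
    funext v
    have h3 : ((Finsupp.single a 1 : A →₀ ℕ).prod fun i n => v i ^ n) = v a := by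
      rw [Finsupp.prod_single_index (h := fun i n => v i ^ n) (pow_zero _), pow_one]
    rw [h3, smul_eq_mul, mul_one]
  rwa [h2] at h

theorem poly (A : Type) (P : Subsemiring K) (F : (A → K) → K)
    (hF : F ∈ PP K A P.toAddSubmonoid) :
    ∃ Q : MvPolynomial A K, (∀ e, coeff e Q ∈ P) ∧ ∀ v, eval v Q = F v := by
  classical
  unfold PP at hF
  induction hF using AddSubmonoid.closure_induction with
  | mem F hF =>
    obtain ⟨e, p, hp, rfl⟩ := hF
    refine ⟨monomial e p, fun e' => ?_, fun v => ?_⟩
    · rw [coeff_monomial]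
      split_ifs
      · exact hp
      · exact zero_mem _
    · rw [eval_monomial]
      exact mul_comm _ _
  | zero => exact ⟨0, fun e => by rw [coeff_zero]; exact zero_mem _, fun v => by simp⟩
  | add F G _ _ h1 h2 =>
    obtain ⟨Q1, hQ1, hQ1'⟩ := h1
    obtain ⟨Q2, hQ2, hQ2'⟩ := h2
    refine ⟨Q1 + Q2, fun e => ?_, fun v => ?_⟩
    · rw [coeff_add]; exact add_mem (hQ1 e) (hQ2 e)
    · rw [map_add, hQ1', hQ2', Pi.add_apply]

end PPm

theorem pPm (K : Type) [Field K] : PPSt K where
  const := fun A P p hp => PPm.const A P p hp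
  lin := fun A P Q f hf F hF => PPm.lin A P Q f hf F hF
  bilin := fun A P Q R f hf F hF G hG => PPm.bilin A P Q R f hf F hF G hG
  var := fun A P a => PPm.var A P a
  smul := fun A P Q h F hF G hG =>
    PPm.bilin A P.toAddSubmonoid Q Q (LinearMap.lsmul K _) (fun p hp q hq => h p hp q hq)
      F hF G hG
  poly := fun A P F hF => PPm.poly A P F hF

end

end Pool.Agent.MJL
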