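import Pool.Agent.MJL.St
import Pool.Agent.MJR.RecAM

/-!
Sums over compositions: the recursions.
-/

namespace Pool.Agent.MJL

open MvPolynomial Pool.Agent.MJR
open Pool.Agent.MJF (spl Stt inc cls)

noncomputable section

namespace SSm

theorem zero' {K R V : Type} [Field K] [CommRing R] [AddCommGroup V] [Module K V] [Module R V]
    (al : K) (x : ℕ → R) (f : List ℕ → V) : SS al x 0 f = f [] := by
  rw [SS]

theorem succ' {K R V : Type} [Field K] [CommRing R] [AddCommGroup V] [Module K V] [Module R V]
    (al : K) (x : ℕ → R) (n : ℕ) (f : List ℕ → V) (hn : n ≠ 0) : SS al x n f =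
    (al * (n : K))⁻¹ • ∑ k ∈ Finset.Icc 1 n, x k • SS al x (n - k) (fun p => f (k :: p)) := by
  obtain ⟨m, rfl⟩ := Nat.exists_eq_succ_of_ne_zero hn
  rw [SS]
  congr 1
  have h1 := Fin.sum_univ_eq_sum_range
    (fun k : ℕ => x (k + 1) • SS al x (m - k) (fun p => f ((k + 1 : ℕ) :: p))) (m + 1)
  rw [h1]
  have h2 : Finset.Icc 1 (m + 1) = Finset.Ico (0 + 1) (m + 1 + 1) := by
    ext k
    simp only [Finset.mem_Icc, Finset.mem_Ico]
    omega
  have h3 : m.succ = m + 1 := rfl
  rw [h3, h2, ← Finset.sum_Ico_add', Finset.range_eq_Ico]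
  apply Finset.sum_congr rfl
  intro k _
  rw [Nat.add_sub_add_right]

theorem congr' {K R V : Type} [Field K] [CommRing R] [AddCommGroup V] [Module K V] [Module R V]
    (al : K) (x : ℕ → R) (n : ℕ) : ∀ f g : List ℕ → V,
    (∀ p : List ℕ, p.sum = n → (∀ k ∈ p, k ≠ 0) → f p = g p) → SS al x n f = SS al x n g := by
  induction n using Nat.strong_induction_on with
  | _ n ih =>
    intro f g h
    rcases Nat.eq_zero_or_pos n with h0 | h0
    · subst h0
      rw [zero', zero']
      exact h [] rfl (by simp)
    · rw [succ' al x n f h0.ne', succ' al x n g h0.ne']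
      congr 1
      apply Finset.sum_congr rfl
      intro k hk
      rw [Finset.mem_Icc] at hk
      congr 1
      apply ih (n - k) (by omega)
      intro p hp hp0
      apply h (k :: p)
      · rw [List.sum_cons, hp]
        omega
      · intro j hj
        rcases List.mem_cons.1 hj with rfl | hj
        · omega
        · exact hp0 j hj

theorem map' {K R R' V W : Type} [Field K] [CommRing R] [CommRing R'] [AddCommGroup V]
    [Module K V] [Module R V] [AddCommGroup W] [Module K W] [Module R' W] (al : K) (x : ℕ → R)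
    (x' : ℕ → R') (F : V →ₗ[K] W) (hF : ∀ k v, F (x k • v) = x' k • F v) (n : ℕ) :
    ∀ f : List ℕ → V, F (SS al x n f) = SS al x' n (fun p => F (f p)) := by
  induction n using Nat.strong_induction_on with
  | _ n ih =>
    intro f
    rcases Nat.eq_zero_or_pos n with h0 | h0
    · subst h0
      rw [zero', zero']
    · rw [succ' al x n f h0.ne', succ' al x' n _ h0.ne', map_smul, map_sum]
      congr 1
      apply Finset.sum_congr rfl
      intro k hk
      rw [Finset.mem_Icc] at hk
      rw [hF, ih (n - k) (by omega)]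

end SSm

theorem sSm (K : Type) [Field K] : SSmSt K where
  zero := fun al x f => SSm.zero' al x f
  succ := fun al x n f hn => SSm.succ' al x n f hn
  congr := fun al x n f g h => SSm.congr' al x n f g h
  map := fun al x x' F hF n f => SSm.map' al x x' F hF n f

namespace SSm

variable {K : Type} [Field K]

/-- evaluation of the first alphabet -/
def ev (x : ℕ → K) : B2 K →ₐ[K] Lam K :=
  aeval fun a : Fin 2 × ℕ => if a.1 = 0 then C (x a.2) else X a.2

theorem ev_ix (x : ℕ → K) {n : ℕ} (r : n.Partition) :
    ev x (ix (pp K r)) = C ((r.parts.map x).prod) := by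
  unfold pp ix ev
  rw [map_multiset_prod, map_multiset_prod, map_multiset_prod, Multiset.map_map, Multiset.map_map,
    Multiset.map_map]
  congr 1
  apply Multiset.map_congr rfl
  intro k _
  simp

theorem ev_iy (x : ℕ → K) {n : ℕ} (r : n.Partition) : ev x (iy (pp K r)) = pp K r := by
  unfold pp iy ev
  rw [map_multiset_prod, map_multiset_prod, Multiset.map_map, Multiset.map_map]
  congr 1
  apply Multiset.map_congr rfl
  intro k _
  simp

/-- the right side -/
def G (al : K) (x : ℕ → K) (n : ℕ) : Lam K :=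
  ∑ r : n.Partition, ((r.parts.map x).prod * (wtp al r)⁻¹) • pp K r

theorem ev_AA (al : K) (x : ℕ → K) (n : ℕ) :
    ev x (PowerSeries.coeff n (AA al LinearMap.id)) = G al x n := by
  rw [AA, PowerSeries.coeff_mk, map_sum, G]
  apply Finset.sum_congr rfl
  intro r _
  rw [map_mul, map_mul, LinearMap.id_apply, ev_ix, ev_iy]
  have h1 : ev x (C (wtp al r)⁻¹) = C (wtp al r)⁻¹ := by
    unfold ev
    rw [aeval_C]
    rfl
  rw [h1, ← C_mul, smul_eq_C_mul, mul_comm (wtp al r)⁻¹]

theorem comm_id (k : ℕ) : Pool.Agent.MJR.comm (LinearMap.id : Lam K →ₗ[K] Lam K) k = 0 := by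
  unfold Pool.Agent.MJR.comm
  rw [LinearMap.id_comp, LinearMap.comp_id, sub_self]

theorem AA_zero (al : K) (n : ℕ) :
    PowerSeries.coeff n (AA al (0 : Lam K →ₗ[K] Lam K)) = 0 := by
  rw [AA, PowerSeries.coeff_mk]
  apply Finset.sum_eq_zero
  intro r _
  rw [LinearMap.zero_apply, map_zero, mul_zero]

theorem G_rec [CharZero K] (al : K) (hal : al ≠ 0) (x : ℕ → K) (n : ℕ) :
    (al * (n : K)) • G al x n = ∑ k ∈ Finset.Icc 1 n, x k • ((X k : Lam K) * G al x (n - k)) := by
  have h := congrArg (ev x) (recA K al hal LinearMap.id n)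
  rw [map_mul, ev_AA, map_sum] at h
  have h1 : ev x (C (al * (n : K))) = C (al * (n : K)) := by
    unfold ev
    rw [aeval_C]
    rfl
  rw [h1, ← smul_eq_C_mul] at h
  rw [h]
  apply Finset.sum_congr rfl
  intro k _
  rw [comm_id, AA_zero, add_zero, map_mul, map_mul, ev_AA]
  have h2 : ev x (X ((0 : Fin 2), k)) = C (x k) := by
    unfold ev
    rw [aeval_X]
    simp
  have h3 : ev x (X ((1 : Fin 2), k)) = X k := by
    unfold ev
    rw [aeval_X]
    simp
  rw [h2, h3, smul_eq_C_mul]

theorem G_zero (al : K) (x : ℕ → K) : G al x 0 = 1 := by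
  have h1 : ∀ r : (0 : ℕ).Partition, r.parts = 0 := by
    intro r
    have h := r.parts_sum
    by_contra hne
    obtain ⟨i, hi⟩ := Multiset.exists_mem_of_ne_zero hne
    have h2 := r.parts_pos hi
    have h3 := Multiset.single_le_sum (fun _ _ => Nat.zero_le _) i hi
    omega
  unfold G
  rw [Fintype.sum_unique]
  have h2 := h1 (default : (0 : ℕ).Partition)
  unfold wtp zed pp
  rw [h2]
  simp

end SSm

theorem sSX (K : Type) [Field K] [CharZero K] : SSXSt K := by
  intro al hal x n
  change SS al x n (fun p => ((p.map fun k => (X k : Lam K)).prod : Lam K)) = SSm.G al x n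
  induction n using Nat.strong_induction_on with
  | _ n ih =>
    rcases Nat.eq_zero_or_pos n with h0 | h0
    · subst h0
      rw [SSm.zero', SSm.G_zero]
      simp
    · rw [SSm.succ' al x n _ h0.ne']
      have hne : al * (n : K) ≠ 0 := mul_ne_zero hal (Nat.cast_ne_zero.2 h0.ne')
      have h1 : ∑ k ∈ Finset.Icc 1 n, x k • SS al x (n - k)
          (fun p => (((k :: p).map fun k => (X k : Lam K)).prod : Lam K)) =
          ∑ k ∈ Finset.Icc 1 n, x k • ((X k : Lam K) * SSm.G al x (n - k)) := by
        apply Finset.sum_congr rfl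
        intro k hk
        rw [Finset.mem_Icc] at hk
        rw [← ih (n - k) (by omega)]
        congr 1
        have h2 := SSm.map' al x x (LinearMap.mulLeft K (X k : Lam K))
          (fun j v => by rw [map_smul]) (n - k)
          (fun p => ((p.map fun k => (X k : Lam K)).prod : Lam K))
        rw [LinearMap.mulLeft_apply] at h2
        rw [h2]
        apply SSm.congr'
        intro p _ _
        rw [List.map_cons, List.prod_cons, LinearMap.mulLeft_apply]
      rw [h1, ← SSm.G_rec al hal x n, smul_smul, inv_mul_cancel₀ hne, one_smul]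

theorem sSKw (K I : Type) [Field K] [DecidableEq I] [Fintype I] : SSKwSt K I := by
  intro al b w1 w2 u s x n hn
  rw [SSm.succ' al x n _ hn]
  congr 1
  apply Finset.sum_congr rfl
  intro k _
  congr 1
  have h := SSm.map' al x x (((clw K : RW K I →ₗ[CW K I] CW K I).restrictScalars K) ∘ₗ
    (Aw b w1 w2 u s ^ k) ∘ₗ (iw K : CW K I →ₗ[K] RW K I)) (fun j v => by rw [map_smul]) (n - k)
    (Kw b w1 w2 u s)
  exact h.symm

end

end Pool.Agent.MJL
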