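import Pool.Agent.MJL.Fin2
import Pool.Agent.MJL.Conem
import Pool.Agent.MJL.Homm
import Pool.Agent.MJL.Lgm
import Pool.Agent.MJL.SSm
import Pool.Agent.MJL.ExtM
import Pool.Agent.MJL.Rul
import Pool.Agent.MJL.PPm

/-!
The sums of the coefficients `h` over the partitions with a marked set of parts.
-/

namespace Pool.Agent.MJL

open MvPolynomial Pool.Agent.MJR

noncomputable section

/-- The coefficients of the marginal polynomial. -/
lemma coeff_mg {K : Type} [Field K] (s : Multiset ℕ) (e : Bool →₀ ℕ) :
    coeff e ((s.map fun k => (X false + C 1 * X true ^ k : MvPolynomial Bool K)).prod) =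
    (((Multiset.powersetCard (e false) s).filter fun a => a.sum + e true = s.sum).card : K) := by
  induction s using Multiset.induction_on generalizing e with
  | empty =>
    rw [Multiset.map_zero, Multiset.prod_zero, coeff_one]
    rcases h : e false with _ | l
    · rw [Multiset.powersetCard_zero_left, Multiset.filter_singleton]
      simp only [Multiset.sum_zero, zero_add]
      by_cases h2 : e true = 0
      · have h3 : 0 = e := by
          ext t
          cases t
          · rw [h]; rfl
          · rw [h2]; rfl
        rw [if_pos h3, if_pos h2, Multiset.card_singleton, Nat.cast_one]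
      · rw [if_neg, if_neg h2, Multiset.empty_eq_zero, Multiset.card_zero, Nat.cast_zero]
        intro h3
        rw [← h3] at h2
        exact h2 rfl
    · rw [Multiset.powersetCard_zero_right, Multiset.filter_zero, Multiset.card_zero,
        Nat.cast_zero, if_neg]
      intro h3
      rw [← h3] at h
      exact absurd h (by simp)
  | cons k s ih =>
    have hk : (C 1 * X true ^ k : MvPolynomial Bool K) = X true ^ k := by rw [C_1, one_mul]
    rw [Multiset.map_cons, Multiset.prod_cons, add_mul, coeff_add, hk]
    have h1 : coeff e (X true ^ k * (s.map fun k => (X false + C 1 * X true ^ k :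
        MvPolynomial Bool K)).prod) =
        (((Multiset.powersetCard (e false) s).filter fun a => a.sum + e true = k + s.sum).card :
          K) := by
      rw [X_pow_eq_monomial, coeff_monomial_mul', one_mul]
      split_ifs with hkj
      · rw [ih]
        have h2 : (e - Finsupp.single true k) false = e false := by
          rw [Finsupp.tsub_apply, Finsupp.single_apply, if_neg (by decide), Nat.sub_zero]
        have h3 : (e - Finsupp.single true k) true = e true - k := by
          rw [Finsupp.tsub_apply, Finsupp.single_apply, if_pos rfl]
        have h4 : k ≤ e true := by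
          have := hkj true
          rwa [Finsupp.single_apply, if_pos rfl] at this
        rw [h2, h3]
        congr 2
        refine Multiset.filter_congr fun a _ => ?_
        omega
      · have h4 : e true < k := by
          by_contra h5
          refine hkj fun t => ?_
          cases t
          · rw [Finsupp.single_apply, if_neg (by decide)]
            exact Nat.zero_le _
          · rw [Finsupp.single_apply, if_pos rfl]
            omega
        rw [Multiset.filter_eq_nil.mpr, Multiset.card_zero, Nat.cast_zero]
        intro a ha h
        obtain ⟨b, rfl⟩ := Multiset.le_iff_exists_add.mp (Multiset.mem_powersetCard.mp ha).1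
        rw [Multiset.sum_add] at h
        omega
    rw [h1, coeff_X_mul', Multiset.sum_cons]
    rcases h : e false with _ | l
    · rw [if_neg, zero_add, Multiset.powersetCard_zero_left, Multiset.powersetCard_zero_left]
      rw [Finsupp.mem_support_iff, h]
      exact fun h => h rfl
    · rw [if_pos, ih, Multiset.powersetCard_cons, Multiset.filter_add,
        Multiset.card_add, Nat.cast_add, add_comm]
      · have h2 : (e - Finsupp.single false 1 : Bool →₀ ℕ) false = l := by
          rw [Finsupp.tsub_apply, Finsupp.single_apply, if_pos rfl, h]
          rfl
        have h3 : (e - Finsupp.single false 1 : Bool →₀ ℕ) true = e true := by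
          rw [Finsupp.tsub_apply, Finsupp.single_apply, if_neg (by decide), Nat.sub_zero]
        rw [h2, h3]
        congr 2
        rw [Multiset.filter_map, Multiset.card_map]
        congr 1
        refine Multiset.filter_congr fun a _ => ?_
        simp only [Function.comp_apply, Multiset.sum_cons]
        omega
      · rw [Finsupp.mem_support_iff, h]
        exact Nat.succ_ne_zero l

/-- The sums of the coefficients `h` over the partitions with a marked set of parts. -/
theorem logMarg (hT : TruSt) (J : (n : ℕ) → n.Partition → n.Partition → QA)
    (hJ : ∀ n, IsJack RatFunc.X n (J n)) (psi : PowerSeries (B3 QA))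
    (hpsi : IsPsi RatFunc.X J psi) (n : ℕ) (t m : n.Partition) (l j : ℕ) :
    ∑ v : n.Partition, (((v.parts.powersetCard l).filter fun a => a.sum = j).card : QA) *
      hc psi t m v ∈ Nb (RatFunc.X : QA) := by
  have hP := pPm QA
  have hR := rul QA Bool
  have hA := rulA QA Bool
  have hm := fin2 hT hR hA (conem QA Bool hP hR hA) (edm QA Bool hP hR hA) hP (sSm QA) (sSX QA)
    (lgm QA) (homm QA) (extM QA hP) J hJ psi hpsi 1 (Or.inl rfl) (Nb (RatFunc.X : QA))
    ⟨Polynomial.X, Polynomial.eval₂_X _ _⟩ (one_mem _) n t m
  by_cases hj : j ≤ n
  · have h2 := hm (Finsupp.single false l + Finsupp.single true (n - j))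
    have h3 : ∀ v : n.Partition, hc psi t m v * coeff (Finsupp.single false l +
        Finsupp.single true (n - j)) (mg (1 : QA) v) =
        (((v.parts.powersetCard l).filter fun a => a.sum = j).card : QA) * hc psi t m v := by
      intro v
      unfold mg
      rw [coeff_mg, mul_comm]
      have h4 : (Finsupp.single false l + Finsupp.single true (n - j) : Bool →₀ ℕ) false = l := by
        simp
      have h5 : (Finsupp.single false l + Finsupp.single true (n - j) : Bool →₀ ℕ) true =
          n - j := by
        simp
      rw [h4, h5]
      congr 3
      refine Multiset.filter_congr fun a _ => ?_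
      rw [v.parts_sum]
      omega
    rw [Finset.sum_congr rfl fun v _ => h3 v] at h2
    exact h2
  · have h3 : ∀ v : n.Partition, (((v.parts.powersetCard l).filter fun a => a.sum = j).card : QA) *
        hc psi t m v = 0 := by
      intro v
      rw [Multiset.filter_eq_nil.mpr, Multiset.card_zero, Nat.cast_zero, zero_mul]
      intro a ha h
      have hs := v.parts_sum
      obtain ⟨b, hb⟩ := Multiset.le_iff_exists_add.mp (Multiset.mem_powersetCard.mp ha).1
      rw [hb, Multiset.sum_add] at hs
      omega
    rw [Finset.sum_congr rfl fun v _ => h3 v, Finset.sum_const_zero]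
    exact zero_mem _

end

end Pool.Agent.MJL
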