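import Mathlib

/-!
The logarithm of a series defined by insertions: the abstract part.

`C` is a commutative ring, `M` a module, `A : M → M` an additive map of first order over `C`:
`A (f • x) = f • A x + D f x` with `D f` linear over `C`.  The graded pieces are functions
of `n`.
-/

namespace Pool.Agent.MJL

namespace Alg

open Finset

/-! ### Convolutions -/

section conv
variable {C M : Type} [CommRing C] [AddCommGroup M] [Module C M]

theorem tri (n : ℕ) (f : ℕ → ℕ → ℕ → M) :
    ∑ p ∈ HasAntidiagonal.antidiagonal n, ∑ q ∈ HasAntidiagonal.antidiagonal p.2, f p.1 q.1 q.2 =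
      ∑ p ∈ HasAntidiagonal.antidiagonal n, ∑ q ∈ HasAntidiagonal.antidiagonal p.1, f q.1 q.2 p.2 := by
  rw [Finset.sum_sigma', Finset.sum_sigma']
  refine Finset.sum_bij' (fun a _ => ⟨(a.1.1 + a.2.1, a.2.2), (a.1.1, a.2.1)⟩)
    (fun a _ => ⟨(a.2.1, a.2.2 + a.1.2), (a.2.2, a.1.2)⟩) ?_ ?_ ?_ ?_ ?_
  · rintro ⟨⟨i, j⟩, ⟨k, l⟩⟩ h
    simp only [mem_sigma, HasAntidiagonal.mem_antidiagonal] at h ⊢
    exact ⟨by omega, trivial⟩
  · rintro ⟨⟨i, j⟩, ⟨k, l⟩⟩ h
    simp only [mem_sigma, HasAntidiagonal.mem_antidiagonal] at h ⊢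
    exact ⟨by omega, trivial⟩
  · rintro ⟨⟨i, j⟩, ⟨k, l⟩⟩ h
    simp only [mem_sigma, HasAntidiagonal.mem_antidiagonal] at h
    obtain ⟨h1, h2⟩ := h
    subst h2
    rfl
  · rintro ⟨⟨i, j⟩, ⟨k, l⟩⟩ h
    simp only [mem_sigma, HasAntidiagonal.mem_antidiagonal] at h
    obtain ⟨h1, h2⟩ := h
    subst h2
    rfl
  · rintro ⟨⟨i, j⟩, ⟨k, l⟩⟩ h
    rfl

/-- the convolution -/
def conv (f : ℕ → C) (P : ℕ → M) (n : ℕ) : M := ∑ p ∈ HasAntidiagonal.antidiagonal n, f p.1 • P p.2

theorem conv_inj {f : ℕ → C} (h0 : f 0 = 1) {P Q : ℕ → M}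
    (h : ∀ n, conv f P n = conv f Q n) : P = Q := by
  funext n
  induction n using Nat.strong_induction_on with
  | _ n ih =>
    have h1 := h n
    unfold conv at h1
    have e : ∀ R : ℕ → M, ∑ p ∈ HasAntidiagonal.antidiagonal n, f p.1 • R p.2 =
        R n + ∑ p ∈ (HasAntidiagonal.antidiagonal n).erase (0, n), f p.1 • R p.2 := by
      intro R
      have hm : ((0 : ℕ), n) ∈ HasAntidiagonal.antidiagonal n := by
        rw [HasAntidiagonal.mem_antidiagonal]
        exact Nat.zero_add n
      rw [← Finset.add_sum_erase _ _ hm, h0, one_smul]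
    rw [e P, e Q] at h1
    have h2 : ∑ p ∈ (HasAntidiagonal.antidiagonal n).erase (0, n), f p.1 • P p.2 =
        ∑ p ∈ (HasAntidiagonal.antidiagonal n).erase (0, n), f p.1 • Q p.2 := by
      refine Finset.sum_congr rfl fun p hp => ?_
      rw [mem_erase, HasAntidiagonal.mem_antidiagonal] at hp
      have h3 : p.2 < n := by
        rcases p with ⟨i, j⟩
        obtain ⟨h4, h5⟩ := hp
        change i + j = n at h5
        change j < n
        rcases Nat.eq_zero_or_pos i with h6 | h6
        · exfalso
          apply h4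
          rw [h6]
          rw [h6, Nat.zero_add] at h5
          rw [h5]
        · omega
      rw [ih p.2 h3]
    rw [h2] at h1
    exact add_right_cancel h1

/-- The solution of `conv f P = R`. -/
def slv (f : ℕ → C) (R : ℕ → M) (n : ℕ) : M :=
  R n - ∑ i : Fin n, f (n - i) • slv f R i
termination_by n
decreasing_by omega

theorem conv_slv {f : ℕ → C} (h0 : f 0 = 1) (R : ℕ → M) (n : ℕ) : conv f (slv f R) n = R n := by
  unfold conv
  rw [Finset.Nat.sum_antidiagonal_eq_sum_range_succ (fun i j => f i • slv f R j),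
    Finset.sum_range_succ', Nat.sub_zero, h0, one_smul]
  have h : slv f R n = R n - ∑ i : Fin n, f (n - i) • slv f R i := by rw [slv]
  have h1 : ∑ k ∈ range n, f (k + 1) • slv f R (n - (k + 1)) =
      ∑ i : Fin n, f (n - i) • slv f R i := by
    rw [Fin.sum_univ_eq_sum_range (fun i => f (n - i) • slv f R i) n, ← Finset.sum_range_reflect]
    refine Finset.sum_congr rfl fun k hk => ?_
    rw [mem_range] at hk
    have e1 : n - 1 - k + 1 = n - k := by omega
    have e2 : n - (n - k) = k := by omega
    rw [e1, e2]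
  rw [h1, h]
  abel

/-- A sum over `k` and an antidiagonal. -/
theorem sum_Icc_conv (phi : ℕ → C) (x : ℕ → C) (P : ℕ → ℕ → M) (n : ℕ) :
    ∑ k ∈ Icc 1 n, x k • conv phi (P k) (n - k) =
      conv phi (fun m => ∑ k ∈ Icc 1 m, x k • P k (m - k)) n := by
  unfold conv
  simp only [Finset.smul_sum]
  rw [Finset.sum_sigma', Finset.sum_sigma']
  refine Finset.sum_bij' (fun a _ => ⟨(a.2.1, a.2.2 + a.1), a.1⟩)
    (fun a _ => ⟨a.2, (a.1.1, a.1.2 - a.2)⟩) ?_ ?_ ?_ ?_ ?_
  · rintro ⟨k, ⟨i, j⟩⟩ h
    simp only [mem_sigma, HasAntidiagonal.mem_antidiagonal, mem_Icc] at h ⊢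
    omega
  · rintro ⟨⟨i, j⟩, k⟩ h
    simp only [mem_sigma, HasAntidiagonal.mem_antidiagonal, mem_Icc] at h ⊢
    omega
  · rintro ⟨k, ⟨i, j⟩⟩ h
    simp only [Nat.add_sub_cancel]
  · rintro ⟨⟨i, j⟩, k⟩ h
    simp only [mem_sigma, HasAntidiagonal.mem_antidiagonal, mem_Icc] at h
    have e : j - k + k = j := by omega
    simp only [e]
  · rintro ⟨k, ⟨i, j⟩⟩ h
    simp only [Nat.add_sub_cancel]
    rw [smul_comm]

end conv

/-! ### First order operators -/

section ops
variable {C M : Type} [CommRing C] [AddCommGroup M] [Module C M]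

/-- The pieces `G_k(n)` for the additive map `A` and the pieces `F_i` of the derivative of the
logarithm. -/
def G (A : M → M) (F : ℕ → M → M) (e : M) : ℕ → ℕ → M
  | 0, n => if n = 0 then e else 0
  | (k + 1), n => A (G A F e k n) + ∑ p ∈ HasAntidiagonal.antidiagonal n, F p.1 (G A F e k p.2)

variable {A : M → M} {D : C → M →ₗ[C] M} (hadd : ∀ x y, A (x + y) = A x + A y)
  (hA : ∀ (f : C) x, A (f • x) = f • A x + D f x)
include hadd hA

theorem A_zero : A 0 = 0 := by
  have h := hadd 0 0
  rw [add_zero] at h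
  have h2 : A 0 + 0 = A 0 + A 0 := by rw [add_zero]; exact h
  exact (add_left_cancel h2).symm

theorem A_sum {ι : Type} (s : Finset ι) (g : ι → M) : A (∑ i ∈ s, g i) = ∑ i ∈ s, A (g i) := by
  classical
  induction s using Finset.induction_on with
  | empty => rw [Finset.sum_empty, Finset.sum_empty, A_zero hadd hA]
  | insert a s ha ih => rw [Finset.sum_insert ha, Finset.sum_insert ha, hadd, ih]

theorem D_add (f g : C) : D (f + g) = D f + D g := by
  apply LinearMap.ext
  intro x
  have h1 := hA (f + g) x
  rw [add_smul, hadd, hA f, hA g, add_smul] at h1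
  rw [LinearMap.add_apply]
  have h2 : f • A x + g • A x + (D f x + D g x) = f • A x + g • A x + D (f + g) x := by
    rw [← h1]
    abel
  exact (add_left_cancel h2).symm

theorem D_mul (f g : C) : D (f * g) = f • D g + g • D f := by
  apply LinearMap.ext
  intro x
  have h1 := hA (f * g) x
  rw [mul_smul, hA f, hA g, LinearMap.map_smul, smul_add, smul_smul] at h1
  rw [LinearMap.add_apply, LinearMap.smul_apply, LinearMap.smul_apply]
  rw [add_assoc] at h1
  exact (add_left_cancel h1).symm

theorem D_zero : D 0 = 0 := by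
  have h := D_add hadd hA 0 0
  rw [add_zero] at h
  have h2 : D 0 + 0 = D 0 + D 0 := by rw [add_zero]; exact h
  exact (add_left_cancel h2).symm

theorem D_sum {ι : Type} (s : Finset ι) (g : ι → C) : D (∑ i ∈ s, g i) = ∑ i ∈ s, D (g i) := by
  classical
  induction s using Finset.induction_on with
  | empty => rw [Finset.sum_empty, Finset.sum_empty, D_zero hadd hA]
  | insert a s ha ih => rw [Finset.sum_insert ha, Finset.sum_insert ha, D_add hadd hA, ih]

/-- Conjugation of the powers of `A` with the series `phi`. -/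
theorem A_pow {phi : ℕ → C} {F : ℕ → M → M}
    (hD : ∀ n x, D (phi n) x = ∑ p ∈ HasAntidiagonal.antidiagonal n, phi p.1 • F p.2 x) (e : M)
    (k n : ℕ) : A^[k] (phi n • e) = conv phi (G A F e k) n := by
  induction k generalizing n with
  | zero =>
    change phi n • e = ∑ p ∈ HasAntidiagonal.antidiagonal n, phi p.1 • (if p.2 = 0 then e else 0)
    have hm : (n, (0 : ℕ)) ∈ HasAntidiagonal.antidiagonal n := by
      rw [HasAntidiagonal.mem_antidiagonal]
      exact Nat.add_zero n
    rw [Finset.sum_eq_single_of_mem (n, 0) hm]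
    · rw [if_pos rfl]
    · intro p hp hne
      rw [if_neg, smul_zero]
      intro h2
      apply hne
      rw [HasAntidiagonal.mem_antidiagonal] at hp
      apply Prod.ext
      · change p.1 = n
        omega
      · exact h2
  | succ k ih =>
    rw [Function.iterate_succ_apply', ih n]
    unfold conv
    rw [A_sum hadd hA]
    have h1 : ∀ p ∈ HasAntidiagonal.antidiagonal n, A (phi p.1 • G A F e k p.2) =
        phi p.1 • A (G A F e k p.2) +
        ∑ q ∈ HasAntidiagonal.antidiagonal p.1, phi q.1 • F q.2 (G A F e k p.2) := by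
      intro p _
      rw [hA, hD]
    rw [Finset.sum_congr rfl h1, Finset.sum_add_distrib]
    have h2 := tri n (fun i j l => phi i • F j (G A F e k l))
    rw [← h2, ← Finset.sum_add_distrib]
    refine Finset.sum_congr rfl fun p _ => ?_
    change _ = phi p.1 • (A (G A F e k p.2) +
      ∑ q ∈ HasAntidiagonal.antidiagonal p.2, F q.1 (G A F e k q.2))
    rw [smul_add, Finset.smul_sum]

end ops

/-! ### The logarithm -/

section main
variable {Q C M : Type} [CommRing C] [AddCommGroup M] [Module C M]

theorem D_one {A : M → M} {D : C → M →ₗ[C] M} (hadd : ∀ x y, A (x + y) = A x + A y)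
    (hA : ∀ (f : C) x, A (f • x) = f • A x + D f x) : D 1 = 0 := by
  have h := D_mul hadd hA 1 1
  rw [one_mul, one_smul] at h
  have h2 : D 1 + 0 = D 1 + D 1 := by rw [add_zero]; exact h
  exact (add_left_cancel h2).symm

theorem conv_swap (f g : ℕ → C) (n : ℕ) :
    ∑ p ∈ antidiagonal n, g p.1 * f p.2 = conv f g n := by
  unfold conv
  rw [← Finset.Nat.sum_antidiagonal_swap]
  refine Finset.sum_congr rfl fun p _ => ?_
  rw [smul_eq_mul, mul_comm]
  rfl

/-- The derivative of the series and of its logarithm. -/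
theorem D_phi {A : M → M} {D : C → M →ₗ[C] M} (hadd : ∀ x y, A (x + y) = A x + A y)
    (hA : ∀ (f : C) x, A (f • x) = f • A x + D f x) {a a' : ℕ → C} (hDa : ∀ n, D (a n) = 0)
    (ha' : ∀ n, n ≠ 0 → a' n * a n = 1) (haa : ∀ i j, a (i + j) = a i + a j) {phi psi : ℕ → C}
    (h0 : phi 0 = 1) (hps0 : psi 0 = 0)
    (hpsi : ∀ n, ∑ p ∈ antidiagonal n, psi p.1 * phi p.2 = a n * phi n) (n : ℕ) (x : M) :
    D (phi n) x = ∑ p ∈ antidiagonal n, phi p.1 • (a' p.2 • D (psi p.2) x) := by
  have hz : a' 0 • D (psi 0) x = 0 := by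
    rw [hps0, D_zero hadd hA, LinearMap.zero_apply, smul_zero]
  have hF : ∀ i, D (psi i) x = a i • (a' i • D (psi i) x) := by
    intro i
    rcases eq_or_ne i 0 with rfl | hi
    · rw [hz, smul_zero, hps0, D_zero hadd hA, LinearMap.zero_apply]
    · rw [smul_smul, mul_comm, ha' i hi, one_smul]
  induction n using Nat.strong_induction_on with
  | _ n ih =>
    rcases eq_or_ne n 0 with rfl | hn
    · rw [h0, D_one hadd hA, LinearMap.zero_apply]
      change _ = ∑ p ∈ {((0 : ℕ), (0 : ℕ))}, phi p.1 • (a' p.2 • D (psi p.2) x)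
      rw [Finset.sum_singleton, hz, smul_zero]
    · have e1 : a n • D (phi n) x = D (a n * phi n) x := by
        rw [D_mul hadd hA, hDa, smul_zero, add_zero, LinearMap.smul_apply]
      have e2 : ∀ p ∈ antidiagonal n, D (psi p.1 * phi p.2) x =
          psi p.1 • ∑ q ∈ antidiagonal p.2, phi q.1 • (a' q.2 • D (psi q.2) x) +
          phi p.2 • (a p.1 • (a' p.1 • D (psi p.1) x)) := by
        intro p hp
        rw [D_mul hadd hA, LinearMap.add_apply, LinearMap.smul_apply, LinearMap.smul_apply,
          ← hF p.1]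
        congr 1
        rcases eq_or_ne p.1 0 with h1 | h1
        · rw [h1, hps0, zero_smul, zero_smul]
        · rw [ih p.2 (by rw [HasAntidiagonal.mem_antidiagonal] at hp; omega)]
      have e3 : a n • D (phi n) x =
          a n • ∑ p ∈ antidiagonal n, phi p.1 • (a' p.2 • D (psi p.2) x) := by
        rw [e1, ← hpsi, D_sum hadd hA]
        rw [LinearMap.sum_apply, Finset.sum_congr rfl e2, Finset.sum_add_distrib]
        simp only [Finset.smul_sum (r := psi _)]
        have h3 := tri n (fun i j l => psi i • phi j • (a' l • D (psi l) x))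
        rw [h3]
        have h4 : ∀ p ∈ antidiagonal n,
            ∑ q ∈ antidiagonal p.1, psi q.1 • phi q.2 • (a' p.2 • D (psi p.2) x) =
            a p.1 • phi p.1 • (a' p.2 • D (psi p.2) x) := by
          intro p _
          simp only [smul_smul]
          rw [← Finset.sum_smul]
          congr 1
          simp only [← mul_assoc]
          rw [← Finset.sum_mul, hpsi]
        rw [Finset.sum_congr rfl h4]
        have h5 : ∑ p ∈ antidiagonal n, phi p.2 • (a p.1 • (a' p.1 • D (psi p.1) x)) =
            ∑ p ∈ antidiagonal n, phi p.1 • (a p.2 • (a' p.2 • D (psi p.2) x)) := by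
          rw [← Finset.Nat.sum_antidiagonal_swap]
          rfl
        rw [h5, ← Finset.sum_add_distrib, Finset.smul_sum]
        refine Finset.sum_congr rfl fun p hp => ?_
        rw [HasAntidiagonal.mem_antidiagonal] at hp
        rw [← hp, haa, add_smul, smul_comm (phi p.1) (a p.2)]
      have e4 := congrArg (fun y => a' n • y) e3
      simp only [smul_smul (a' n) (a n), ha' n hn, one_smul] at e4
      exact e4

/-- Positivity of the logarithm (first version). -/
theorem pos_half (A : Q → M → M) (D : Q → C → M →ₗ[C] M) (cl : M →ₗ[C] C) (e : M)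
    (x : Q → ℕ → C) (a a' : ℕ → C) (phi psi : Q → ℕ → C)
    (hadd : ∀ q x y, A q (x + y) = A q x + A q y)
    (hA : ∀ q (f : C) x, A q (f • x) = f • A q x + D q f x)
    (hDa : ∀ q n, D q (a n) = 0) (ha' : ∀ n, n ≠ 0 → a' n * a n = 1)
    (haa : ∀ i j, a (i + j) = a i + a j) (h0 : ∀ q, phi q 0 = 1)
    (hphi : ∀ q n, n ≠ 0 →
      a n * phi q n = ∑ k ∈ Icc 1 n, x q k * cl ((A q)^[k] (phi q (n - k) • e)))
    (hps0 : ∀ q, psi q 0 = 0)
    (hpsi : ∀ q n, ∑ p ∈ antidiagonal n, psi q p.1 * phi q p.2 = a n * phi q n)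
    (PC : AddSubmonoid (Q → C)) (PM : AddSubmonoid (Q → M))
    (he : (fun _ => e) ∈ PM) (hPA : ∀ F ∈ PM, (fun q => A q (F q)) ∈ PM)
    (hcl : ∀ F ∈ PM, ∀ k, (fun q => x q k * cl (F q)) ∈ PC)
    (hD : ∀ n, n ≠ 0 → ∀ f ∈ PC, ∀ F ∈ PM, (fun q => a' n • D q (f q) (F q)) ∈ PM) :
    ∀ n, (fun q => psi q n) ∈ PC := by
  -- the closed form
  have hG : ∀ q n, psi q n = ∑ k ∈ Icc 1 n, x q k *
      cl (G (A q) (fun i y => a' i • D q (psi q i) y) e k (n - k)) := by
    intro q
    have h1 : ∀ k n, (A q)^[k] (phi q n • e) =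
        conv (phi q) (G (A q) (fun i y => a' i • D q (psi q i) y) e k) n := fun k n =>
      A_pow (hadd q) (hA q) (fun n x => D_phi (hadd q) (hA q) (hDa q) ha' haa (h0 q) (hps0 q)
        (hpsi q) n x) e k n
    have h2 : psi q = fun n => ∑ k ∈ Icc 1 n, x q k •
        cl (G (A q) (fun i y => a' i • D q (psi q i) y) e k (n - k)) := by
      refine conv_inj (h0 q) fun n => ?_
      rw [← conv_swap, hpsi]
      have h3 := sum_Icc_conv (phi q) (x q)
        (fun k m => cl (G (A q) (fun i y => a' i • D q (psi q i) y) e k m)) n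
      rw [← h3]
      rcases eq_or_ne n 0 with rfl | hn
      · have h4 : a 0 = 0 := by
          have h5 := haa 0 0
          rw [add_zero] at h5
          have h6 : a 0 + 0 = a 0 + a 0 := by rw [add_zero]; exact h5
          exact (add_left_cancel h6).symm
        rw [h4, zero_mul]
        simp
      · rw [hphi q n hn]
        refine Finset.sum_congr rfl fun k _ => ?_
        rw [h1, smul_eq_mul]
        congr 1
        unfold conv
        rw [map_sum]
        refine Finset.sum_congr rfl fun p _ => ?_
        rw [LinearMap.map_smul]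
    intro n
    exact congrFun h2 n
  intro n
  induction n using Nat.strong_induction_on with
  | _ n ih =>
    have hGm : ∀ k j, j < n →
        (fun q => G (A q) (fun i y => a' i • D q (psi q i) y) e k j) ∈ PM := by
      intro k
      induction k with
      | zero =>
        intro j _
        change (fun q => if j = 0 then e else 0) ∈ PM
        by_cases hj : j = 0
        · rw [if_pos hj]
          exact he
        · rw [if_neg hj]
          exact zero_mem _
      | succ k ihk =>
        intro j hj
        have h1 : (fun q => G (A q) (fun i y => a' i • D q (psi q i) y) e (k + 1) j) =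
            (fun q => A q (G (A q) (fun i y => a' i • D q (psi q i) y) e k j)) +
            ∑ p ∈ antidiagonal j, fun q => a' p.1 • D q (psi q p.1)
              (G (A q) (fun i y => a' i • D q (psi q i) y) e k p.2) := by
          funext q
          rw [Pi.add_apply, Finset.sum_apply]
          rfl
        rw [h1]
        refine add_mem (hPA _ (ihk j hj)) (sum_mem fun p hp => ?_)
        rw [HasAntidiagonal.mem_antidiagonal] at hp
        rcases eq_or_ne p.1 0 with h2 | h2
        · have h3 : (fun q => a' p.1 • D q (psi q p.1)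
              (G (A q) (fun i y => a' i • D q (psi q i) y) e k p.2)) = 0 := by
            funext q
            rw [h2, hps0, D_zero (hadd q) (hA q), LinearMap.zero_apply, smul_zero]
            rfl
          rw [h3]
          exact zero_mem _
        · exact hD p.1 h2 _ (ih p.1 (by omega)) _ (ihk p.2 (by omega))
    have h1 : (fun q => psi q n) = ∑ k ∈ Icc 1 n, fun q => x q k *
        cl (G (A q) (fun i y => a' i • D q (psi q i) y) e k (n - k)) := by
      funext q
      rw [Finset.sum_apply]
      exact hG q n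
    rw [h1]
    refine sum_mem fun k hk => ?_
    rw [mem_Icc] at hk
    exact hcl _ (hGm k (n - k) (by omega)) k

/-- Positivity of the logarithm (second version, without division). -/
theorem pos_int (A : Q → M → M) (D : Q → C → M →ₗ[C] M) (cl : M →ₗ[C] C) (e : M)
    (x : Q → ℕ → C) (phi psi : Q → ℕ → C) (op : C → M) (E : Q → M → M → M)
    (hadd : ∀ q x y, A q (x + y) = A q x + A q y)
    (hA : ∀ q (f : C) x, A q (f • x) = f • A q x + D q f x)
    (hE : ∀ q f x, D q f x = E q (op f) x)
    (hEadd : ∀ q m m' x, E q (m + m') x = E q m x + E q m' x)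
    (hEsmul : ∀ q (f : C) m x, E q (f • m) x = f • E q m x)
    (h0 : ∀ q, phi q 0 = 1)
    (hop : ∀ q n, op (phi q n) = ∑ k ∈ Icc 1 n, x q k • (A q)^[k] (phi q (n - k) • e))
    (hpsi : ∀ q n, ∑ p ∈ antidiagonal n, psi q p.1 * phi q p.2 = cl (op (phi q n)))
    (PC : AddSubmonoid (Q → C)) (PM : AddSubmonoid (Q → M))
    (he : (fun _ => e) ∈ PM) (hPA : ∀ F ∈ PM, (fun q => A q (F q)) ∈ PM)
    (hx : ∀ F ∈ PM, ∀ k, (fun q => x q k • F q) ∈ PM)
    (hcl : ∀ F ∈ PM, (fun q => cl (F q)) ∈ PC)
    (hPE : ∀ F ∈ PM, ∀ H ∈ PM, (fun q => E q (F q) (H q)) ∈ PM) :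
    ∀ n, (fun q => psi q n) ∈ PC := by
  have hE0 : ∀ q x, E q 0 x = 0 := by
    intro q x
    have h := hEsmul q 0 0 x
    rw [zero_smul, zero_smul] at h
    exact h
  have hEsum : ∀ q (s : Finset (ℕ × ℕ)) (g : ℕ × ℕ → M) x,
      E q (∑ i ∈ s, g i) x = ∑ i ∈ s, E q (g i) x := by
    intro q s g x
    classical
    induction s using Finset.induction_on with
    | empty => rw [Finset.sum_empty, Finset.sum_empty, hE0]
    | insert i s hi ih => rw [Finset.sum_insert hi, Finset.sum_insert hi, hEadd, ih]
  obtain ⟨Th, hTh⟩ : ∃ Th : Q → ℕ → M, ∀ q n, conv (phi q) (Th q) n = op (phi q n) :=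
    ⟨fun q => slv (phi q) (fun n => op (phi q n)), fun q n => conv_slv (h0 q) _ n⟩
  have hDphi : ∀ q n x, D q (phi q n) x =
      ∑ p ∈ antidiagonal n, phi q p.1 • E q (Th q p.2) x := by
    intro q n x
    rw [hE, ← hTh]
    unfold conv
    rw [hEsum]
    refine Finset.sum_congr rfl fun p _ => ?_
    rw [hEsmul]
  have h1 : ∀ q k n, (A q)^[k] (phi q n • e) =
      conv (phi q) (G (A q) (fun i y => E q (Th q i) y) e k) n := fun q k n =>
    A_pow (hadd q) (hA q) (hDphi q) e k n
  have hT : ∀ q n, Th q n = ∑ k ∈ Icc 1 n, x q k •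
      G (A q) (fun i y => E q (Th q i) y) e k (n - k) := by
    intro q
    have h2 : Th q = fun n => ∑ k ∈ Icc 1 n, x q k •
        G (A q) (fun i y => E q (Th q i) y) e k (n - k) := by
      refine conv_inj (h0 q) fun n => ?_
      rw [hTh, hop, ← sum_Icc_conv (phi q) (x q)
        (fun k m => G (A q) (fun i y => E q (Th q i) y) e k m) n]
      refine Finset.sum_congr rfl fun k _ => ?_
      rw [h1]
    intro n
    exact congrFun h2 n
  have hPs : ∀ q n, psi q n = cl (Th q n) := by
    intro q
    have h2 : psi q = fun n => cl (Th q n) := by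
      refine conv_inj (h0 q) fun n => ?_
      rw [← conv_swap, hpsi, ← hTh]
      unfold conv
      rw [map_sum]
      refine Finset.sum_congr rfl fun p _ => ?_
      rw [LinearMap.map_smul]
    intro n
    exact congrFun h2 n
  have hThm : ∀ n, (fun q => Th q n) ∈ PM := by
    intro n
    induction n using Nat.strong_induction_on with
    | _ n ih =>
      have hGm : ∀ k j, j < n →
          (fun q => G (A q) (fun i y => E q (Th q i) y) e k j) ∈ PM := by
        intro k
        induction k with
        | zero =>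
          intro j _
          change (fun q => if j = 0 then e else 0) ∈ PM
          by_cases hj : j = 0
          · rw [if_pos hj]
            exact he
          · rw [if_neg hj]
            exact zero_mem _
        | succ k ihk =>
          intro j hj
          have h3 : (fun q => G (A q) (fun i y => E q (Th q i) y) e (k + 1) j) =
              (fun q => A q (G (A q) (fun i y => E q (Th q i) y) e k j)) +
              ∑ p ∈ antidiagonal j, fun q => E q (Th q p.1)
                (G (A q) (fun i y => E q (Th q i) y) e k p.2) := by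
            funext q
            rw [Pi.add_apply, Finset.sum_apply]
            rfl
          rw [h3]
          refine add_mem (hPA _ (ihk j hj)) (sum_mem fun p hp => ?_)
          rw [HasAntidiagonal.mem_antidiagonal] at hp
          exact hPE _ (ih p.1 (by omega)) _ (ihk p.2 (by omega))
      have h4 : (fun q => Th q n) = ∑ k ∈ Icc 1 n, fun q => x q k •
          G (A q) (fun i y => E q (Th q i) y) e k (n - k) := by
        funext q
        rw [Finset.sum_apply]
        exact hT q n
      rw [h4]
      refine sum_mem fun k hk => ?_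
      rw [mem_Icc] at hk
      exact hx _ (hGm k (n - k) (by omega)) k
  intro n
  have h5 : (fun q => psi q n) = fun q => cl (Th q n) := by
    funext q
    exact hPs q n
  rw [h5]
  exact hcl _ (hThm n)

end main

end Alg

end Pool.Agent.MJL
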