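import Pool.Agent.MJF.Spl
import Pool.Agent.MJR.GDefs

/-!
The word process with any set `I` of colours, and with weights `w1`, `w2` for the openings of
cycles; the labelled process; families of parameters; sums over compositions.

A root word is a list of colours, the first letter is the last one inserted.  A colour `t` has
two weights: `u t` for a new part and `s t` for a letter; a part with `k` letters contributes
`∑ t, u t * s t ^ k`.
-/

namespace Pool.Agent.MJL

open MvPolynomial Pool.Agent.MJR
open Pool.Agent.MJF (spl Stt inc cls)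

noncomputable section

variable {K : Type} [Field K] {I : Type}

/-! ### Words -/

/-- Closed words. -/
abbrev CW (K I : Type) [Field K] := MvPolynomial (Cycle I) K

/-- Words with a root. -/
abbrev RW (K I : Type) [Field K] := List I →₀ CW K I

/-- the cyclic word of a list -/
def cy (K : Type) [Field K] (L : List I) : CW K I := X (L : Cycle I)

/-- the root word `L` -/
def rw1 (K : Type) [Field K] (L : List I) : RW K I := Finsupp.single L 1

/-- `x ↦ x L` -/
def app (L : List I) : RW K I →ₗ[CW K I] RW K I := Finsupp.lmapDomain _ _ fun X => X ++ L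

/-- `x ↦ L x` -/
def pre (L : List I) : RW K I →ₗ[CW K I] RW K I := Finsupp.lmapDomain _ _ fun X => L ++ X

/-- concatenation: `cat m x` is `m` followed by `x` -/
def cat (m : RW K I) : RW K I →ₗ[CW K I] RW K I :=
  Finsupp.linearCombination (CW K I) fun L => app L m

/-- closing the root word -/
def clw (K : Type) [Field K] : RW K I →ₗ[CW K I] CW K I :=
  Finsupp.linearCombination (CW K I) fun L => cy K L

/-- adding the empty root word -/
def iw (K : Type) [Field K] : CW K I →ₗ[K] RW K I := Finsupp.lsingle []

/-- forgetting the colours -/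
def fgt (K I : Type) [Field K] : CW K I →ₐ[K] Lam K := aeval fun z => X z.length

section
variable [DecidableEq I]

/-- Touches of the letters `t` of the root word: `∑ over L = X t Y of [X t] Y + b X^r t Y`. -/
def tch (b : K) (t : I) (L : List I) : RW K I :=
  spl (fun X x Y => if x = t then
    cy K (X ++ [t]) • rw1 K Y + (C b : CW K I) • rw1 K (X.reverse ++ t :: Y) else 0) L

/-- Openings of a cycle at the letters `t`:
`∑ over L = X t Y of w1 Y X t + w2 (Y X)^r t`. -/
def opn (w1 w2 : K) (t : I) (L : List I) : RW K I :=
  spl (fun X x Y => if x = t then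
    (C w1 : CW K I) • rw1 K (Y ++ X ++ [t]) +
      (C w2 : CW K I) • rw1 K ((Y ++ X).reverse ++ [t]) else 0) L

/-- The operator `f L ↦ f g(L) + d(f) L`. -/
def opr (d : Derivation K (CW K I) (RW K I)) (g : List I → RW K I) : RW K I →ₗ[K] RW K I :=
  Finsupp.lsum K fun L =>
    { toFun := fun f => f • g L + app L (d f)
      map_add' := by
        intro f h
        rw [add_smul, map_add, map_add]
        abel
      map_smul' := by
        intro c f
        have h1 : d (c • f) = c • d f := d.map_smul c f
        have h2 : app L (c • d f) = c • app L (d f) :=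
          LinearMap.map_smul_of_tower (app L : RW K I →ₗ[CW K I] RW K I) c (d f)
        rw [h1, h2, RingHom.id_apply, smul_add, smul_assoc] }

/-- Openings at the letters `t` as a derivation. -/
def J (w1 w2 : K) (t : I) : Derivation K (CW K I) (RW K I) :=
  mkDerivation K fun z => opn w1 w2 t (Quotient.out z)

/-- The touches of the letters `t`. -/
def T (b w1 w2 : K) (t : I) : RW K I →ₗ[K] RW K I := opr (J w1 w2 t) (tch b t)

variable [Fintype I]

/-- The insertion of a letter. -/
def Aw (b w1 w2 : K) (u s : I → K) : RW K I →ₗ[K] RW K I :=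
  ∑ t, s t • ((pre [t] : RW K I →ₗ[CW K I] RW K I).restrictScalars K ∘ₗ
    (u t • LinearMap.id + T b w1 w2 t))

/-- `f ↦ (x ↦ A (f x) - f A x)` for the openings `m t` at the letters `t`:
`x ↦ ∑ t, s t • t (m t) x`. -/
def Dop (s : I → K) (m : I → RW K I) : RW K I →ₗ[CW K I] RW K I :=
  ∑ t, (C (s t) : CW K I) • (pre [t] ∘ₗ cat (m t))

/-- The process on words: the parts are inserted one after the other, the head is the last. -/
def Kw (b w1 w2 : K) (u s : I → K) : List ℕ → CW K I
  | [] => 1
  | (k :: p) => clw K ((Aw b w1 w2 u s ^ k) (iw K (Kw b w1 w2 u s p)))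

end

/-! ### The labelled process -/

section
variable {V : Type} [AddCommGroup V] [Module K V]

/-- One step of the labelled process (acting on functions of the state). -/
def stp (b w1 w2 : K) (φ : Stt → V) (S : Stt) : V :=
  φ (S.1 ++ [1], S.1.length :: S.2.1, S.2.2) +
  spl (fun X l Y => φ (inc S.1 l, l :: Y, (X ++ [l]) :: S.2.2) +
    b • φ (inc S.1 l, l :: (X.reverse ++ l :: Y), S.2.2)) S.2.1 +
  spl (fun A z B => spl (fun X l Y =>
    w1 • φ (inc S.1 l, l :: (Y ++ X ++ l :: S.2.1), A ++ B) +
    w2 • φ (inc S.1 l, l :: ((Y ++ X).reverse ++ l :: S.2.1), A ++ B)) z) S.2.2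

/-- The value of the function `φ` of the final state for the parts `p`. -/
def Ep (b w1 w2 : K) : List ℕ → (Stt → V) → V
  | [], φ => φ ([], [], [])
  | (k :: p), φ => Ep b w1 w2 p ((stp b w1 w2)^[k] (cls φ))

end

/-- Parts in the third alphabet, cycles in the second one. -/
def Zp (b w1 w2 : K) (p : List ℕ) : B3 K :=
  Ep b w1 w2 p fun S => (S.1.map fun k => (X (2, k) : B3 K)).prod *
    (S.2.2.map fun z => (X (1, z.length) : B3 K)).prod

/-! ### Sums over compositions -/

/-- The sum over the compositions `p` of `n` of `w(p) x_p • f p`, where `w([]) = 1` and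
`w(k :: q) = w(q) / (al * sum of k :: q)`. -/
def SS {K R V : Type} [Field K] [CommRing R] [AddCommGroup V] [Module K V] [Module R V]
    (al : K) (x : ℕ → R) : (n : ℕ) → (List ℕ → V) → V
  | 0, f => f []
  | (n + 1), f => (al * ((n + 1 : ℕ) : K))⁻¹ •
      ∑ k : Fin (n + 1), x (k + 1) • SS al x (n - k) (fun p => f ((k + 1 : ℕ) :: p))
termination_by n => n
decreasing_by omega

/-- The level `n` of the series `phi'` of the labelled process. -/
def phiS (al b w1 w2 : K) : PowerSeries (B3 K) :=
  PowerSeries.mk fun n => SS al (fun k => (X (0, k) : B3 K)) n (Zp b w1 w2)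

/-- `al t ∂_t log F`, for a series `F` with constant coefficient `1`. -/
def lg {K S : Type} [Field K] [CommRing S] [Algebra K S] (al : K) (F : PowerSeries S) :
    PowerSeries S :=
  (PowerSeries.mk fun n => (al * (n : K)) • PowerSeries.coeff n F) *
    PowerSeries.invOfUnit F 1

/-- The specialisation `p_k(x) = x k`, `p_k(z) = q k`. -/
def sp (x q : ℕ → K) : B3 K →ₐ[K] Lam K :=
  aeval fun a => if a.1 = 0 then C (x a.2) else if a.1 = 1 then X a.2 else C (q a.2)

/-! ### Families -/

/-- The families `v ↦ ∑ (monomial in v) • p`, `p ∈ P`. -/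
def PP (K : Type) [Field K] {V : Type} [AddCommGroup V] [Module K V] (A : Type)
    (P : AddSubmonoid V) : AddSubmonoid ((A → K) → V) :=
  AddSubmonoid.closure
    {F | ∃ (e : A →₀ ℕ), ∃ p ∈ P, F = fun v => (e.prod fun i n => v i ^ n) • p}

/-- closed words with coefficients in `P` -/
def PC (P : Subsemiring K) (I : Type) : AddSubmonoid (CW K I) where
  carrier := {f | ∀ m, coeff m f ∈ P}
  add_mem' := by
    intro f g hf hg m
    rw [coeff_add]
    exact add_mem (hf _) (hg _)
  zero_mem' := by
    intro m
    rw [coeff_zero]
    exact zero_mem _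

/-- words with a root with coefficients in `P` -/
def PM (P : Subsemiring K) (I : Type) : AddSubmonoid (RW K I) where
  carrier := {x | ∀ L, x L ∈ PC P I}
  add_mem' := by
    intro f g hf hg m
    exact add_mem (hf _) (hg _)
  zero_mem' := by
    intro m
    exact zero_mem _

/-- polynomials in the power sums with coefficients in `P` -/
def PL (P : Subsemiring K) : AddSubmonoid (Lam K) where
  carrier := {f | ∀ m, coeff m f ∈ P}
  add_mem' := by
    intro f g hf hg m
    rw [coeff_add]
    exact add_mem (hf _) (hg _)
  zero_mem' := by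
    intro m
    rw [coeff_zero]
    exact zero_mem _

/-- The set `ℚ≥0[b]`, `b = al - 1`. -/
def Qb (al : K) : Subsemiring K := Subsemiring.closure
  ({al - 1} ∪ Set.range fun n : ℕ => ((n : K)⁻¹))

/-- The set `ℤ[b]`, `b = al - 1`. -/
def Zb (al : K) : Subring K := Subring.closure {al - 1}

end

end Pool.Agent.MJL
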