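import Pool.Agent.MJL.St

/-!
Extraction for `I = Fin l` (module ExtA, helper21).
-/

namespace Pool.Agent.MJL

open MvPolynomial

noncomputable section

namespace ExtAx

variable {K : Type} [Field K] {l : ℕ}

/-- the variables other than the `x k` -/
abbrev W (l : ℕ) : Type := Fin l ⊕ Fin l

/-- the exponent of the parts -/
def D (l : ℕ) (s : Multiset ℕ) : (ℕ ⊕ W l) →₀ ℕ := Multiset.toFinsupp (s.map Sum.inl)

lemma D_inl (s : Multiset ℕ) (k : ℕ) : D l s (Sum.inl k) = s.count k := by
  unfold D
  rw [Multiset.toFinsupp_apply, Multiset.count_map_eq_count' _ _ Sum.inl_injective]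

lemma prod_X (s : Multiset ℕ) :
    (s.map fun k => (X (Sum.inl k) : MvPolynomial (ℕ ⊕ W l) K)).prod = monomial (D l s) 1 := by
  induction s using Multiset.induction_on with
  | empty =>
    rw [Multiset.map_zero, Multiset.prod_zero]
    unfold D
    rw [Multiset.map_zero, map_zero]
    rfl
  | cons k s ih =>
    rw [Multiset.map_cons, Multiset.prod_cons, ih]
    have h1 : D l (k ::ₘ s) = Finsupp.single (Sum.inl k) 1 + D l s := by
      unfold D
      rw [Multiset.map_cons, ← Multiset.singleton_add, map_add, Multiset.toFinsupp_singleton]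
    rw [h1]
    change monomial (Finsupp.single (Sum.inl k) 1) (1 : K) * monomial (D l s) 1 = _
    rw [monomial_mul, one_mul]

lemma inr_inl (e : W l →₀ ℕ) (k : ℕ) : (e.mapDomain (Sum.inr : W l → ℕ ⊕ W l)) (Sum.inl k) = 0 :=
  Finsupp.mapDomain_of_notMem_range _ _ (by rintro ⟨x, hx⟩; exact absurd hx (by simp))

lemma coeff_ne (r t : Multiset ℕ) (hrt : r ≠ t) (e : W l →₀ ℕ) (f : MvPolynomial (W l) K) :
    coeff (D l t + e.mapDomain Sum.inr) (monomial (D l r) 1 * rename Sum.inr f) = 0 := by
  rw [coeff_monomial_mul']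
  split_ifs with h
  · rw [one_mul]
    apply coeff_rename_eq_zero
    intro u hu
    exfalso
    apply hrt
    ext k
    have h1 := DFunLike.congr_fun hu (Sum.inl k)
    have h2 := h (Sum.inl k)
    rw [inr_inl, Finsupp.tsub_apply, Finsupp.add_apply, inr_inl, D_inl, D_inl] at h1
    rw [Finsupp.add_apply, inr_inl, D_inl, D_inl] at h2
    omega
  · rfl

lemma coeff_eq (t : Multiset ℕ) (e : W l →₀ ℕ) (f : MvPolynomial (W l) K) :
    coeff (D l t + e.mapDomain Sum.inr) (monomial (D l t) 1 * rename Sum.inr f) = coeff e f := by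
  rw [coeff_monomial_mul, one_mul, coeff_rename_mapDomain _ Sum.inr_injective]

/-- the product over the parts -/
def mA (K : Type) [Field K] (l : ℕ) (s : Multiset ℕ) : MvPolynomial (W l) K :=
  (s.map fun k => ∑ c : Fin l, X (Sum.inl c) * X (Sum.inr c) ^ k).prod

/-- the exponent of the map `g` -/
def E {n : ℕ} (f' : Fin n → ℕ) (g : Fin n → Fin l) : W l →₀ ℕ :=
  ∑ i, (Finsupp.single (Sum.inl (g i)) 1 + Finsupp.single (Sum.inr (g i)) (f' i))

lemma E_inl {n : ℕ} (f' : Fin n → ℕ) (g : Fin n → Fin l) (c : Fin l) :
    E f' g (Sum.inl c) = (Finset.univ.filter fun i => g i = c).card := by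
  unfold E
  rw [Finsupp.finsetSum_apply, Finset.card_filter]
  refine Finset.sum_congr rfl fun i _ => ?_
  rw [Finsupp.add_apply]
  by_cases h : g i = c
  · simp [h]
  · simp [h]

lemma E_inr {n : ℕ} (f' : Fin n → ℕ) (g : Fin n → Fin l) (c : Fin l) :
    E f' g (Sum.inr c) = ∑ i ∈ Finset.univ.filter (fun i => g i = c), f' i := by
  unfold E
  rw [Finsupp.finsetSum_apply, Finset.sum_filter]
  refine Finset.sum_congr rfl fun i _ => ?_
  rw [Finsupp.add_apply]
  by_cases h : g i = c
  · simp [h]
  · simp [h]

lemma E_eq {n : ℕ} (f' : Fin n → ℕ) (f : Fin l → ℕ) (g : Fin n → Fin l) :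
    E f' g = E f id ↔ Function.Bijective g ∧ f ∘ g = f' := by
  constructor
  · intro h
    have h1 : ∀ c, ∃ i, Finset.univ.filter (fun i => g i = c) = {i} := by
      intro c
      have h2 := DFunLike.congr_fun h (Sum.inl c)
      rw [E_inl, E_inl] at h2
      have h3 : (Finset.univ.filter fun i : Fin l => id i = c) = {c} := by
        ext i
        simp
      rw [h3, Finset.card_singleton] at h2
      exact Finset.card_eq_one.1 h2
    have h4 : ∀ c, ∃ i, g i = c ∧ (∀ j, g j = c → j = i) ∧ f c = f' i := by
      intro c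
      obtain ⟨i, hi⟩ := h1 c
      have hm : i ∈ Finset.univ.filter (fun i => g i = c) := by
        rw [hi]
        exact Finset.mem_singleton_self i
      refine ⟨i, (Finset.mem_filter.1 hm).2, ?_, ?_⟩
      · intro j hj
        have : j ∈ Finset.univ.filter (fun i => g i = c) :=
          Finset.mem_filter.2 ⟨Finset.mem_univ _, hj⟩
        rw [hi] at this
        exact Finset.mem_singleton.1 this
      · have h2 := DFunLike.congr_fun h (Sum.inr c)
        rw [E_inr, E_inr, hi, Finset.sum_singleton] at h2
        have h3 : (Finset.univ.filter fun i : Fin l => id i = c) = {c} := by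
          ext i
          simp
        rw [h3, Finset.sum_singleton] at h2
        exact h2.symm
    refine ⟨⟨?_, ?_⟩, ?_⟩
    · intro i j hij
      obtain ⟨a, -, ha, -⟩ := h4 (g j)
      rw [ha i hij, ha j rfl]
    · intro c
      obtain ⟨i, hi, -, -⟩ := h4 c
      exact ⟨i, hi⟩
    · funext i
      obtain ⟨a, -, ha, hf⟩ := h4 (g i)
      rw [Function.comp_apply, hf, ha i rfl]
  · rintro ⟨hg, rfl⟩
    unfold E
    exact (Equiv.ofBijective g hg).sum_comp (fun c => Finsupp.single (Sum.inl c) 1 +
      Finsupp.single (Sum.inr c) (f c))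

lemma prod_enum {n : ℕ} (f' : Fin n → ℕ) :
    mA K l (Finset.univ.val.map f') = ∑ g : Fin n → Fin l, monomial (E f' g) 1 := by
  unfold mA
  rw [Multiset.map_map]
  change ∏ i, (∑ c : Fin l, X (Sum.inl c) * X (Sum.inr c) ^ f' i : MvPolynomial (W l) K) = _
  rw [Finset.prod_univ_sum, Fintype.piFinset_univ]
  refine Finset.sum_congr rfl fun g _ => ?_
  unfold E
  rw [monomial_sum_one]
  refine Finset.prod_congr rfl fun i _ => ?_
  rw [X_pow_eq_monomial]
  change monomial (Finsupp.single (Sum.inl (g i)) 1) (1 : K) * _ = _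
  rw [monomial_mul, one_mul]

lemma enum (s : Multiset ℕ) : ∃ f : Fin s.card → ℕ, Finset.univ.val.map f = s := by
  induction s using Quotient.inductionOn with
  | h L =>
    exact ⟨L.get, (Fin.univ_val_map L.get).trans (congrArg _ (List.ofFn_get L))⟩

open Classical in
lemma coeff_mA {n : ℕ} (f' : Fin n → ℕ) (f : Fin l → ℕ) :
    coeff (E f id) (mA K l (Finset.univ.val.map f')) =
      ((Finset.univ.filter fun g : Fin n → Fin l => Function.Bijective g ∧ f ∘ g = f').card : K) := by
  rw [prod_enum, coeff_sum, Finset.card_filter, Nat.cast_sum]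
  refine Finset.sum_congr rfl fun g _ => ?_
  rw [coeff_monomial]
  simp only [E_eq]
  split_ifs <;> simp

/-- the number of the symmetries -/
lemma card_sym (f : Fin l → ℕ) [DecidableEq ℕ] :
    (Finset.univ.filter fun g : Fin l → Fin l => Function.Bijective g ∧ f ∘ g = f).card =
      ∏ k ∈ (Finset.univ.val.map f : Multiset ℕ).toFinset,
        ((Finset.univ.val.map f : Multiset ℕ).count k).factorial := by
  have h1 : (Finset.univ.filter fun g : Fin l → Fin l => Function.Bijective g ∧ f ∘ g = f).card =
      Fintype.card {g : Equiv.Perm (Fin l) // f ∘ g = f} := by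
    rw [Fintype.card_subtype]
    symm
    refine Finset.card_bij (fun g _ => (g : Fin l → Fin l)) ?_ ?_ ?_
    · intro g hg
      exact Finset.mem_filter.2 ⟨Finset.mem_univ _, g.bijective, (Finset.mem_filter.1 hg).2⟩
    · intro g _ g' _ h
      exact DFunLike.coe_injective h
    · intro g hg
      obtain ⟨-, hg1, hg2⟩ := Finset.mem_filter.1 hg
      exact ⟨Equiv.ofBijective g hg1, Finset.mem_filter.2 ⟨Finset.mem_univ _, hg2⟩, rfl⟩
  rw [h1, DomMulAct.stabilizer_card', Multiset.toFinset_map, Finset.val_toFinset]
  refine Finset.prod_congr rfl fun k _ => ?_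
  congr 1
  rw [Fintype.card_subtype, Multiset.count_map]
  change _ = (Finset.univ.filter fun a => k = f a).card
  congr 1
  ext a
  simp only [Finset.mem_filter, Finset.mem_univ, true_and]
  exact eq_comm

end ExtAx

open ExtAx in
theorem extA (K : Type) [Field K] [CharZero K] (hP : PPSt K) : ExtASt K := by
  classical
  intro P n a t nu hF
  set l := nu.parts.card with hl
  obtain ⟨Q, hQ, hQe⟩ := hP.poly _ P _ hF
  let G : MvPolynomial (ℕ ⊕ W l) K := ∑ r : n.Partition, ∑ r' : n.Partition,
    C (a r r') * ((r.parts.map fun k => X (Sum.inl k)).prod * rename Sum.inr (mA K l r'.parts))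
  have hQG : Q = G := by
    apply MvPolynomial.funext
    intro v
    rw [hQe]
    simp only [G, map_sum, map_mul, eval_C]
    refine Finset.sum_congr rfl fun r _ => Finset.sum_congr rfl fun r' _ => ?_
    congr 2
    · rw [map_multiset_prod, Multiset.map_map]
      congr 1
      refine Multiset.map_congr rfl fun k _ => ?_
      rw [Function.comp_apply, eval_X]
    · rw [eval_rename]
      unfold mA
      rw [map_multiset_prod, Multiset.map_map]
      congr 1
      refine Multiset.map_congr rfl fun k _ => ?_
      simp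
  obtain ⟨f, hf⟩ := enum nu.parts
  have h := hQ (D l t.parts + (E f id).mapDomain Sum.inr)
  rw [hQG] at h
  have h2 : coeff (D l t.parts + (E f id).mapDomain Sum.inr) G =
      ((∏ k ∈ nu.parts.toFinset, (nu.parts.count k).factorial : ℕ) : K) * a t nu := by
    simp only [G, coeff_sum, coeff_C_mul, prod_X]
    rw [Finset.sum_eq_single t]
    · rw [Finset.sum_eq_single nu]
      · have e1 := coeff_mA (K := K) f f
        rw [card_sym, hf] at e1
        rw [coeff_eq, e1]
        exact mul_comm _ _
      · intro r' _ hr'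
        rw [coeff_eq]
        obtain ⟨f', hf'⟩ := enum r'.parts
        have e1 := coeff_mA (K := K) f' f
        rw [hf'] at e1
        rw [e1]
        have h3 : (Finset.univ.filter fun g : Fin r'.parts.card → Fin l =>
            Function.Bijective g ∧ f ∘ g = f') = ∅ := by
          apply Finset.filter_eq_empty_iff.2
          rintro g _ ⟨hg, hgf⟩
          apply hr'
          apply Nat.Partition.ext
          have h4 : Multiset.map g Finset.univ.val = Finset.univ.val :=
            Multiset.map_univ_val_equiv (Equiv.ofBijective g hg)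
          rw [← hf', ← hf, ← hgf, ← Multiset.map_map, h4]
        rw [h3, Finset.card_empty, Nat.cast_zero, mul_zero]
      · intro h'
        exact absurd (Finset.mem_univ nu) h'
    · intro r _ hr
      refine Finset.sum_eq_zero fun r' _ => ?_
      rw [coeff_ne _ _ (fun h' => hr (Nat.Partition.ext h')), mul_zero]
    · intro h'
      exact absurd (Finset.mem_univ t) h'
  rw [h2] at h
  exact h

end

end Pool.Agent.MJL
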