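import Pool.Agent.MJL.St2

/-!
Positivity of the logarithm of the series of the labelled process (unoriented openings).
-/

namespace Pool.Agent.MJL

open MvPolynomial Pool.Agent.MJR

noncomputable section

namespace Fin1

variable {K : Type} [Field K] {I : Type} [DecidableEq I] [Fintype I]

theorem iter_eq {V : Type} [AddCommGroup V] [Module K V] (f : V →ₗ[K] V) (k : ℕ) (x : V) :
    (f ^ k) x = (⇑f)^[k] x := Module.End.pow_apply f k x

theorem iw_smul (f : CW K I) : iw K f = f • iw K (1 : CW K I) := by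
  unfold iw
  change Finsupp.single [] f = f • Finsupp.single [] (1 : CW K I)
  rw [Finsupp.smul_single, smul_eq_mul, mul_one]

theorem cat_zero (hR : RulSt K I) (x : RW K I) : cat (0 : RW K I) x = 0 := by
  have h := hR.cat_smul 0 0 x
  rw [zero_smul, zero_smul] at h
  exact h

theorem Dop_C (hR : RulSt K I) (hA : RulASt K I) (w1 w2 : K) (s : I → K) (c : K) :
    Dop s (fun t => J w1 w2 t (C c : CW K I)) = 0 := by
  apply LinearMap.ext
  intro x
  rw [hA.Dop_apply, LinearMap.zero_apply]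
  refine Finset.sum_eq_zero fun t _ => ?_
  have h1 : J w1 w2 t (C c : CW K I) = 0 := by
    unfold J
    exact derivation_C _ _
  rw [h1, cat_zero hR, map_zero, smul_zero]

/-- the levels of the series of the process -/
def ph (al b w1 w2 : K) (u s : I → K) (x : ℕ → K) (n : ℕ) : CW K I :=
  SS al x n (Kw b w1 w2 u s)

/-- the levels of the logarithmic derivative -/
def ps (al b w1 w2 : K) (u s : I → K) (x : ℕ → K) (n : ℕ) : CW K I :=
  PowerSeries.coeff n (lg al (PowerSeries.mk (ph al b w1 w2 u s x)))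

theorem ph_zero (hS : SSmSt K) (al b w1 w2 : K) (u s : I → K) (x : ℕ → K) :
    ph al b w1 w2 u s x 0 = 1 := by
  unfold ph
  rw [hS.zero]
  rfl

theorem ph_const (hS : SSmSt K) (al b w1 w2 : K) (u s : I → K) (x : ℕ → K) :
    PowerSeries.constantCoeff (PowerSeries.mk (ph al b w1 w2 u s x)) = 1 := by
  rw [← PowerSeries.coeff_zero_eq_constantCoeff_apply, PowerSeries.coeff_mk, ph_zero hS]

theorem ps_conv (hS : SSmSt K) (hL : LgSt K) (al b w1 w2 : K) (u s : I → K) (x : ℕ → K)
    (n : ℕ) : ∑ p ∈ Finset.HasAntidiagonal.antidiagonal n,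
      ps al b w1 w2 u s x p.1 * ph al b w1 w2 u s x p.2 =
      (C (al * (n : K)) : CW K I) * ph al b w1 w2 u s x n := by
  have h := hL.mul al (PowerSeries.mk (ph al b w1 w2 u s x)) (ph_const hS al b w1 w2 u s x) n
  rw [PowerSeries.coeff_mul, PowerSeries.coeff_mk] at h
  rw [← smul_eq_C_mul, ← h]
  refine Finset.sum_congr rfl fun p _ => ?_
  rw [PowerSeries.coeff_mk]
  rfl

/-- variables: `x k = v (inl k)`, `u t = v (inr (inl t))`, `s t = v (inr (inr t))` -/
abbrev Vr (I : Type) := ℕ ⊕ (I ⊕ I)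

/-- The families of the logarithm are positive. -/
theorem ps_pos [CharZero K] (hP : PPSt K) (hR : RulSt K I) (hA : RulASt K I) (hC : ConeSt K I)
    (hS : SSmSt K) (hW : SSKwSt K I) (hL : LgSt K) {al : K} (hal : al ≠ 0) (P : Subsemiring K)
    (hb : al - 1 ∈ P) (h2 : (2 : K)⁻¹ ∈ P) (hinv : ∀ n : ℕ, (n : K)⁻¹ ∈ P) (n : ℕ) :
    (fun v : Vr I → K => ps al (al - 1) (al / 2) (al / 2) (fun t => v (Sum.inr (Sum.inl t)))
      (fun t => v (Sum.inr (Sum.inr t))) (fun k => v (Sum.inl k)) n) ∈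
      PP K (Vr I) (PC P I) := by
  have hw : al / 2 ∈ P := by
    have e : al / 2 = (al - 1 + 1) * 2⁻¹ := by ring
    rw [e]
    exact mul_mem (add_mem hb (one_mem _)) h2
  refine Alg.pos_half (Q := Vr I → K) (C := CW K I) (M := RW K I)
    (fun v => Aw (al - 1) (al / 2) (al / 2) (fun t => v (Sum.inr (Sum.inl t)))
      (fun t => v (Sum.inr (Sum.inr t))))
    (fun v f => Dop (fun t => v (Sum.inr (Sum.inr t))) (fun t => J (al / 2) (al / 2) t f))
    (clw K) (iw K 1) (fun v k => C (v (Sum.inl k))) (fun n => C (al * (n : K)))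
    (fun n => C (al * (n : K))⁻¹)
    (fun v => ph al (al - 1) (al / 2) (al / 2) (fun t => v (Sum.inr (Sum.inl t)))
      (fun t => v (Sum.inr (Sum.inr t))) (fun k => v (Sum.inl k)))
    (fun v => ps al (al - 1) (al / 2) (al / 2) (fun t => v (Sum.inr (Sum.inl t)))
      (fun t => v (Sum.inr (Sum.inr t))) (fun k => v (Sum.inl k)))
    ?_ ?_ ?_ ?_ ?_ ?_ ?_ ?_ ?_ (PP K (Vr I) (PC P I)) (PP K (Vr I) (PM P I)) ?_ ?_ ?_ ?_ n
  · intro v x y
    exact map_add _ x y
  · intro v f x
    exact hA.Aw_smul _ _ _ _ _ f x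
  · intro v n
    exact Dop_C hR hA _ _ _ _
  · intro n hn
    rw [← C_mul, inv_mul_cancel₀ (mul_ne_zero hal (Nat.cast_ne_zero.mpr hn)), C_1]
  · intro i j
    rw [← C_add, Nat.cast_add, mul_add]
  · intro v
    exact ph_zero hS _ _ _ _ _ _ _
  · intro v n hn
    have hne : al * (n : K) ≠ 0 := mul_ne_zero hal (Nat.cast_ne_zero.mpr hn)
    have h := hW al (al - 1) (al / 2) (al / 2) (fun t => v (Sum.inr (Sum.inl t)))
      (fun t => v (Sum.inr (Sum.inr t))) (fun k => v (Sum.inl k)) n hn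
    change C (al * (n : K)) * SS al _ n _ = _
    rw [h, ← smul_eq_C_mul, smul_smul, mul_inv_cancel₀ hne, one_smul]
    refine Finset.sum_congr rfl fun k _ => ?_
    rw [smul_eq_C_mul, iter_eq, ← iw_smul]
    rfl
  · intro v
    exact hL.zero al _ (ph_const hS _ _ _ _ _ _ _)
  · intro v n
    exact ps_conv hS hL _ _ _ _ _ _ _ n
  · exact hC.one _ P
  · intro F hF
    exact hC.Aw _ P _ _ _ hb hw hw _ _
      (fun t => hP.var _ P (Sum.inr (Sum.inl t))) (fun t => hP.var _ P (Sum.inr (Sum.inr t)))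
      F hF
  · intro F hF k
    have h := hC.clw _ P F hF (Sum.inl k)
    have e : (fun v : Vr I → K => (C (v (Sum.inl k)) : CW K I) * clw K (F v)) =
        fun v => v (Sum.inl k) • clw K (F v) := by
      funext v
      rw [smul_eq_C_mul]
    rw [e]
    exact h
  · intro n hn f hf F hF
    have hne : (n : K) ≠ 0 := Nat.cast_ne_zero.mpr hn
    have hc : (al * (n : K))⁻¹ * (al / 2) ∈ P := by
      have e : (al * (n : K))⁻¹ * (al / 2) = (n : K)⁻¹ * 2⁻¹ := by
        field_simp
      rw [e]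
      exact mul_mem (hinv n) h2
    have h := hC.Dop _ P (al * (n : K))⁻¹ (al / 2) (al / 2) hc hc _
      (fun t => hP.var _ P (Sum.inr (Sum.inr t))) f hf F hF
    have e : (fun v : Vr I → K => (C (al * (n : K))⁻¹ : CW K I) •
        Dop (fun t => v (Sum.inr (Sum.inr t))) (fun t => J (al / 2) (al / 2) t (f v)) (F v)) =
        fun v => (al * (n : K))⁻¹ •
          Dop (fun t => v (Sum.inr (Sum.inr t))) (fun t => J (al / 2) (al / 2) t (f v)) (F v) := by
      funext v
      exact algebraMap_smul (CW K I) _ _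
    rw [e]
    exact h

theorem sp_X0 (x q : ℕ → K) (k : ℕ) (v : B3 K) :
    sp x q ((X (0, k) : B3 K) • v) = x k • sp x q v := by
  rw [smul_eq_mul, map_mul, smul_eq_C_mul]
  congr 1
  unfold sp
  rw [aeval_X, if_pos rfl]

/-- `SS` and a linear map, for scalars. -/
theorem SS_map (hS : SSmSt K) {V W : Type} [AddCommGroup V] [Module K V] [AddCommGroup W]
    [Module K W] (al : K) (x : ℕ → K) (F : V →ₗ[K] W) (n : ℕ) (f : List ℕ → V) :
    F (SS al x n f) = SS al x n (fun p => F (f p)) :=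
  hS.map al x x F (fun k v => F.map_smul (x k) v) n f

theorem SS_sp (hS : SSmSt K) (al : K) (x q : ℕ → K) (n : ℕ) (f : List ℕ → B3 K) :
    sp x q (SS al (fun k => (X (0, k) : B3 K)) n f) = SS al x n (fun p => sp x q (f p)) :=
  hS.map (R := B3 K) (R' := K) al (fun k => (X (0, k) : B3 K)) x (sp x q).toLinearMap
    (fun k v => sp_X0 x q k v) n f

/-- The specialisation of the series of the labelled process. -/
theorem fgt_ph (hS : SSmSt K) (hLab : LabSt K I) (al b w1 w2 : K) (u s : I → K) (x : ℕ → K)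
    (n : ℕ) : fgt K I (ph al b w1 w2 u s x n) =
      sp x (fun k => ∑ t, u t * s t ^ k) (PowerSeries.coeff n (phiS al b w1 w2)) := by
  unfold ph phiS
  rw [PowerSeries.coeff_mk, SS_sp hS]
  have h1 := SS_map hS al x (fgt K I).toLinearMap n (Kw b w1 w2 u s)
  refine Eq.trans h1 ?_
  congr 1
  funext p
  exact hLab b w1 w2 u s x p

theorem fgt_ps (hS : SSmSt K) (hL : LgSt K) (hH : HomSt K) (hLab : LabSt K I)
    (al b w1 w2 : K) (u s : I → K) (x : ℕ → K) (n : ℕ) :
    fgt K I (ps al b w1 w2 u s x n) =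
      sp x (fun k => ∑ t, u t * s t ^ k) (PowerSeries.coeff n (lg al (phiS al b w1 w2))) := by
  have h1 := hL.map al (fgt K I) (PowerSeries.mk (ph al b w1 w2 u s x))
    (ph_const hS al b w1 w2 u s x)
  have h2 := hL.map al (sp x (fun k => ∑ t, u t * s t ^ k)) (phiS al b w1 w2)
    (hH.phiZ al b w1 w2)
  have h3 : PowerSeries.map (fgt K I).toRingHom (PowerSeries.mk (ph al b w1 w2 u s x)) =
      PowerSeries.map (sp x (fun k => ∑ t, u t * s t ^ k)).toRingHom (phiS al b w1 w2) := by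
    ext1 n
    rw [PowerSeries.coeff_map, PowerSeries.coeff_map, PowerSeries.coeff_mk]
    exact fgt_ph hS hLab al b w1 w2 u s x n
  rw [h3, ← h2] at h1
  have h4 := congrArg (PowerSeries.coeff n) h1
  rw [PowerSeries.coeff_map, PowerSeries.coeff_map] at h4
  exact h4

end Fin1

open Fin1 in
/-- The logarithm of the series of the labelled process is positive. -/
theorem fin1 (K : Type) [Field K] [CharZero K] (hP : PPSt K)
    (hR : ∀ l : ℕ, RulSt K (Fin l)) (hA : ∀ l : ℕ, RulASt K (Fin l))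
    (hC : ∀ l : ℕ, ConeSt K (Fin l)) (hS : SSmSt K) (hW : ∀ l : ℕ, SSKwSt K (Fin l))
    (hL : LgSt K) (hH : HomSt K) (hLab : ∀ l : ℕ, LabSt K (Fin l)) (hE : ExtASt K) {al : K}
    (hal : al ≠ 0) (P : Subsemiring K) (hb : al - 1 ∈ P) (h2 : (2 : K)⁻¹ ∈ P)
    (hinv : ∀ n : ℕ, (n : K)⁻¹ ∈ P) (n : ℕ) (t m nu : n.Partition) :
    coeff (expo3 t m nu) (PowerSeries.coeff n
      (lg al (phiS al (al - 1) (al / 2) (al / 2)))) ∈ P := by
  have h1 := ps_pos hP (hR nu.parts.card) (hA _) (hC _) hS (hW _) hL hal P hb h2 hinv n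
  have h3 := (hC nu.parts.card).fgt _ P _ h1
  have h4 := (hC nu.parts.card).coeff _ P (expo m) _ h3
  have hm : PowerSeries.coeff n (lg al (phiS al (al - 1) (al / 2) (al / 2))) ∈ H3 K n :=
    hH.log al _ (hH.phiZ _ _ _ _) (hH.phiN _ _ _ _) n
  have h5 := hE P n (fun t nu => coeff (expo3 t m nu) (PowerSeries.coeff n
    (lg al (phiS al (al - 1) (al / 2) (al / 2))))) t nu (by
      have e : (fun v : ℕ ⊕ (Fin nu.parts.card ⊕ Fin nu.parts.card) → K =>
          ∑ r : n.Partition, ∑ r' : n.Partition, coeff (expo3 r m r') (PowerSeries.coeff n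
            (lg al (phiS al (al - 1) (al / 2) (al / 2)))) *
            ((r.parts.map fun k => v (Sum.inl k)).prod *
            (r'.parts.map fun k => ∑ c, v (Sum.inr (Sum.inl c)) *
              v (Sum.inr (Sum.inr c)) ^ k).prod)) =
          fun v => coeff (expo m) (fgt K (Fin nu.parts.card)
            (ps al (al - 1) (al / 2) (al / 2) (fun t => v (Sum.inr (Sum.inl t)))
            (fun t => v (Sum.inr (Sum.inr t))) (fun k => v (Sum.inl k)) n)) := by
        funext v
        rw [fgt_ps hS hL hH (hLab _), hH.spe _ _ n _ hm m]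
      rw [e]
      exact h4)
  have hN : ((∏ k ∈ nu.parts.toFinset, (nu.parts.count k).factorial : ℕ) : K) ≠ 0 := by
    rw [Nat.cast_ne_zero]
    exact Finset.prod_ne_zero_iff.mpr fun k _ => Nat.factorial_ne_zero _
  have h6 := mul_mem (hinv (∏ k ∈ nu.parts.toFinset, (nu.parts.count k).factorial)) h5
  rw [← mul_assoc, inv_mul_cancel₀ hN, one_mul] at h6
  exact h6

end

end Pool.Agent.MJL
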