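import Pool.Agent.MJL.Fin1
import Pool.Agent.MJF.Five
import Pool.Agent.MJF.AI
import Pool.Agent.MJR.Fin

/-!
The coefficients `h` of the good classes are the coefficients of the labelled process.
-/

namespace Pool.Agent.MJL

open MvPolynomial Pool.Agent.MJR
open Pool.Agent.MJF (ic)

noncomputable section

namespace Fin3

/-- A linear form in monomials which vanishes everywhere. -/
theorem extx {K : Type} [Field K] [CharZero K] {n : ℕ} (c : n.Partition → K)
    (h : ∀ x : ℕ → K, ∑ t : n.Partition, c t * (t.parts.map x).prod = 0) (t : n.Partition) :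
    c t = 0 := by
  have h1 : (toL c : Lam K) = 0 := by
    apply MvPolynomial.funext
    intro x
    rw [map_zero, ← h x]
    unfold toL pp
    rw [map_sum]
    refine Finset.sum_congr rfl fun r _ => ?_
    rw [map_mul, eval_C, map_multiset_prod, Multiset.map_map]
    congr 2
    refine Multiset.map_congr rfl fun k _ => ?_
    exact eval_X k
  rw [← coeff_toL c t, h1, coeff_zero]

theorem qB {K : Type} [Field K] (u u2 s : K) :
    (fun k => ∑ t, uB u u2 t * uB 1 s t ^ k) = fun k => u + u2 * s ^ k := by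
  funext k
  rw [Fintype.sum_bool]
  unfold uB
  simp
  ring

/-- The truth is the specialisation of the labelled process. -/
theorem truB (hT : TruSt) (hS : SSmSt QA) (hX : SSXSt QA) (hLab : LabSt QA Bool)
    (hHalf : HalfSt QA) {J : (n : ℕ) → n.Partition → n.Partition → QA}
    (hJ : ∀ n, IsJack RatFunc.X n (J n)) {u2 : QA} (h2 : u2 = 1 ∨ u2 = -RatFunc.X) (u s : QA)
    (x : ℕ → QA) (n : ℕ) :
    sp x (fun k => u + u2 * s ^ k) (PowerSeries.coeff n (phi RatFunc.X J)) =
      sp x (fun k => u + u2 * s ^ k) (PowerSeries.coeff n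
        (phiS RatFunc.X (RatFunc.X - 1) (RatFunc.X / 2) (RatFunc.X / 2))) := by
  obtain ⟨tau, kap, Kc, hK, he⟩ := hT J hJ u2 u s h2
  rw [he]
  unfold phiS
  rw [PowerSeries.coeff_mk, Fin1.SS_sp hS]
  have h3 : SS (RatFunc.X : QA) x n (fun p => sp x (fun k => u + u2 * s ^ k)
      (Zp ((RatFunc.X : QA) - 1) (RatFunc.X / 2) (RatFunc.X / 2) p)) =
      SS (RatFunc.X : QA) x n (fun p => MJF.fgt QA (ic tau (Kc
        (p.map fun k => (X k : Lam QA)).prod))) := by
    refine hS.congr _ _ _ _ _ fun p _ hp => ?_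
    rw [← qB, ← hLab, hHalf _ _ _ _ _ _ hK.h0 hK.h1 hK.h2 hK.h3 hK.ht hK.hq Kc hK.one hK.hK p hp,
      MJF.Kw_eq (MJF.aI QA) (MJF.aP QA) hK.h1 hK.h2 hK.h3 hK.ht hK.hq u s Kc hK.one hK.hK p hp]
    rfl
  rw [h3]
  have h4 := Fin1.SS_map hS (RatFunc.X : QA) x
    ((MJF.fgt QA).toLinearMap ∘ₗ ic tau ∘ₗ Kc) n
    (fun p => ((p.map fun k => (X k : Lam QA)).prod : Lam QA))
  rw [hX RatFunc.X hK.h0] at h4
  exact h4

end Fin3

open Fin3 in
/-- The coefficients of the good classes are those of the labelled process. -/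
theorem fin3 (hT : TruSt) (hS : SSmSt QA) (hX : SSXSt QA) (hLab : LabSt QA Bool)
    (hHalf : HalfSt QA) (hL : LgSt QA) (hH : HomSt QA)
    {J : (n : ℕ) → n.Partition → n.Partition → QA}
    (hJ : ∀ n, IsJack RatFunc.X n (J n)) {psi : PowerSeries (B3 QA)}
    (hpsi : IsPsi RatFunc.X J psi) {n : ℕ} (t m nu : n.Partition)
    (hnu : MJT.Good nu) :
    hc psi t m nu = coeff (expo3 t m nu) (PowerSeries.coeff n (lg (RatFunc.X : QA)
      (phiS RatFunc.X (RatFunc.X - 1) (RatFunc.X / 2) (RatFunc.X / 2)))) := by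
  have hX0 : (RatFunc.X : QA) ≠ 0 := RatFunc.X_ne_zero
  have hc0 : PowerSeries.constantCoeff (phi RatFunc.X J) = 1 := by
    rw [← PowerSeries.coeff_zero_eq_constantCoeff_apply]
    exact ExtrM.phi_zero J hJ
  have hS0 := hH.phiZ (RatFunc.X : QA) (RatFunc.X - 1) (RatFunc.X / 2) (RatFunc.X / 2)
  have hpe := hL.psi RatFunc.X J psi hc0 hpsi
  -- the specialisations of the two series agree
  have h1 : ∀ u2 : QA, (u2 = 1 ∨ u2 = -RatFunc.X) → ∀ (u s : QA) (x : ℕ → QA),
      sp x (fun k => u + u2 * s ^ k) (PowerSeries.coeff n psi) =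
      sp x (fun k => u + u2 * s ^ k) (PowerSeries.coeff n (lg (RatFunc.X : QA)
        (phiS RatFunc.X (RatFunc.X - 1) (RatFunc.X / 2) (RatFunc.X / 2)))) := by
    intro u2 h2 u s x
    have e1 := hL.map (RatFunc.X : QA) (sp x (fun k => u + u2 * s ^ k)) (phi RatFunc.X J) hc0
    have e2 := hL.map (RatFunc.X : QA) (sp x (fun k => u + u2 * s ^ k))
      (phiS RatFunc.X (RatFunc.X - 1) (RatFunc.X / 2) (RatFunc.X / 2)) hS0
    have e3 : PowerSeries.map (sp x (fun k => u + u2 * s ^ k)).toRingHom (phi RatFunc.X J) =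
        PowerSeries.map (sp x (fun k => u + u2 * s ^ k)).toRingHom
        (phiS RatFunc.X (RatFunc.X - 1) (RatFunc.X / 2) (RatFunc.X / 2)) := by
      ext1 n
      rw [PowerSeries.coeff_map, PowerSeries.coeff_map]
      exact truB hT hS hX hLab hHalf hJ h2 u s x n
    rw [e3, ← e2, ← hpe] at e1
    have e4 := congrArg (PowerSeries.coeff n) e1
    rw [PowerSeries.coeff_map, PowerSeries.coeff_map] at e4
    exact e4
  have hm1 : PowerSeries.coeff n psi ∈ H3 QA n := by
    rw [hpe]
    exact hH.log _ _ hc0 (hH.phi _ _) n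
  have hm2 := hH.log (RatFunc.X : QA) _ hS0 (hH.phiN _ _ _ _) n
  -- the coefficients
  have h2 : ∀ u2 : QA, (u2 = 1 ∨ u2 = -RatFunc.X) → ∀ u s : QA,
      ∑ v : n.Partition, (hc psi t m v - coeff (expo3 t m v) (PowerSeries.coeff n
        (lg (RatFunc.X : QA) (phiS RatFunc.X (RatFunc.X - 1) (RatFunc.X / 2) (RatFunc.X / 2))))) *
        (v.parts.map fun k => u + u2 * s ^ k).prod = 0 := by
    intro u2 hu u s
    refine extx (fun t : n.Partition => ∑ v : n.Partition, (hc psi t m v -
      coeff (expo3 t m v) (PowerSeries.coeff n (lg (RatFunc.X : QA) (phiS RatFunc.X (RatFunc.X - 1)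
        (RatFunc.X / 2) (RatFunc.X / 2))))) * (v.parts.map fun k => u + u2 * s ^ k).prod)
      (fun x => ?_) t
    have e1 := congrArg (coeff (expo m)) (h1 u2 hu u s x)
    rw [hH.spe _ _ n _ hm1, hH.spe _ _ n _ hm2, ← sub_eq_zero, ← Finset.sum_sub_distrib] at e1
    rw [← e1]
    refine Finset.sum_congr rfl fun r _ => ?_
    rw [← Finset.sum_sub_distrib, Finset.sum_mul]
    refine Finset.sum_congr rfl fun v _ => ?_
    unfold hc
    ring
  have h5 := MJT.good (al := (RatFunc.X : QA)) hX0 MJF.X1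
    (fun v : n.Partition => hc psi t m v - coeff (expo3 t m v) (PowerSeries.coeff n
        (lg (RatFunc.X : QA) (phiS RatFunc.X (RatFunc.X - 1) (RatFunc.X / 2) (RatFunc.X / 2)))))
    (fun u v0 s hv => by
      rcases hv with rfl | hv | hv
      · refine Eq.trans ?_ (h2 1 (Or.inl rfl) u 0)
        refine Finset.sum_congr rfl fun nu _ => ?_
        congr 2
        refine Multiset.map_congr rfl fun k hk => ?_
        rw [zero_pow (nu.parts_pos hk).ne']
        ring
      · exact h2 v0 (Or.inl hv) u s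
      · exact h2 v0 (Or.inr hv) u s) nu hnu
  exact sub_eq_zero.mp h5

end

end Pool.Agent.MJL
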