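import Pool.Agent.MJL.St

/-!
The sets `ℚ≥0[b]`, `ℤ[b]`, `ℕ[b]`.
-/

namespace Pool.Agent.MJL

open Pool.Agent.MJR

noncomputable section

namespace NumM

open Polynomial

/-- polynomials with nonnegative coefficients -/
def PQ : Subsemiring ℚ[X] where
  carrier := {q | ∀ n, 0 ≤ q.coeff n}
  mul_mem' := by
    intro p q hp hq n
    rw [coeff_mul]
    exact Finset.sum_nonneg fun x _ => mul_nonneg (hp _) (hq _)
  one_mem' := by
    intro n
    rw [coeff_one]
    split_ifs
    · exact zero_le_one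
    · exact le_rfl
  add_mem' := by
    intro p q hp hq n
    rw [coeff_add]
    exact add_nonneg (hp _) (hq _)
  zero_mem' := by
    intro n
    rw [coeff_zero]

/-- evaluation at `b` -/
def evQ : ℚ[X] →+* RatFunc ℚ := eval₂RingHom (algebraMap ℚ (RatFunc ℚ)) (RatFunc.X - 1)

theorem evQ_eq (q : ℚ[X]) : evQ q = algebraMap ℚ[X] (RatFunc ℚ) (q.comp (X - 1)) := by
  have h : evQ = (algebraMap ℚ[X] (RatFunc ℚ)).comp (compRingHom (X - 1 : ℚ[X])) := by
    apply Polynomial.ringHom_ext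
    · intro a
      simp [evQ]
    · simp [evQ, RatFunc.algebraMap_X]
  rw [h]
  rfl

theorem evQ_inj : Function.Injective evQ := by
  rw [injective_iff_map_eq_zero]
  intro q hq
  rw [evQ_eq] at hq
  have h1 : q.comp (X - 1) = 0 := by
    apply IsFractionRing.injective ℚ[X] (RatFunc ℚ)
    rw [hq, map_zero]
  have h2 : (q.comp (X - 1)).comp (X + 1) = q := by
    rw [comp_assoc]
    simp
  rw [← h2, h1, zero_comp]

theorem qb_poly {y : RatFunc ℚ} (hy : y ∈ Qb (RatFunc.X : RatFunc ℚ)) : ∃ q ∈ PQ, evQ q = y := by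
  have h : Qb (RatFunc.X : RatFunc ℚ) ≤ PQ.map evQ := by
    unfold Qb
    rw [Subsemiring.closure_le]
    rintro z (hz | ⟨n, rfl⟩)
    · rw [Set.mem_singleton_iff] at hz
      subst hz
      refine ⟨X, ?_, ?_⟩
      · intro n
        rw [coeff_X]
        split_ifs
        · exact zero_le_one
        · exact le_rfl
      · simp [evQ]
    · refine ⟨C ((n : ℚ)⁻¹), ?_, ?_⟩
      · intro m
        rw [coeff_C]
        split_ifs
        · positivity
        · exact le_rfl
      · simp [evQ]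
  obtain ⟨q, hq, hqy⟩ := h hy
  exact ⟨q, hq, hqy⟩

/-- evaluation of integer polynomials at `b` -/
def evZ : ℤ[X] →+* RatFunc ℚ := evQ.comp (mapRingHom (Int.castRingHom ℚ))

theorem zb_poly {y : RatFunc ℚ} (hy : y ∈ Zb (RatFunc.X : RatFunc ℚ)) : ∃ p : ℤ[X], evZ p = y := by
  have h : Zb (RatFunc.X : RatFunc ℚ) ≤ evZ.range := by
    unfold Zb
    rw [Subring.closure_le]
    rintro z hz
    rw [Set.mem_singleton_iff] at hz
    subst hz
    refine ⟨X, ?_⟩
    simp [evZ, evQ]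
  exact h hy

theorem poly_zb (p : ℤ[X]) : evZ p ∈ Zb (RatFunc.X : RatFunc ℚ) := by
  induction p using Polynomial.induction_on' with
  | add p q hp hq =>
    rw [map_add]
    exact add_mem hp hq
  | monomial n a =>
    have h : evZ (monomial n a) = (a : RatFunc ℚ) * (RatFunc.X - 1) ^ n := by
      simp [evZ, evQ]
    rw [h]
    exact mul_mem (intCast_mem _ a) (pow_mem (Subring.subset_closure (Set.mem_singleton _)) n)

end NumM

open NumM Polynomial in
/-- primitivity of `(b + 1) (b + 2)` -/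
theorem prim (y : RatFunc ℚ) (hy : y ∈ Qb (RatFunc.X : RatFunc ℚ))
    (h : RatFunc.X * (1 + RatFunc.X) * y ∈ Zb (RatFunc.X : RatFunc ℚ)) : y ∈ Zb RatFunc.X := by
  obtain ⟨q, -, rfl⟩ := qb_poly hy
  obtain ⟨p, hp⟩ := zb_poly h
  obtain ⟨m, hm⟩ : ∃ m : ℤ[X], m = (X + C 1) * (X + C 2) := ⟨_, rfl⟩
  have hmm : m.Monic := by
    rw [hm]
    exact (monic_X_add_C 1).mul (monic_X_add_C 2)
  have h1 : evQ (p.map (Int.castRingHom ℚ)) = evQ (m.map (Int.castRingHom ℚ) * q) := by
    rw [map_mul]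
    have h2 : evQ (m.map (Int.castRingHom ℚ)) = RatFunc.X * (1 + RatFunc.X) := by
      have ha : evQ ((X + C 1 : ℤ[X]).map (Int.castRingHom ℚ)) = RatFunc.X := by
        simp [evQ]
      have hb : evQ ((X + C 2 : ℤ[X]).map (Int.castRingHom ℚ)) = 1 + RatFunc.X := by
        have hc : evQ ((X + C 2 : ℤ[X]).map (Int.castRingHom ℚ)) = RatFunc.X - 1 + 2 := by
          simp [evQ]
        rw [hc]
        ring
      rw [hm, Polynomial.map_mul, map_mul, ha, hb]
    rw [h2, ← hp]
    rfl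
  have h3 := evQ_inj h1
  have hmm' : (m.map (Int.castRingHom ℚ)).Monic := hmm.map _
  have h4 : q = (p /ₘ m).map (Int.castRingHom ℚ) := by
    rw [map_divByMonic _ hmm, h3, mul_divByMonic_cancel_left _ hmm']
  rw [h4]
  exact poly_zb (p /ₘ m)

open NumM Polynomial in
theorem nb_of (y : RatFunc ℚ) (hy : y ∈ Qb (RatFunc.X : RatFunc ℚ))
    (h : y ∈ Zb (RatFunc.X : RatFunc ℚ)) : y ∈ Nb (RatFunc.X : RatFunc ℚ) := by
  obtain ⟨q, hq, hqy⟩ := qb_poly hy
  obtain ⟨p, hp⟩ := zb_poly h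
  have h1 : p.map (Int.castRingHom ℚ) = q := by
    apply evQ_inj
    rw [hqy, ← hp]
    rfl
  have h2 : p ∈ lifts (Nat.castRingHom ℤ) := by
    rw [lifts_iff_coeff_lifts]
    intro n
    have h3 : (0 : ℚ) ≤ ((p.coeff n : ℤ) : ℚ) := by
      have h4 := hq n
      rw [← h1, coeff_map] at h4
      exact h4
    have h5 : 0 ≤ p.coeff n := Int.cast_nonneg_iff.1 h3
    obtain ⟨k, hk⟩ := Int.eq_ofNat_of_zero_le h5
    exact ⟨k, by rw [hk]; rfl⟩
  obtain ⟨r, hr⟩ := (mem_lifts p).1 h2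
  refine ⟨r, ?_⟩
  rw [← hp, ← hr]
  unfold evZ evQ
  rw [coe_eval₂RingHom, RingHom.comp_apply, coe_mapRingHom, coe_eval₂RingHom, map_map, eval₂_map]
  congr 1
  ext n
  simp

/-! ### The rational and integer sets for any field -/

section

variable {K : Type} [Field K]

theorem half_mem (al : K) : (2 : K)⁻¹ ∈ Qb al := by
  apply Subsemiring.subset_closure
  right
  exact ⟨2, by norm_num⟩

theorem inv_mem (al : K) (n : ℕ) : ((n : K)⁻¹) ∈ Qb al := by
  apply Subsemiring.subset_closure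
  right
  exact ⟨n, rfl⟩

theorem b_mem (al : K) : al - 1 ∈ Qb al := by
  apply Subsemiring.subset_closure
  left
  exact Set.mem_singleton _

theorem Nb_le_Qb (al : K) : Nb al ≤ Qb al := by
  rintro _ ⟨p, rfl⟩
  rw [Polynomial.coe_eval₂RingHom, Polynomial.eval₂_eq_sum_range]
  apply sum_mem
  intro i _
  exact mul_mem (natCast_mem _ _) (pow_mem (b_mem al) i)

theorem Nb_le_Zb (al : K) {c : K} (hc : c ∈ Nb al) : c ∈ Zb al := by
  obtain ⟨p, rfl⟩ := hc
  rw [Polynomial.coe_eval₂RingHom, Polynomial.eval₂_eq_sum_range]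
  apply sum_mem
  intro i _
  exact mul_mem (natCast_mem _ _)
    (pow_mem (Subring.subset_closure (Set.mem_singleton (al - 1))) i)

end

end

end Pool.Agent.MJL
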