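import Pool.Agent.MJL.Fin3
import Pool.Agent.MJL.Mgc
import Pool.Agent.MJL.Lab
import Pool.Agent.MJL.ExtA
import Pool.Agent.MJL.Num

/-!
The coefficients `h` of the good classes have nonnegative coefficients.
-/

namespace Pool.Agent.MJL

open MvPolynomial Pool.Agent.MJR

noncomputable section

/-- Nonnegativity if the third partition is good. -/
theorem good_third (hT : TruSt) (hHalf : HalfSt QA)
    {J : (n : ℕ) → n.Partition → n.Partition → QA}
    (hJ : ∀ n, IsJack RatFunc.X n (J n)) {psi : PowerSeries (B3 QA)}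
    (hpsi : IsPsi RatFunc.X J psi) {n : ℕ} (t m nu : n.Partition) (hnu : MJT.Good nu) :
    hc psi t m nu ∈ Qb (RatFunc.X : QA) := by
  have hP := pPm QA
  rw [fin3 hT (sSm QA) (sSX QA) (lab QA Bool) hHalf (lgm QA) (homm QA) hJ hpsi t m nu hnu]
  exact fin1 QA hP (fun l => rul QA (Fin l)) (fun l => rulA QA (Fin l))
    (fun l => conem QA (Fin l) hP (rul QA (Fin l)) (rulA QA (Fin l))) (sSm QA)
    (fun l => sSKw QA (Fin l)) (lgm QA) (homm QA) (fun l => lab QA (Fin l)) (extA QA hP)
    RatFunc.X_ne_zero (Qb (RatFunc.X : QA)) (b_mem _) (half_mem _) (fun n => inv_mem _ n) n t m nu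

/-- Nonnegativity if one of the three partitions is good. -/
theorem good_any (hT : TruSt) (hHalf : HalfSt QA)
    {J : (n : ℕ) → n.Partition → n.Partition → QA}
    (hJ : ∀ n, IsJack RatFunc.X n (J n)) {psi : PowerSeries (B3 QA)}
    (hpsi : IsPsi RatFunc.X J psi) {n : ℕ} (t m nu : n.Partition)
    (h : MJT.Good t ∨ MJT.Good m ∨ MJT.Good nu) :
    hc psi t m nu ∈ Qb (RatFunc.X : QA) := by
  have hs := symM QA RatFunc.X RatFunc.X_ne_zero J hJ psi hpsi n
  rcases h with h | h | h
  · rw [(hs t m nu).1, (hs m t nu).2]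
    exact good_third hT hHalf hJ hpsi m nu t h
  · rw [(hs t m nu).2]
    exact good_third hT hHalf hJ hpsi t nu m h
  · exact good_third hT hHalf hJ hpsi t m nu h

end

end Pool.Agent.MJL
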