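import Pool.Agent.MJL.Defs
import Pool.Agent.MJF.Defs
import Pool.Agent.MJX.Defs

/-!
Statements of the modules of the log versions, as propositions.
-/

namespace Pool.Agent.MJL

open MvPolynomial Pool.Agent.MJR
open Pool.Agent.MJF (spl Stt inc cls)

noncomputable section

/-- the two weights of the two colours -/
def uB {K : Type} (u u2 : K) : Bool → K := fun t => if t then u2 else u

/-- the marginal polynomial `∏ (u + v s^k)` with `u = X false`, `s = X true` -/
def mg {K : Type} [Field K] (v : K) {n : ℕ} (nu : n.Partition) : MvPolynomial Bool K :=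
  (nu.parts.map fun k => (X false + C v * X true ^ k : MvPolynomial Bool K)).prod

/-! ### (Rul) rules for the words -/

structure RulSt (K I : Type) [Field K] [DecidableEq I] : Prop where
  /-- `opn` is a function of the cyclic word -/
  J_cy : ∀ (w1 w2 : K) (t : I) (L : List I), J w1 w2 t (cy K L) = opn w1 w2 t L
  opr_single : ∀ (d : Derivation K (CW K I) (RW K I)) (g : List I → RW K I) (L : List I)
    (f : CW K I), opr d g (Finsupp.single L f) = f • g L + app L (d f)
  opr_smul : ∀ (d : Derivation K (CW K I) (RW K I)) (g : List I → RW K I) (f : CW K I)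
    (x : RW K I), opr d g (f • x) = f • opr d g x + cat (d f) x
  cat_single : ∀ (m : RW K I) (L : List I) (f : CW K I),
    cat m (Finsupp.single L f) = f • app L m
  cat_add : ∀ (m m' x : RW K I), cat (m + m') x = cat m x + cat m' x
  cat_smul : ∀ (f : CW K I) (m x : RW K I), cat (f • m) x = f • cat m x
  /-- the weights of the openings -/
  J_add : ∀ (c c' w1 w2 w1' w2' : K) (t : I) (f : CW K I),
    J (c * w1 + c' * w1') (c * w2 + c' * w2') t f = c • J w1 w2 t f + c' • J w1' w2' t f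

structure RulASt (K I : Type) [Field K] [DecidableEq I] [Fintype I] : Prop where
  Aw_smul : ∀ (b w1 w2 : K) (u s : I → K) (f : CW K I) (x : RW K I),
    Aw b w1 w2 u s (f • x) = f • Aw b w1 w2 u s x + Dop s (fun t => J w1 w2 t f) x
  Aw_apply : ∀ (b w1 w2 : K) (u s : I → K) (x : RW K I),
    Aw b w1 w2 u s x = ∑ t, s t • pre [t] (u t • x + T b w1 w2 t x)
  Dop_apply : ∀ (s : I → K) (m : I → RW K I) (x : RW K I),
    Dop s m x = ∑ t, (C (s t) : CW K I) • pre [t] (cat (m t) x)

/-! ### (Lab) the labelled process -/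

/-- The words in the colours `I` are the labelled words with coloured labels. -/
def LabSt (K I : Type) [Field K] [DecidableEq I] [Fintype I] : Prop :=
  ∀ (b w1 w2 : K) (u s : I → K) (x : ℕ → K) (p : List ℕ), fgt K I (Kw b w1 w2 u s p) =
    sp x (fun k => ∑ t, u t * s t ^ k) (Zp b w1 w2 p)

/-! ### (Cone) positivity of families -/

section
variable {K : Type} [Field K]

/-- General rules for families. -/
structure PPSt (K : Type) [Field K] : Prop where
  const : ∀ {V : Type} [AddCommGroup V] [Module K V] (A : Type) (P : AddSubmonoid V) (p : V),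
    p ∈ P → (fun _ : A → K => p) ∈ PP K A P
  lin : ∀ {V W : Type} [AddCommGroup V] [Module K V] [AddCommGroup W] [Module K W] (A : Type)
    (P : AddSubmonoid V) (Q : AddSubmonoid W) (f : V →ₗ[K] W), (∀ p ∈ P, f p ∈ Q) →
    ∀ F ∈ PP K A P, (fun v => f (F v)) ∈ PP K A Q
  bilin : ∀ {U V W : Type} [AddCommGroup U] [Module K U] [AddCommGroup V] [Module K V]
    [AddCommGroup W] [Module K W] (A : Type) (P : AddSubmonoid U) (Q : AddSubmonoid V)
    (R : AddSubmonoid W) (f : U →ₗ[K] V →ₗ[K] W), (∀ p ∈ P, ∀ q ∈ Q, f p q ∈ R) →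
    ∀ F ∈ PP K A P, ∀ G ∈ PP K A Q, (fun v => f (F v) (G v)) ∈ PP K A R
  var : ∀ (A : Type) (P : Subsemiring K) (a : A), (fun v => v a) ∈ PP K A P.toAddSubmonoid
  smul : ∀ {V : Type} [AddCommGroup V] [Module K V] (A : Type) (P : Subsemiring K)
    (Q : AddSubmonoid V), (∀ c ∈ P, ∀ q ∈ Q, c • q ∈ Q) →
    ∀ F ∈ PP K A P.toAddSubmonoid, ∀ G ∈ PP K A Q, (fun v => F v • G v) ∈ PP K A Q
  poly : ∀ (A : Type) (P : Subsemiring K), ∀ F ∈ PP K A P.toAddSubmonoid,
    ∃ Q : MvPolynomial A K, (∀ e, coeff e Q ∈ P) ∧ ∀ v, eval v Q = F v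

/-- Positivity of the operators. -/
structure ConeSt (K I : Type) [Field K] [DecidableEq I] [Fintype I] : Prop where
  one : ∀ (A : Type) (P : Subsemiring K), (fun _ : A → K => iw K 1) ∈ PP K A (PM P I)
  Aw : ∀ (A : Type) (P : Subsemiring K) (b w1 w2 : K), b ∈ P → w1 ∈ P → w2 ∈ P →
    ∀ u s : (A → K) → I → K, (∀ t, (fun v => u v t) ∈ PP K A P.toAddSubmonoid) →
    (∀ t, (fun v => s v t) ∈ PP K A P.toAddSubmonoid) → ∀ F ∈ PP K A (PM P I),
    (fun v => Aw b w1 w2 (u v) (s v) (F v)) ∈ PP K A (PM P I)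
  clw : ∀ (A : Type) (P : Subsemiring K), ∀ F ∈ PP K A (PM P I), ∀ a : A,
    (fun v => v a • clw K (F v)) ∈ PP K A (PC P I)
  Dop : ∀ (A : Type) (P : Subsemiring K) (c w1 w2 : K), c * w1 ∈ P → c * w2 ∈ P →
    ∀ s : (A → K) → I → K, (∀ t, (fun v => s v t) ∈ PP K A P.toAddSubmonoid) →
    ∀ f ∈ PP K A (PC P I), ∀ F ∈ PP K A (PM P I),
    (fun v => c • Dop (s v) (fun t => J w1 w2 t (f v)) (F v)) ∈ PP K A (PM P I)
  fgt : ∀ (A : Type) (P : Subsemiring K), ∀ F ∈ PP K A (PC P I),
    (fun v => fgt K I (F v)) ∈ PP K A (PL P)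
  coeff : ∀ (A : Type) (P : Subsemiring K) (e : ℕ →₀ ℕ), ∀ F ∈ PP K A (PL P),
    (fun v => MvPolynomial.coeff e (F v)) ∈ PP K A P.toAddSubmonoid

/-- the part of the words ending with the letter `t` -/
def ed (K : Type) [Field K] {I : Type} [DecidableEq I] (t : I) :
    RW K I →ₗ[CW K I] RW K I :=
  Finsupp.linearCombination (CW K I) fun L => if L.getLast? = some t then rw1 K L else 0

/-- The part of the words ending with a letter. -/
structure EdSt (K I : Type) [Field K] [DecidableEq I] [Fintype I] : Prop where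
  J : ∀ (w1 w2 : K) (t t' : I) (f : CW K I),
    ed K t (J w1 w2 t' f) = if t = t' then J w1 w2 t f else 0
  Dop : ∀ (A : Type) (P : Subsemiring K) (s : (A → K) → I → K),
    (∀ t, (fun v => s v t) ∈ PP K A P.toAddSubmonoid) →
    ∀ m ∈ PP K A (PM P I), ∀ F ∈ PP K A (PM P I),
    (fun v => Dop (s v) (fun t => ed K t (m v)) (F v)) ∈ PP K A (PM P I)

end

/-! ### (SSm) sums over compositions -/

structure SSmSt (K : Type) [Field K] : Prop where
  zero : ∀ {R V : Type} [CommRing R] [AddCommGroup V] [Module K V] [Module R V] (al : K)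
    (x : ℕ → R) (f : List ℕ → V), SS al x 0 f = f []
  succ : ∀ {R V : Type} [CommRing R] [AddCommGroup V] [Module K V] [Module R V] (al : K)
    (x : ℕ → R) (n : ℕ) (f : List ℕ → V), n ≠ 0 → SS al x n f =
    (al * (n : K))⁻¹ • ∑ k ∈ Finset.Icc 1 n, x k • SS al x (n - k) (fun p => f (k :: p))
  congr : ∀ {R V : Type} [CommRing R] [AddCommGroup V] [Module K V] [Module R V] (al : K)
    (x : ℕ → R) (n : ℕ) (f g : List ℕ → V),
    (∀ p : List ℕ, p.sum = n → (∀ k ∈ p, k ≠ 0) → f p = g p) → SS al x n f = SS al x n g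
  map : ∀ {R R' V W : Type} [CommRing R] [CommRing R'] [AddCommGroup V] [Module K V]
    [Module R V] [AddCommGroup W] [Module K W] [Module R' W] (al : K) (x : ℕ → R) (x' : ℕ → R')
    (F : V →ₗ[K] W), (∀ k v, F (x k • v) = x' k • F v) → ∀ (n : ℕ) (f : List ℕ → V),
    F (SS al x n f) = SS al x' n (fun p => F (f p))

/-- The sums over the compositions of monomials. -/
def SSXSt (K : Type) [Field K] : Prop :=
  ∀ (al : K), al ≠ 0 → ∀ (x : ℕ → K) (n : ℕ),
    SS al x n (fun p => ((p.map fun k => (X k : Lam K)).prod : Lam K)) =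
      ∑ r : n.Partition, ((r.parts.map x).prod * (wtp al r)⁻¹) • pp K r

/-- The recursion for the words. -/
def SSKwSt (K I : Type) [Field K] [DecidableEq I] [Fintype I] : Prop :=
  ∀ (al b w1 w2 : K) (u s : I → K) (x : ℕ → K) (n : ℕ), n ≠ 0 →
    SS al x n (Kw b w1 w2 u s) = (al * (n : K))⁻¹ • ∑ k ∈ Finset.Icc 1 n,
      x k • clw K ((Aw b w1 w2 u s ^ k) (iw K (SS al x (n - k) (Kw b w1 w2 u s))))

/-! ### (Lg) logarithmic derivatives -/

structure LgSt (K : Type) [Field K] : Prop where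
  mul : ∀ {S : Type} [CommRing S] [Algebra K S] (al : K) (F : PowerSeries S),
    PowerSeries.constantCoeff F = 1 → ∀ n : ℕ,
    PowerSeries.coeff n (lg al F * F) = (al * (n : K)) • PowerSeries.coeff n F
  uniq : ∀ {S : Type} [CommRing S] [Algebra K S] (al : K) (F G : PowerSeries S),
    PowerSeries.constantCoeff F = 1 →
    (∀ n : ℕ, PowerSeries.coeff n (G * F) = (al * (n : K)) • PowerSeries.coeff n F) →
    G = lg al F
  zero : ∀ {S : Type} [CommRing S] [Algebra K S] (al : K) (F : PowerSeries S),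
    PowerSeries.constantCoeff F = 1 → PowerSeries.coeff 0 (lg al F) = 0
  map : ∀ {S S' : Type} [CommRing S] [Algebra K S] [CommRing S'] [Algebra K S'] (al : K)
    (h : S →ₐ[K] S') (F : PowerSeries S), PowerSeries.constantCoeff F = 1 →
    PowerSeries.map h.toRingHom (lg al F) = lg al (PowerSeries.map h.toRingHom F)
  psi : ∀ (al : K) (J : (n : ℕ) → n.Partition → n.Partition → K) (psi : PowerSeries (B3 K)),
    PowerSeries.constantCoeff (phi al J) = 1 → IsPsi al J psi → psi = lg al (phi al J)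

/-! ### (Hom) homogeneity -/

/-- the span of the `p_t(x) p_m(y) p_v(z)` -/
def H3 (K : Type) [Field K] (n : ℕ) : Submodule K (B3 K) :=
  Submodule.span K (Set.range fun a : n.Partition × n.Partition × n.Partition =>
    (pa 0 a.1 * pa 1 a.2.1 * pa 2 a.2.2 : B3 K))

structure HomSt (K : Type) [Field K] : Prop where
  phi : ∀ (al : K) (J : (n : ℕ) → n.Partition → n.Partition → K) (n : ℕ),
    PowerSeries.coeff n (phi al J) ∈ H3 K n
  phiN : ∀ (al b w1 w2 : K) (n : ℕ), PowerSeries.coeff n (phiS al b w1 w2) ∈ H3 K n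
  phiZ : ∀ (al b w1 w2 : K), PowerSeries.constantCoeff (phiS al b w1 w2) = 1
  log : ∀ (al : K) (F : PowerSeries (B3 K)), PowerSeries.constantCoeff F = 1 →
    (∀ n, PowerSeries.coeff n F ∈ H3 K n) → ∀ n, PowerSeries.coeff n (lg al F) ∈ H3 K n
  spe : ∀ (x q : ℕ → K) (n : ℕ), ∀ f ∈ H3 K n, ∀ m : n.Partition,
    coeff (expo m) (sp x q f) = ∑ t : n.Partition, ∑ v : n.Partition,
      coeff (expo3 t m v) f * ((t.parts.map x).prod * (v.parts.map q).prod)
  sp0 : ∀ (x q : ℕ → K) (n : ℕ), ∀ f ∈ H3 K n, ∀ e : ℕ →₀ ℕ, (∀ m : n.Partition, e ≠ expo m) →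
    coeff e (sp x q f) = 0

/-! ### (Half) the half model -/

open Pool.Agent.MJX in
/-- For two colours and the two values of the weight of the marks the process with unoriented
openings is the process with oriented openings. -/
def HalfSt (K : Type) [Field K] : Prop :=
  ∀ (al tau u2 kap u s : K), al ≠ 0 → tau = u2 + (al - 1) → tau * u2 = al → u2 * kap = 1 →
    tau = al * kap → tau ^ 2 = (al - 1) * tau + al → ∀ Kc : Lam K →ₗ[K] CM K, Kc 1 = 1 →
    (∀ (k : ℕ) (f : Lam K), k ≠ 0 →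
      Kc (X k * f) = cA ((Aop al kap u (s * u2) ^ k) (iA kap (Kc f)))) →
    ∀ p : List ℕ, (∀ k ∈ p, k ≠ 0) →
      Kw (al - 1) (al / 2) (al / 2) (uB u u2) (uB 1 s) p = MJF.Kw al u u2 s p

/-- The oriented process is the process of `MJF`. -/
def OriSt (K : Type) [Field K] : Prop :=
  ∀ (al u u2 s : K) (p : List ℕ),
    Kw (al - 1) 1 (al - 1) (uB u u2) (uB 1 s) p = MJF.Kw al u u2 s p

/-! ### (Ext) extraction of coefficients -/

/-- Extraction for `I = Fin l`: variables `x k = v (inl k)`, `u t = v (inr (inl t))`,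
`s t = v (inr (inr t))`. -/
def ExtASt (K : Type) [Field K] : Prop :=
  ∀ (P : Subsemiring K) (n : ℕ) (a : n.Partition → n.Partition → K) (t nu : n.Partition),
    (fun v : ℕ ⊕ (Fin nu.parts.card ⊕ Fin nu.parts.card) → K => ∑ r : n.Partition,
      ∑ r' : n.Partition, a r r' * ((r.parts.map fun k => v (Sum.inl k)).prod *
        (r'.parts.map fun k => ∑ c, v (Sum.inr (Sum.inl c)) * v (Sum.inr (Sum.inr c)) ^ k).prod))
      ∈ PP K (ℕ ⊕ (Fin nu.parts.card ⊕ Fin nu.parts.card)) P.toAddSubmonoid →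
    ((∏ k ∈ nu.parts.toFinset, (nu.parts.count k).factorial : ℕ) : K) * a t nu ∈ P

/-- Extraction for the marginals: variables `x k = v (inl k)`, `u = v (inr false)`,
`s = v (inr true)`. -/
def ExtMSt (K : Type) [Field K] : Prop :=
  ∀ (P : Subsemiring K) (w : K) (n : ℕ) (a : n.Partition → n.Partition → K) (t : n.Partition),
    (fun v : ℕ ⊕ Bool → K => ∑ r : n.Partition,
      ∑ r' : n.Partition, a r r' * ((r.parts.map fun k => v (Sum.inl k)).prod *
        (r'.parts.map fun k => v (Sum.inr false) + w * v (Sum.inr true) ^ k).prod))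
      ∈ PP K (ℕ ⊕ Bool) P.toAddSubmonoid →
    ∀ e : Bool →₀ ℕ, ∑ nu : n.Partition, a t nu * coeff e (mg w nu) ∈ P

/-! ### (Int) integrality -/

/-- Integrality in rank at most five. -/
def QIntSt : Prop :=
  ∀ {K : Type} [Field K] [CharZero K] {al : K} (G : Subring K) (Q : Set K), al ∈ G →
    (∀ y ∈ Q, al * (1 + al) * y ∈ G → y ∈ G) → (∀ y ∈ Q, ∀ z ∈ Q, y + z ∈ Q) →
    (∀ y ∈ Q, ∀ n : ℕ, (n : K) * y ∈ Q) → (0 : K) ∈ Q →
    ∀ {n : ℕ} (h : n.Partition → K), (∀ nu : n.Partition, n ≤ nu.parts.card + 5 → h nu ∈ Q) →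
    (∀ e : Bool →₀ ℕ, ∑ nu : n.Partition, h nu * coeff e (mg 1 nu) ∈ G) →
    (∀ e : Bool →₀ ℕ, ∑ nu : n.Partition, h nu * coeff e (mg (-al) nu) ∈ G) →
    ∀ nu : n.Partition, n ≤ nu.parts.card + 5 → h nu ∈ G

end

end Pool.Agent.MJL
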