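import Pool.Agent.MJL.St
import Pool.Agent.MJL.Alg
import Pool.Agent.MJF.Iota3

/-!
Statements for the log versions, part two: the process of the arc model and the series.
-/

namespace Pool.Agent.MJL

open MvPolynomial Pool.Agent.MJR Pool.Agent.MJX
open Pool.Agent.MJF (ic)

noncomputable section

/-- the field `ℚ(al)` -/
abbrev QA := RatFunc ℚ

/-- `Kc` is the process of the arc model, with the two values of the weight `u2` of a mark. -/
structure IsK {K : Type} [Field K] (al tau u2 kap u s : K) (Kc : Lam K →ₗ[K] CM K) : Prop where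
  h0 : al ≠ 0
  h1 : tau = u2 + (al - 1)
  h2 : tau * u2 = al
  h3 : u2 * kap = 1
  ht : tau = al * kap
  hq : tau ^ 2 = (al - 1) * tau + al
  one : Kc 1 = 1
  hK : ∀ (k : ℕ) (f : Lam K), k ≠ 0 →
    Kc (X k * f) = cA ((Aop al kap u (s * u2) ^ k) (iA kap (Kc f)))
  hZ : ∀ f : Lam K, Kc (X 0 * f) = 0

/-- the level `n` of the generating function of the power sums -/
def Gx {K : Type} [Field K] (al : K) (x : ℕ → K) (n : ℕ) : Lam K :=
  ∑ r : n.Partition, ((r.parts.map x).prod * (wtp al r)⁻¹) • pp K r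

/-- (TruA) The series `phi` with `p_k(x) = x k`, `p_k(z) = u + u2 s^k`. -/
def TruSt : Prop :=
  ∀ J : (n : ℕ) → n.Partition → n.Partition → QA, (∀ n, IsJack RatFunc.X n (J n)) →
    ∀ u2 u s : QA, u2 = 1 ∨ u2 = -RatFunc.X →
    ∃ (tau kap : QA) (Kc : Lam QA →ₗ[QA] CM QA), IsK RatFunc.X tau u2 kap u s Kc ∧
      ∀ (x : ℕ → QA) (n : ℕ), sp x (fun k => u + u2 * s ^ k) (PowerSeries.coeff n
        (phi RatFunc.X J)) = MJF.fgt QA (ic tau (Kc (Gx RatFunc.X x n)))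

/-- (LogJ) Opening all cycles. -/
def LogJSt (K : Type) [Field K] : Prop :=
  ∀ (al tau u2 kap u s : K) (Kc : Lam K →ₗ[K] CM K), IsK al tau u2 kap u s Kc →
    ∀ (x : ℕ → K) (G : ℕ → Lam K), G 0 = 1 →
    (∀ n : ℕ, (al * (n : K)) • G n = ∑ k ∈ Finset.Icc 1 n, x k • (X k * G (n - k))) →
    ∀ n : ℕ, MJF.J al false (ic tau (Kc (G n))) + MJF.J al true (ic tau (Kc (G n))) =
      ∑ k ∈ Finset.Icc 1 n,
        x k • (MJF.Aw al u u2 s ^ k) (MJF.iw K (ic tau (Kc (G (n - k)))))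

/-- (Fin2) The marginals of `h`. -/
def MargSt : Prop :=
  ∀ J : (n : ℕ) → n.Partition → n.Partition → QA, (∀ n, IsJack RatFunc.X n (J n)) →
    ∀ psi : PowerSeries (B3 QA), IsPsi RatFunc.X J psi →
    ∀ u2 : QA, u2 = 1 ∨ u2 = -RatFunc.X → ∀ P : Subsemiring QA, RatFunc.X - 1 ∈ P → u2 ∈ P →
    ∀ (n : ℕ) (t m : n.Partition) (e : Bool →₀ ℕ),
      ∑ nu : n.Partition, hc psi t m nu * coeff e (mg u2 nu) ∈ P

end

end Pool.Agent.MJL
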